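import Pool.Agent.H17.FUL.Exr
import Pool.Agent.H33.FUL.Cla

/-!
# The numbers of the closed labels of the straight images of a class

For a class `T` of straight images with the numbers `L`: `im_ge`: the numbers of the images are at
least the exponent of their size; `im_le`: the numbers of the images are bounded by the thresholds
of their targets; `base_le`: the numbers of the coordinates of the base over the base are small, if
the base is full near the window.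
-/

set_option autoImplicit false

namespace Pool.FUL17

open Finset Real MvPolynomial
open Pool.Agent.H49.Ent Pool.Agent.H32.Dense Pool.STK Pool.KA Pool.KSAT Pool.K2S Pool.PB Pool.S6C
open Pool.GEN Pool.REX Pool.REX83 Pool.NFT33 Pool.TOP
open Pool.GRD (LbP)
open Pool.GRW (bas_part)
open Pool.UNJ (ceI)
open Pool.FUL33 (st_fac bgJ wB wJ jw jmul pull bas_abs)

variable {m N R J : ℕ}

section cl

variable {S : PCl m} {v : Vz m} {φ : Fin N → Fin m} {n : Fin R → Fin m} {E : Finset (Fin m)}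
  {M q : ℕ → ℕ}
  {ka : ∀ (J : ℕ) (F : Fam m J), v.κ J F → Fin R → Fin m → ℝ} {T : PCl (N + R)}
  {L : Finset (Fin (N + R)) → Fin (N + R) → ℝ → ℝ → ℝ}

/-- The size of the images. -/
theorem im_ge (hS : (S.sl (slI v (nwR v φ n E M ka) T)).Ne) (hL : LamW T L)
    (hst : Bas S (fun J F A => StR F v E (ka J F) (M J) (q J) A)) {σ : ℝ} (hσ : σ ≤ 1)
    (hq : ∀ J, ⌊σ * ((J - v.B J : ℕ) : ℝ)⌋₊ ≤ q J) (j : Fin R) (I : Finset (Fin (N + R)))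
    (w' r : ℝ) : σ ≤ L I (Fin.natAdd N j) w' r := by
  by_contra hcon
  push Not at hcon
  obtain ⟨d, hd, -, h1⟩ := hL.abs I (Fin.natAdd N j) w' r σ hcon hσ
  have h2 := pull (S := S) (v := v) (f := nwR v φ n E M ka) (h1 d le_rfl 0)
  have hsub : ∀ (τ : ℝ) (J : ℕ) (F : Fam m J) (A : F.Ω → Prop),
    (S.sl (slI v (nwR v φ n E M ka) T)).St τ J F A → S.St τ J F A := fun _ _ _ _ h => h.1
  have h3 := Bas.sub hsub hst
  refine bas_abs hS (h2.and h3) ⟨0, fun J _ F A h4 => ?_⟩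
  exact h4.1 (h4.2.zero j I 0 _ _ _ _ (hq J))

/-- **The numbers of the images.** -/
theorem im_le (hS : (S.sl (slI v (nwR v φ n E M ka) T)).Ne) (hL : LamW T L)
    (hst : Bas S (fun J F A => StR F v E (ka J F) (M J) (q J) A)) (j : Fin R)
    {v₀ Q m₀ C w' w'' e P r : ℝ}
    (hno : ∀ K, Bas S (fun J F A => ¬ LbR 0 F (lbs φ n E j) (n j) K ⌊v₀ * J⌋₊ ⌊Q * J⌋₊ A))
    (hv₀ : v.b + w'' * (1 - v.b) < v₀) (hv1 : v₀ ≤ 1) (hw' : w' < w'') (hw0 : 0 < w'')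
    (hw1 : w'' ≤ 1) (hM : ∀ J : ℕ, (M J : ℝ) ≤ m₀ * J + C) (hQ0 : 0 ≤ Q) (he : 0 < e)
    (hP : Q + m₀ < v.b + (P - e) * (1 - v.b))
    {I : Finset (Fin (N + R))} (hI : Fin.natAdd N j ∉ I) : L I (Fin.natAdd N j) w' r ≤ P := by
  by_contra hcon
  push Not at hcon
  obtain ⟨l, hl⟩ : ∃ l, l = L I (Fin.natAdd N j) w' r := ⟨_, rfl⟩
  rw [← hl] at hcon
  obtain ⟨K, hK⟩ := hL.att I (Fin.natAdd N j) w' w'' r e hw0 hw1 hw' he
  rw [← hl] at hK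
  have h2 := pull (S := S) (v := v) (f := nwR v φ n E M ka) hK
  have hsub : ∀ (τ : ℝ) (J : ℕ) (F : Fam m J) (A : F.Ω → Prop),
    (S.sl (slI v (nwR v φ n E M ka) T)).St τ J F A → S.St τ J F A := fun _ _ _ _ h => h.1
  have h3 := Bas.sub hsub hst
  have h4 := Bas.sub hsub (bas_part (hno (K + 1)) (c := 99 ^ m * 99 ^ (N + R)) (by positivity))
  have hb0 := v.b0
  have hb1 := v.b1
  obtain ⟨J₁, hJ₁⟩ := bgJ (a := v₀ - (v.b + w'' * (1 - v.b))) (by linarith) w''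
  obtain ⟨J₂, hJ₂⟩ := bgJ (a := v.b + (P - e) * (1 - v.b) - (Q + m₀)) (by linarith)
    (C + 2 + |l - e|)
  refine bas_abs hS ((h2.and h3).and h4) ⟨max J₁ J₂, fun J hJ F A h5 => ?_⟩
  obtain ⟨⟨h6, h7⟩, h8⟩ := h5
  have hJ0 : (0 : ℝ) ≤ J := Nat.cast_nonneg J
  obtain ⟨V, z, z', G, hlb⟩ := h6
  obtain ⟨B, hB, hPB, hdet⟩ := h7.part
  have g1 := hJ₁ J ((le_max_left _ _).trans hJ)
  have g2 := hJ₂ J ((le_max_right _ _).trans hJ)
  obtain ⟨j1, j2⟩ := jw v J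
  obtain ⟨b1, b2⟩ := wB v J
  refine h8 B hB hPB (h7.lbr (n := n) (φ := φ) hB hdet j hI (w' := ⌊w'' * ((J - v.B J : ℕ) : ℝ)⌋₊) ?_ ?_ ?_
    (LbP.of hlb))
  · refine Nat.le_floor ?_
    have h9 : (⌊w'' * ((J - v.B J : ℕ) : ℝ)⌋₊ : ℝ) ≤ w'' * ((J - v.B J : ℕ) : ℝ) :=
      Nat.floor_le (mul_nonneg hw0.le (Nat.cast_nonneg _))
    have h10 : w'' * ((J - v.B J : ℕ) : ℝ) ≤ w'' * ((1 - v.b) * J + 1) :=
      mul_le_mul_of_nonneg_left j2 hw0.le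
    have e1 : (v₀ - (v.b + w'' * (1 - v.b))) * (J : ℝ) =
      v₀ * J - v.b * J - w'' * ((1 - v.b) * J) := by ring
    have e2 : w'' * ((1 - v.b) * J + 1) = w'' * ((1 - v.b) * J) + w'' := by ring
    push_cast
    linarith
  · refine Nat.floor_le_of_le ?_
    calc v₀ * (J : ℝ) ≤ 1 * J := mul_le_mul_of_nonneg_right hv1 hJ0
      _ = J := one_mul _
  · rw [← pow_add]
    refine pow_le_pow_right₀ (by norm_num) ?_
    have h9 : (⌊Q * (J : ℝ)⌋₊ : ℝ) ≤ Q * J := Nat.floor_le (mul_nonneg hQ0 hJ0)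
    have h10 := Nat.lt_floor_add_one ((l - e) * ((J - v.B J : ℕ) : ℝ))
    have h11 := jmul v (l - e) J
    have h12 : (P - e) * (1 - v.b) * J ≤ (l - e) * (1 - v.b) * J := by
      refine mul_le_mul_of_nonneg_right ?_ hJ0
      exact mul_le_mul_of_nonneg_right (by linarith) (by linarith)
    have h13 := hM J
    have e1 : (v.b + (P - e) * (1 - v.b) - (Q + m₀)) * (J : ℝ) =
      v.b * J + (P - e) * (1 - v.b) * J - Q * J - m₀ * J := by ring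
    have h14 : ((⌊Q * (J : ℝ)⌋₊ + M J : ℕ) : ℝ) ≤
        ((v.B J + ⌊(l - e) * ((J - v.B J : ℕ) : ℝ)⌋₊ : ℕ) : ℝ) := by
      push_cast
      linarith
    exact_mod_cast h14

/-- **The numbers of the coordinates of the base over the base.** -/
theorem base_le (hS : (S.sl (slI v (nwR v φ n E M ka) T)).Ne) (hL : LamW T L)
    (hpos : Bas S (fun _ F A => 0 < Pe F.p A))
    (hst : Bas S (fun J F A => StR F v E (ka J F) (M J) (q J) A)) {w₂ u w' w'' e δ r : ℝ}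
    (hφ : Function.Injective φ) (hw₂ : v.b + w'' * (1 - v.b) < w₂) (hwu : w₂ ≤ u) (hu1 : u < 1)
    (hful : Ful S (univ.image φ) w₂ u) (hw' : w' < w'') (hw0 : 0 < w'') (hw1 : w'' ≤ 1)
    (he : 0 < e) (heδ : 8 * e ≤ δ) (hδ1 : δ ≤ 1) (huw : 4 * (u - v.b) ≤ δ * (1 - v.b)) (hr : r + e ≤ 1)
    {I : Finset (Fin (N + R))} (hI : ∀ j : Fin R, Fin.natAdd N j ∉ I) {i : Fin N}
    (hi : Fin.castAdd R i ∉ I) :
    L I (Fin.castAdd R i) w' r ≤ δ := by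
  by_contra hcon
  push Not at hcon
  obtain ⟨l, hl⟩ : ∃ l, l = L I (Fin.castAdd R i) w' r := ⟨_, rfl⟩
  rw [← hl] at hcon
  have hl1 : l ≤ 1 := by rw [hl]; exact hL.le1 _ _ _ _
  obtain ⟨K, hK⟩ := hL.att I (Fin.castAdd R i) w' w'' r e hw0 hw1 hw' he
  rw [← hl] at hK
  have hb0 := v.b0
  have hb1 := v.b1
  have hδ0 : 0 < δ := by linarith
  have hbδ : 0 < δ * (1 - v.b) := mul_pos hδ0 (by linarith)
  have h2 := pull (S := S) (v := v) (f := nwR v φ n E M ka) hK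
  have hsub : ∀ (τ : ℝ) (J : ℕ) (F : Fam m J) (A : F.Ω → Prop),
    (S.sl (slI v (nwR v φ n E M ka) T)).St τ J F A → S.St τ J F A := fun _ _ _ _ h => h.1
  have h3 := Bas.sub hsub hst
  have h4 := Bas.sub hsub (bas_part ((hful (δ * (1 - v.b) / 8) (by linarith)).and hpos)
    (c := 99 ^ m * 99 ^ (N + R)) (by positivity))
  have hl2 : 0 < Real.log 2 := Real.log_pos one_lt_two
  have hl2' := Real.log_two_gt_d9
  have hl2'' := Real.log_two_lt_d9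
  have hc1 : 0 < w₂ - (v.b + w'' * (1 - v.b)) := by linarith
  obtain ⟨J₁, hJ₁⟩ := bgJ hc1 w''
  obtain ⟨C, hC⟩ : ∃ C : ℝ, C = ((N : ℝ) - 1) * Real.log 5 + Real.log (2 * (N + R : ℕ) + 9) +
    (3 + 3) * Real.log 2 := ⟨_, rfl⟩
  obtain ⟨J₂, hJ₂⟩ := bgJ (a := δ * (1 - v.b) / 8) (by linarith) (C + 1)
  refine bas_abs hS ((h2.and h3).and h4) ⟨max J₁ J₂, fun J hJ F A h5 => ?_⟩
  obtain ⟨⟨h6, h7⟩, h8⟩ := h5
  have hJ0 : (0 : ℝ) ≤ J := Nat.cast_nonneg J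
  obtain ⟨V, z, z', G, hlb⟩ := h6
  obtain ⟨B, hB, hPB, hdet⟩ := h7.part
  have g1 := hJ₁ J ((le_max_left _ _).trans hJ)
  have g2 := hJ₂ J ((le_max_right _ _).trans hJ)
  obtain ⟨j1, j2⟩ := jw v J
  obtain ⟨b1, b2⟩ := wB v J
  have hJ' : (0 : ℝ) ≤ ((J - v.B J : ℕ) : ℝ) := Nat.cast_nonneg _
  have hWJ : ⌊w₂ * (J : ℝ)⌋₊ ≤ J := by
    refine Nat.floor_le_of_le ?_
    calc w₂ * (J : ℝ) ≤ 1 * J := mul_le_mul_of_nonneg_right (by linarith) hJ0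
      _ = J := one_mul _
  have hW : v.B J + ⌊w'' * ((J - v.B J : ℕ) : ℝ)⌋₊ ≤ ⌊w₂ * (J : ℝ)⌋₊ := by
    refine Nat.le_floor ?_
    have h9 : (⌊w'' * ((J - v.B J : ℕ) : ℝ)⌋₊ : ℝ) ≤ w'' * ((J - v.B J : ℕ) : ℝ) :=
      Nat.floor_le (mul_nonneg hw0.le (Nat.cast_nonneg _))
    have h10 : w'' * ((J - v.B J : ℕ) : ℝ) ≤ w'' * ((1 - v.b) * J + 1) :=
      mul_le_mul_of_nonneg_left j2 hw0.le
    have e1 : (w₂ - (v.b + w'' * (1 - v.b))) * (J : ℝ) =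
      w₂ * J - v.b * J - w'' * ((1 - v.b) * J) := by ring
    have e2 : w'' * ((1 - v.b) * J + 1) = w'' * ((1 - v.b) * J) + w'' := by ring
    push_cast
    linarith
  obtain ⟨yp, yl, hy⟩ := st_fac hdet hW hWJ (fun ω hω => hlb.cls ω (hB ω hω))
  obtain ⟨h9, h10⟩ := h8 B hB hPB
  have h11 := h9 (Option (V × (v.win F).ζ)) yp yl (fun ω hω => by rw [(hy ω hω).1, (hy ω hω).2])
  have huJ0 : 0 ≤ u * (J : ℝ) := mul_nonneg (by
    have := mul_nonneg hw0.le (by linarith : (0 : ℝ) ≤ 1 - v.b)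
    linarith) hJ0
  have hu : ⌊u * (J : ℝ)⌋₊ ≤ J := by
    refine Nat.floor_le_of_le ?_
    calc u * (J : ℝ) ≤ 1 * J := mul_le_mul_of_nonneg_right hu1.le hJ0
      _ = J := one_mul _
  have hle1 : ∀ x : ℝ, x ≤ 1 → ⌊x * ((J - v.B J : ℕ) : ℝ)⌋₊ ≤ J - v.B J := by
    intro x hx
    refine Nat.floor_le_of_le ?_
    calc x * ((J - v.B J : ℕ) : ℝ) ≤ 1 * ((J - v.B J : ℕ) : ℝ) :=
          mul_le_mul_of_nonneg_right hx hJ'
      _ = ((J - v.B J : ℕ) : ℝ) := one_mul _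
  have h12 := h7.bse (n := n) hB h10 hI hi hlb (hle1 _ hr)
    (hle1 _ (by linarith)) hu (fun ω hω => (hy ω hω).2) h11
  rw [Finset.card_image_of_injective _ hφ, Finset.card_univ, Fintype.card_fin] at h12
  have hXc : (((J - ⌊u * (J : ℝ)⌋₊ : ℕ) : ℝ)) = J - ⌊u * (J : ℝ)⌋₊ := Nat.cast_sub hu
  have hfu : (⌊u * (J : ℝ)⌋₊ : ℝ) ≤ u * J := Nat.floor_le huJ0
  have hfl := Nat.lt_floor_add_one ((l - e) * ((J - v.B J : ℕ) : ℝ))
  have hfe : (⌊e * ((J - v.B J : ℕ) : ℝ)⌋₊ : ℝ) ≤ e * ((J - v.B J : ℕ) : ℝ) :=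
    Nat.floor_le (mul_nonneg he.le hJ')
  obtain ⟨X, hX⟩ : ∃ X : ℝ, X = ((J - ⌊u * (J : ℝ)⌋₊ : ℕ) : ℝ) := ⟨_, rfl⟩
  obtain ⟨P', hP'⟩ : ∃ P' : ℝ, P' = (⌊(l - e) * ((J - v.B J : ℕ) : ℝ)⌋₊ : ℝ) := ⟨_, rfl⟩
  obtain ⟨E', hE'⟩ : ∃ E' : ℝ, E' = (⌊e * ((J - v.B J : ℕ) : ℝ)⌋₊ : ℝ) := ⟨_, rfl⟩
  obtain ⟨J', hJ'e⟩ : ∃ J' : ℝ, J' = ((J - v.B J : ℕ) : ℝ) := ⟨_, rfl⟩
  rw [← hX, ← hP', ← hE', ← hJ'e] at h12
  rw [← hX] at hXc
  rw [← hP', ← hJ'e] at hfl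
  rw [← hE', ← hJ'e] at hfe
  rw [← hJ'e] at j1 j2 hJ'
  -- the inequality
  have k1 : X * Real.log 2 ≤ (J' - P' + E') * Real.log 2 + δ * (1 - v.b) / 8 * J +
      (C - (3 + 3) * Real.log 2) := by
    rw [hC]
    linarith
  have k2 : (1 - u) * J ≤ X := by rw [hXc]; linarith
  have k3 : (l - e) * J' - 1 ≤ P' := by linarith
  have k4 : J' - P' + E' ≤ (1 - l + 2 * e) * J' + 1 := by
    have : (1 - l + 2 * e) * J' = J' - (l - e) * J' + e * J' := by ring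
    linarith
  have k5 : (1 - l + 2 * e) * J' ≤ (1 - 3 / 4 * δ) * J' :=
    mul_le_mul_of_nonneg_right (by linarith) hJ'
  have k6 : (1 - 3 / 4 * δ) * J' ≤ (1 - 3 / 4 * δ) * ((1 - v.b) * J + 1) := by
    exact mul_le_mul_of_nonneg_left j2 (by linarith)
  have k7 : J' - P' + E' ≤ (1 - 3 / 4 * δ) * (1 - v.b) * J + 2 := by
    have : (1 - 3 / 4 * δ) * ((1 - v.b) * J + 1) =
      (1 - 3 / 4 * δ) * (1 - v.b) * J + (1 - 3 / 4 * δ) := by ring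
    linarith
  have k8 : (1 - u) * J - ((1 - 3 / 4 * δ) * (1 - v.b) * J + 2) ≤ X - (J' - P' + E') := by
    linarith
  have k9 : δ * (1 - v.b) / 2 * J ≤ (1 - u) * J - (1 - 3 / 4 * δ) * (1 - v.b) * J := by
    have e1 : (1 - u) * J - (1 - 3 / 4 * δ) * (1 - v.b) * J =
      (3 / 4 * (δ * (1 - v.b)) - (u - v.b)) * J := by ring
    rw [e1]
    exact mul_le_mul_of_nonneg_right (by linarith) hJ0
  have k10 : (δ * (1 - v.b) / 2 * J - 2) * Real.log 2 ≤ (X - (J' - P' + E')) * Real.log 2 :=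
    mul_le_mul_of_nonneg_right (by linarith) hl2.le
  have k11 : (X - (J' - P' + E')) * Real.log 2 = X * Real.log 2 -
    (J' - P' + E') * Real.log 2 := by ring
  have k12 : 0 ≤ δ * (1 - v.b) * J := mul_nonneg hbδ.le hJ0
  have k13 : 1 / 2 * (δ * (1 - v.b) / 2 * J) ≤ δ * (1 - v.b) / 2 * J * Real.log 2 := by
    have : 1 / 2 * (δ * (1 - v.b) / 2 * J) = (δ * (1 - v.b) / 2 * J) * (1 / 2) := by ring
    rw [this]
    exact mul_le_mul_of_nonneg_left (by linarith) (by linarith)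
  have k14 : (δ * (1 - v.b) / 2 * J - 2) * Real.log 2 =
    δ * (1 - v.b) / 2 * J * Real.log 2 - 2 * Real.log 2 := by ring
  linarith

end cl

end Pool.FUL17
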