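import Pool.Agent.H17.FUL.Ord
import Pool.Agent.H33.FUL.Cor

/-!
# The entropy of several straight images of a class
-/

set_option autoImplicit false

namespace Pool.FUL17

open Finset Real MvPolynomial
open Pool.Agent.H49.Ent Pool.Agent.H32.Dense Pool.STK Pool.KA Pool.KSAT Pool.K2S Pool.PB Pool.S6C
open Pool.GEN Pool.REX Pool.REX83 Pool.NFT33 Pool.TOP
open Pool.FUL33 (bgJ wB wJ jw jmul pull bas_abs)

variable {m N R J : ℕ}

theorem fin_lb {R : ℕ} (f : Fin R → ℝ) (hf : ∀ j, 0 < f j) : ∃ c, 0 < c ∧ ∀ j, c ≤ f j := by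
  rcases isEmpty_or_nonempty (Fin R) with h | h
  · exact ⟨1, one_pos, fun j => (h.false j).elim⟩
  · obtain ⟨j₀, hj₀⟩ := Finite.exists_min f
    exact ⟨f j₀, hf j₀, hj₀⟩

/-- **The entropy of the digits of the straight images**, in a subclass. -/
theorem core (hF : FZX (N + R)) {S : PCl m} (hS : S.Ne)
    (hpos : ∀ (τ : ℝ) (J : ℕ) (F : Fam m J) (A : F.Ω → Prop), S.St τ J F A → 0 < Pe F.p A)
    {C₀ : ℝ} (hC₀ : 0 ≤ C₀) (htm : TmC S C₀) {N₀ : ℚ → ℚ → ℝ} {al : ℝ} {g₀ : ℝ → ℝ} (hal : 0 < al)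
    (hg₀ : ∀ ε : ℝ, 0 < ε → 0 < g₀ ε) (hM : ActM N₀ al g₀) {v : Vz m} {φ : Fin N → Fin m}
    (hφ : Function.Injective φ) (i₀ : Fin N) (hB : ActB N₀ S (φ i₀)) {n : Fin R → Fin m}
    {E : Finset (Fin m)} {M q : ℕ → ℕ}
    {ka : ∀ (J : ℕ) (F : Fam m J), v.κ J F → Fin R → Fin m → ℝ}
    (hst : Bas S (fun J F A => StR F v E (ka J F) (M J) (q J) A))
    {w₂ u m₀ C σ δ ρ : ℝ} {v₀ Q P : Fin R → ℝ} (hw₂ : v.b < w₂) (hwu : w₂ ≤ u) (hu1 : u < 1)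
    (hful : Ful S (univ.image φ) w₂ u) (huw : 4 * (u - v.b) ≤ δ * (1 - v.b)) (hδ0 : 0 < δ)
    (hδ2 : δ ≤ 1 / 2) (hδσ : δ < σ) (hσ1 : σ ≤ 1)
    (hq : ∀ J, ⌊σ * ((J - v.B J : ℕ) : ℝ)⌋₊ ≤ q J) (hv₀ : ∀ j, v.b < v₀ j) (hv1 : ∀ j, v₀ j ≤ 1)
    (hm₀ : ∀ J : ℕ, (M J : ℝ) ≤ m₀ * J + C)
    (hP : ∀ j, 1 ≤ P j ∨ (0 ≤ Q j ∧ Q j + m₀ < v.b + (P j - δ / 8) * (1 - v.b) ∧
      ∀ K, Bas S (fun J F A =>
        ¬ LbR 0 F (lbs φ n E j) (n j) K ⌊v₀ j * J⌋₊ ⌊Q j * J⌋₊ A))) (hρ : 0 < ρ) :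
    ∃ S₁ : PCl m, S₁.Ne ∧ (∀ (τ : ℝ) (J : ℕ) (F : Fam m J) (A : F.Ω → Prop),
      S₁.St τ J F A → S.St τ J F A) ∧ Bas S₁ (fun J F A => ∃ ε : Fin (N + R) → Fin (N + R),
      ((N * (1 - δ) + ∑ j, (1 - P j)) - ρ) * Real.log 2 * ((J - v.B J : ℕ) : ℝ) ≤
        CH (Pool.Agent.H49.Ent.cond F.p A True)
          (fun ω (j : Fin (N + R)) => (winI v (nwR v φ n E M ka) F).X (J - v.B J) ω (ε j))
          (fun ω => ((), (winI v (nwR v φ n E M ka) F).W ω))) := by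
  classical
  have hb0 := v.b0
  have hb1 := v.b1
  have hc : 0 < 1 - v.b := by linarith
  have hposC : PosC S := fun τ J F A _ h => hpos τ J F A h
  have hposB : Bas S (fun _ F A => 0 < Pe F.p A) :=
    ⟨1, one_pos, 0, fun J _ F A hA => hpos 1 J F A hA⟩
  obtain ⟨T, L, hT, hTs, hL⟩ := lamw (WyI S v (nwR v φ n E M ka)) (wyi_ne hS)
  have hS₁ : (S.sl (slI v (nwR v φ n E M ka) T)).Ne := slI_ne v (nwR v φ n E M ka) hT hTs
  have hTpos : ∀ (τ : ℝ) (J : ℕ) (F : Fam (N + R) J) (A : F.Ω → Prop), T.St τ J F A →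
      0 < Pe F.p A := fun τ J F A h => wyi_pos hpos τ J F A (hTs τ J F A h)
  have hTposB : Bas T (fun _ F A => 0 < Pe F.p A) :=
    ⟨1, one_pos, 0, fun J _ F A hA => hTpos 1 J F A hA⟩
  have hC' : 0 ≤ C₀ * (1 / (1 - v.b)) := by positivity
  have htm' : TmC T (C₀ * (1 / (1 - v.b))) := fun τ J F A h1 h2 =>
    wyi_tmC hC₀ htm τ J F A h1 (hTs τ J F A h2)
  have hact0 := act_st (φ := φ) (n := n) hposC hal.le i₀ hst
  have hact : ActB (NZR S (φ i₀) (al + 1) v.b) T (Fin.castAdd R i₀) := fun x y h1 h2 h3 h h4 =>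
    Bas.sub hTs (hact0 x y h1 h2 h3 h h4)
  have hMr := hM.real hposC hal.le hB hb0 hb1
  have hg' : ∀ ε : ℝ, 0 < ε → 0 < (fun ε : ℝ => min (g₀ (ε / 2)) 1) ε := fun ε hε =>
    lt_min (hg₀ _ (half_pos hε)) one_pos
  obtain ⟨D, hDc, hD⟩ := wv_cover hL (φ := fun i : Fin (N + R) => i) (κ := Fin.castAdd R i₀)
    (fun w h0 h1 => hL.act hT hal (hMr.q hg') hact hTposB h0 h1)
  obtain ⟨c₂, hc₂, hc₂v⟩ := fin_lb (fun j => (v₀ j - v.b) / 2) (fun j => by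
    have := hv₀ j
    linarith)
  obtain ⟨w'', hw''⟩ : ∃ w'', w'' = min (min ((w₂ - v.b) / 2) c₂) δ := ⟨_, rfl⟩
  have a0 : 0 < w'' := by
    rw [hw'']
    exact lt_min (lt_min (by linarith) hc₂) hδ0
  have a1 : w'' ≤ (w₂ - v.b) / 2 := by
    rw [hw'']
    exact (min_le_left _ _).trans (min_le_left _ _)
  have a2 : ∀ j, w'' ≤ (v₀ j - v.b) / 2 := fun j => by
    rw [hw'']
    exact ((min_le_left _ _).trans (min_le_right _ _)).trans (hc₂v j)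
  have a3 : w'' ≤ δ := by
    rw [hw'']
    exact min_le_right _ _
  have a4 : w'' * (1 - v.b) ≤ w'' := by
    calc w'' * (1 - v.b) ≤ w'' * 1 := mul_le_mul_of_nonneg_left (by linarith) a0.le
      _ = w'' := mul_one _
  obtain ⟨w', hw'D, hw'0, hw'1⟩ := (hDc.dense_compl ℝ).exists_between a0
  obtain ⟨σp, hWv, hσ0⟩ := hD w' hw'0 (by linarith) hw'D
  obtain ⟨-, -, hg, hct⟩ := hWv
  have hεb : Function.Bijective ((fun i : Fin (N + R) => i) ∘ σp) := σp.bijective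
  have hord := order hεb hg (δ := δ) (σ := σ) (P := P) (by linarith) hδσ
    (fun I i r hI hi hr => base_le (n := n) (E := E) (M := M) (ka := ka) hS₁ hL hposB hst hφ
      (w₂ := w₂) (u := u) (w'' := w'') (e := δ / 8) (by linarith) hwu hu1 hful hw'1 a0
      (by linarith) (by linarith) (by linarith) (by linarith) huw (by linarith) hI hi)
    (fun I j r => im_ge (φ := φ) (n := n) (E := E) (M := M) (ka := ka) hS₁ hL hst hσ1 hq j I w' r)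
    (fun I j r hI => by
      rcases hP j with h1 | ⟨h1, h2, h3⟩
      · exact (hL.le1 _ _ _ _).trans h1
      · have := a2 j
        exact im_le (φ := φ) (n := n) (E := E) (M := M) (ka := ka) hS₁ hL hst j (v₀ := v₀ j)
          (Q := Q j) (m₀ := m₀) (C := C) (w'' := w'') (e := δ / 8) h3
          (by linarith) (hv1 j) hw'1 a0 (by linarith) hm₀ h1 (by linarith) h2 hI)
  have hex := vst_exa hF hT hC' htm' hL hal hg' hMr hTposB hεb.1 (fun j hj => by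
    have h1 : ((fun i : Fin (N + R) => i) ∘ σp) j = Fin.castAdd R i₀ := hσ0 j hj
    rw [h1]
    exact hact) hw'0 (by linarith) hg hct hρ
  refine ⟨_, hS₁, fun _ _ _ _ h => h.1, (pull (S := S) (v := v)
    (f := nwR v φ n E M ka) hex).mono 0 fun J _ F A h => ?_⟩
  refine ⟨(fun i : Fin (N + R) => i) ∘ σp, le_trans ?_
    (h Unit (fun _ => ()) (fun _ => ()) fun _ _ => rfl)⟩
  refine mul_le_mul_of_nonneg_right (mul_le_mul_of_nonneg_right (by linarith)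
    (Real.log_pos one_lt_two).le) (Nat.cast_nonneg _)

end Pool.FUL17
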