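import Pool.Agent.H17.FUL.Cor
import Pool.Agent.H33.FUL.Fin

/-!
# Fullness of several straight images

`fulR`: let the coordinates `φ i` be full near the window `w`, one of them active, and let there be
no closed labels of the coordinates `n j` over them, the coordinates in `E` and the other
coordinates `n j'` with more than `s j` digits near the window `w`. Then for all closed slopes
`κ j l` of size at most `2 ^ (x J)` the first `r` digits of the images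
`x (n j) - ∑ l ∈ E, κ j l * x l` have together the entropy `∑ j, (r - s j)`, given all digits of
the coordinates `φ i` and any closed function at the window `w`, for `r ≤ 1 - x`.
-/

set_option autoImplicit false

namespace Pool.FUL17

open Finset Real MvPolynomial
open Pool.Agent.H49.Ent Pool.Agent.H32.Dense Pool.STK Pool.KA Pool.KSAT Pool.K2S Pool.PB Pool.S6C
open Pool.GEN Pool.REX Pool.REX83 Pool.NFT33 Pool.TOP
open Pool.UNJ (ceI)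
open Pool.LBT (ThrOf)
open Pool.OWN72 (bas_low)
open Pool.FUL33 (bgJ wB wJ jw jmul pull bas_abs)

variable {m N R J : ℕ}

/-- A closed function and slopes. -/
structure SR (R : ℕ) (F : Fam m J) : Type where
  z : PtT F → Option F.Ω
  z' : LnT F → Option F.Ω
  ka : Option F.Ω → Fin R → Fin m → ℝ

instance (F : Fam m J) : Nonempty (SR R F) :=
  ⟨⟨fun _ => none, fun _ => none, fun _ _ _ => 0⟩⟩

/-- The value of the closed function. -/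
noncomputable def SR.y {F : Fam m J} (d : SR R F) (w : ℝ) (ω : F.Ω) : Option F.Ω :=
  d.z' (slam F ⌊w * J⌋₊ ω)

/-- The window with the closed function. -/
noncomputable def vzR (w : ℝ) (h0 : 0 ≤ w) (h1 : w < 1) (d : ∀ (J : ℕ) (F : Fam m J), SR R F) :
    Vz m where
  b := w
  p := 0
  b0 := h0
  b1 := h1
  p0 := le_rfl
  p1 := one_pos
  κ _ F := Option F.Ω
  y J F ω := (d J F).y w ω
  line J F ω ω' h := by
    unfold SR.y
    rw [h]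

/-- The datum is closed on the event and the slopes have the size `2 ^ (c J)`. -/
def VR (E : Finset (Fin m)) (w c : ℝ) (J : ℕ) (F : Fam m J) (d : SR R F) (A : F.Ω → Prop) :
    Prop :=
  (∀ ω, A ω → d.z (ptr F J ω) = d.y w ω) ∧
    ∀ ω, A ω → ∀ j, ∀ l ∈ E, |d.ka (d.y w ω) j l| ≤ (2 : ℝ) ^ (c * J)

theorem vr_st {E : Finset (Fin m)} {w c : ℝ} (h0 : 0 ≤ w) (h1 : w < 1) (hc : 0 ≤ c) {σ : ℝ}
    (hσ : 0 ≤ σ) {d : ∀ (J : ℕ) (F : Fam m J), SR R F} {F : Fam m J} {A : F.Ω → Prop}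
    (h : VR E w c J F (d J F) A) : StR F (vzR w h0 h1 d) E (d J F).ka
      (⌈(c + σ) * J⌉₊ + (m + 1)) ⌊σ * J⌋₊ A := by
  have hJ0 : (0 : ℝ) ≤ J := Nat.cast_nonneg J
  refine ⟨fun ω hω j => ?_, fun ω ω' hω hω' e => ?_⟩
  · have h2 := h.2 ω hω j
    have e1 : (vzR w h0 h1 d).y J F ω = (d J F).y w ω := rfl
    rw [e1]
    have h3 : (1 : ℝ) ≤ (2 : ℝ) ^ (c * J) := Real.one_le_rpow (by norm_num) (mul_nonneg hc hJ0)
    have h4 : 1 + ∑ l ∈ E, |(d J F).ka ((d J F).y w ω) j l| ≤ 2 ^ m * (2 : ℝ) ^ (c * J) := by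
      have h5 : ∑ l ∈ E, |(d J F).ka ((d J F).y w ω) j l| ≤ m * (2 : ℝ) ^ (c * J) := by
        refine (Finset.sum_le_sum h2).trans ?_
        rw [Finset.sum_const, nsmul_eq_mul]
        refine mul_le_mul_of_nonneg_right ?_ (by positivity)
        exact_mod_cast (Finset.card_le_univ E).trans (le_of_eq (Fintype.card_fin m))
      have h6 : (m : ℝ) + 1 ≤ 2 ^ m := by
        exact_mod_cast Nat.lt_two_pow_self (n := m)
      have h7 : ((m : ℝ) + 1) * (2 : ℝ) ^ (c * J) ≤ 2 ^ m * (2 : ℝ) ^ (c * J) :=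
        mul_le_mul_of_nonneg_right h6 (by positivity)
      linarith
    have h5 : (2 : ℝ) ^ (⌊σ * (J : ℝ)⌋₊ + 1) *
        (1 + ∑ l ∈ E, |(d J F).ka ((d J F).y w ω) j l|) ≤
        2 ^ (⌊σ * (J : ℝ)⌋₊ + 1) * (2 ^ m * (2 : ℝ) ^ (c * J)) :=
      mul_le_mul_of_nonneg_left h4 (by positivity)
    refine h5.trans ?_
    have e2 : (2 : ℝ) ^ (⌊σ * (J : ℝ)⌋₊ + 1) * (2 ^ m * (2 : ℝ) ^ (c * J)) =
        (2 : ℝ) ^ (((⌊σ * (J : ℝ)⌋₊ + 1 + m : ℕ) : ℝ) + c * J) := by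
      rw [Real.rpow_add (by norm_num), Real.rpow_natCast]
      ring
    have e3 : (2 : ℝ) ^ (⌈(c + σ) * (J : ℝ)⌉₊ + (m + 1)) =
        (2 : ℝ) ^ (((⌈(c + σ) * (J : ℝ)⌉₊ + (m + 1) : ℕ) : ℝ)) := by rw [Real.rpow_natCast]
    rw [e2, e3]
    refine Real.rpow_le_rpow_of_exponent_le (by norm_num) ?_
    have h6 : (⌊σ * (J : ℝ)⌋₊ : ℝ) ≤ σ * J := Nat.floor_le (mul_nonneg hσ hJ0)
    have h7 := Nat.le_ceil ((c + σ) * (J : ℝ))
    push_cast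
    linarith
  · have e1 : (vzR w h0 h1 d).y J F ω = (d J F).y w ω := rfl
    have e2 : (vzR w h0 h1 d).y J F ω' = (d J F).y w ω' := rfl
    rw [e1, e2, ← h.1 ω hω, ← h.1 ω' hω', e]

/-- **Fullness of the straight images**, for the data of a class. -/
theorem ful_sub (hF : FZX (N + R)) {S : PCl m} (hS : S.Ne)
    (hpos : ∀ (τ : ℝ) (J : ℕ) (F : Fam m J) (A : F.Ω → Prop), S.St τ J F A → 0 < Pe F.p A)
    {C₀ : ℝ} (hC₀ : 0 ≤ C₀) (htm : TmC S C₀) {N₀ : ℚ → ℚ → ℝ} {al : ℝ} {g₀ : ℝ → ℝ} (hal : 0 < al)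
    (hg₀ : ∀ ε : ℝ, 0 < ε → 0 < g₀ ε) (hM : ActM N₀ al g₀) {φ : Fin N → Fin m}
    (hφ : Function.Injective φ) (i₀ : Fin N) (hB : ActB N₀ S (φ i₀)) {n : Fin R → Fin m}
    {E : Finset (Fin m)} {w x r η : ℝ} {s v₀ : Fin R → ℝ} (hw0 : 0 ≤ w) (hw1 : w < 1)
    (hs0 : ∀ j, 0 ≤ s j) (hx : 0 ≤ x) (hr : r ≤ 1 - x)
    (hη : 0 < η) (hη2 : η ≤ 1 / 2) {w₂ u : ℝ} (hw₂ : w < w₂) (hwu : w₂ ≤ u) (hu1 : u < 1)
    (hful : Ful S (univ.image φ) w₂ u) (huw : 8 * (u - w) ≤ η * (1 - w))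
    (hv₀ : ∀ j, w < v₀ j) (hv1 : ∀ j, v₀ j ≤ 1)
    (hno : ∀ j, s j + η ≤ 1 → ∀ K, Bas S (fun J F A =>
      ¬ LbR 0 F (lbs φ n E j) (n j) K ⌊v₀ j * J⌋₊ ⌊(s j + η) * J⌋₊ A))
    {d : ∀ (J : ℕ) (F : Fam m J), SR R F}
    (hd : ∀ (τ : ℝ) (J : ℕ) (F : Fam m J) (A : F.Ω → Prop), S.St τ J F A →
      VR E w (x + η) J F (d J F) A) :
    ∃ S₁ : PCl m, S₁.Ne ∧ (∀ (τ : ℝ) (J : ℕ) (F : Fam m J) (A : F.Ω → Prop),
      S₁.St τ J F A → S.St τ J F A) ∧ Bas S₁ (fun J F A =>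
        (∑ j, (r - s j) - (N + 5 * R + 2) * η) * Real.log 2 * J ≤
        CH (Pool.Agent.H49.Ent.cond F.p A True)
          (fun ω (j : Fin R) => ⌊(2 : ℝ) ^ ⌊r * J⌋₊ *
            imR n E ((d J F).ka ((d J F).y w ω)) (F.x ω) j⌋)
          (fun ω => (ceI (univ.image φ) (fun _ => J) (F.x ω), ((d J F).y w ω, F.W ω)))) := by
  classical
  obtain ⟨v, hv⟩ : ∃ v : Vz m, v = vzR w hw0 hw1 d := ⟨_, rfl⟩
  have hvb : v.b = w := by rw [hv]; rfl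
  obtain ⟨c, hc⟩ : ∃ c, c = x + η := ⟨_, rfl⟩
  have hc0 : 0 ≤ c := by rw [hc]; linarith
  obtain ⟨M, hMd⟩ : ∃ M : ℕ → ℕ, M = fun J : ℕ => ⌈(c + η) * (J : ℝ)⌉₊ + (m + 1) :=
    ⟨_, rfl⟩
  obtain ⟨q, hqd⟩ : ∃ q : ℕ → ℕ, q = fun J : ℕ => ⌊η * (J : ℝ)⌋₊ := ⟨_, rfl⟩
  subst hv
  have hst : Bas S (fun J F A => StR F (vzR w hw0 hw1 d) E (d J F).ka (M J) (q J) A) := by
    refine ⟨1, one_pos, 0, fun J _ F A hA => ?_⟩
    rw [hMd, hqd]
    refine vr_st hw0 hw1 hc0 hη.le ?_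
    rw [hc]
    exact hd 1 J F A hA
  have hw1' : 0 < 1 - w := by linarith
  obtain ⟨P, hP⟩ : ∃ P : Fin R → ℝ, P = fun j =>
    (s j + x + 4 * η - w) / (1 - w) + η / 2 / 8 := ⟨_, rfl⟩
  have hPe : ∀ j, (P j - η / 2 / 8) * (1 - w) = s j + x + 4 * η - w := fun j => by
    rw [hP]
    field_simp
    ring
  obtain ⟨S₁, hS₁, hsub, hb⟩ := core hF hS hpos hC₀ htm hal hg₀ hM hφ i₀ hB (n := n) (E := E)
    (ka := fun J F => (d J F).ka) (M := M) (q := q) hst (w₂ := w₂) (u := u) (v₀ := v₀)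
    (Q := fun j => s j + η) (m₀ := c + η) (C := m + 2) (σ := η) (δ := η / 2)
    (P := P) (ρ := η) hw₂ hwu hu1 hful (by rw [hvb]; linarith) (by linarith) (by linarith)
    (by linarith) (by linarith) (fun J => by
      rw [hqd]
      refine Nat.floor_le_floor (mul_le_mul_of_nonneg_left ?_ hη.le)
      exact_mod_cast Nat.sub_le _ _) hv₀ hv1 (fun J => by
      rw [hMd]
      have h1 := Nat.ceil_lt_add_one (mul_nonneg (show (0 : ℝ) ≤ c + η by linarith)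
        (Nat.cast_nonneg J))
      push_cast
      linarith) (fun j => by
      by_cases hj : s j + η ≤ 1
      · refine Or.inr ⟨by linarith [hs0 j], ?_, hno j hj⟩
        rw [hvb, hPe, hc]
        linarith
      · left
        push Not at hj
        have h1 := hPe j
        have h2 : 1 * (1 - w) ≤ (P j - η / 2 / 8) * (1 - w) := by
          rw [h1]
          linarith
        have h3 := le_of_mul_le_mul_right h2 hw1'
        linarith) hη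
  refine ⟨S₁, hS₁, hsub, ?_⟩
  have hpB : Bas S₁ (fun _ F A => 0 < Pe F.p A) :=
    ⟨1, one_pos, 0, fun J _ F A hA => hpos 1 J F A (hsub 1 J F A hA)⟩
  have hl2 : 0 < Real.log 2 := Real.log_pos one_lt_two
  have hl1 : Real.log 2 ≤ 1 := by
    have := Real.log_two_lt_d9
    linarith
  obtain ⟨a, ha⟩ : ∃ a : ℝ, a = ∑ j, (1 - P j) - N * (η / 2) - η := ⟨_, rfl⟩
  obtain ⟨Cn, hCn⟩ : ∃ Cn : ℝ, Cn = |a| + N * Real.log 11 + R * Real.log 7 := ⟨_, rfl⟩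
  obtain ⟨J₁, hJ₁⟩ := bgJ (a := η / 2 * Real.log 2) (by positivity) Cn
  refine ((hb.and (Bas.sub hsub hst)).and hpB).mono J₁ ?_
  rintro J hJ F A ⟨⟨⟨ε, h1⟩, h2⟩, hA⟩
  have g1 := hJ₁ J hJ
  have hJ0 : (0 : ℝ) ≤ J := Nat.cast_nonneg J
  have hR0 : (0 : ℝ) ≤ R := Nat.cast_nonneg R
  have hq := isLaw_cond F.isLaw hA
  obtain ⟨X, hX⟩ : ∃ X, X = CH (Pool.Agent.H49.Ent.cond F.p A True)
    (fun ω (j : Fin R) => ⌊(2 : ℝ) ^ ⌊r * (J : ℝ)⌋₊ *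
      imR n E ((d J F).ka ((d J F).y w ω)) (F.x ω) j⌋)
    (fun ω => (ceI (univ.image φ) (fun _ => J) (F.x ω), ((d J F).y w ω, F.W ω))) := ⟨_, rfl⟩
  have h3 : (N * (1 - η / 2) + ∑ j, (1 - P j) - η) * Real.log 2 *
      ((J - (vzR w hw0 hw1 d).B J : ℕ) : ℝ) ≤
      N * (((J - (vzR w hw0 hw1 d).B J : ℕ) : ℝ) * Real.log 2 + Real.log 11) +
      R * Real.log (2 * (2 ^ J / (2 ^ M J * 2 ^ ⌊r * (J : ℝ)⌋₊) + 1) + 1) + X := by
    rw [hX]
    have h4 := StR.ext (v := vzR w hw0 hw1 d) (φ := φ) (n := n) (E := E) (M := M) (q := q J)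
      (ka := fun J F => (d J F).ka) h2 hA (S := Unit) (fun _ => ()) h1 ⌊r * (J : ℝ)⌋₊
    have h5 : CH (Pool.Agent.H49.Ent.cond F.p A True)
        (fun ω (j : Fin R) => ⌊(2 : ℝ) ^ ⌊r * (J : ℝ)⌋₊ *
          imR n E ((d J F).ka ((vzR w hw0 hw1 d).y J F ω)) (F.x ω) j⌋)
        (fun ω => (ceI (univ.image φ) (fun _ => J) (F.x ω), ((vzR w hw0 hw1 d).y J F ω,
          F.W ω))) = CH (Pool.Agent.H49.Ent.cond F.p A True)
        (fun ω (j : Fin R) => ⌊(2 : ℝ) ^ ⌊r * (J : ℝ)⌋₊ *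
          imR n E ((d J F).ka ((d J F).y w ω)) (F.x ω) j⌋)
        (fun ω => (ceI (univ.image φ) (fun _ => J) (F.x ω), ((d J F).y w ω, F.W ω))) := rfl
    rw [← h5]
    exact h4
  rw [← hX]
  -- the rounding
  have k1 : R * Real.log (2 * (2 ^ J / (2 ^ M J * 2 ^ ⌊r * (J : ℝ)⌋₊) + 1) + 1) ≤
      R * ((1 - x - r) * J * Real.log 2 + Real.log 7) := by
    refine mul_le_mul_of_nonneg_left ?_ hR0
    have hR := Nat.lt_floor_add_one (r * (J : ℝ))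
    have hMJ : x * (J : ℝ) ≤ M J := by
      rw [hMd]
      have h4 := Nat.le_ceil ((c + η) * (J : ℝ))
      have h5 : x * (J : ℝ) ≤ (c + η) * J := mul_le_mul_of_nonneg_right (by linarith) hJ0
      have h6 : (0 : ℝ) ≤ m := Nat.cast_nonneg m
      push_cast
      linarith
    have h1' : (1 : ℝ) ≤ (2 : ℝ) ^ ((1 - x - r) * J) :=
      Real.one_le_rpow (by norm_num) (mul_nonneg (by linarith) hJ0)
    have h4 : (2 : ℝ) ^ J / (2 ^ M J * 2 ^ ⌊r * (J : ℝ)⌋₊) ≤ 2 * (2 : ℝ) ^ ((1 - x - r) * J) := by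
      have e3 : (2 : ℝ) ^ J / (2 ^ M J * 2 ^ ⌊r * (J : ℝ)⌋₊) =
          (2 : ℝ) ^ ((J : ℝ) - ((M J : ℝ) + (⌊r * (J : ℝ)⌋₊ : ℝ))) := by
        rw [Real.rpow_sub (by norm_num), Real.rpow_add (by norm_num), Real.rpow_natCast,
          Real.rpow_natCast, Real.rpow_natCast]
      have e4 : 2 * (2 : ℝ) ^ ((1 - x - r) * J) = (2 : ℝ) ^ (1 + (1 - x - r) * J) := by
        rw [Real.rpow_add (by norm_num), Real.rpow_one]
      rw [e3, e4]
      refine Real.rpow_le_rpow_of_exponent_le (by norm_num) ?_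
      have : (1 - x - r) * (J : ℝ) = J - x * J - r * J := by ring
      linarith
    have h5 : 2 * (2 ^ J / (2 ^ M J * 2 ^ ⌊r * (J : ℝ)⌋₊) + 1) + 1 ≤
        7 * (2 : ℝ) ^ ((1 - x - r) * J) := by linarith
    refine (Real.log_le_log (by positivity) h5).trans (le_of_eq ?_)
    rw [Real.log_mul (by norm_num) (by positivity), Real.log_rpow (by norm_num)]
    ring
  obtain ⟨J', hJ'⟩ : ∃ J' : ℝ, J' = ((J - (vzR w hw0 hw1 d).B J : ℕ) : ℝ) := ⟨_, rfl⟩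
  have hm := jmul (vzR w hw0 hw1 d) a J
  rw [hvb] at hm
  rw [← hJ'] at h3 hm
  obtain ⟨sP, hsP⟩ : ∃ sP, sP = ∑ j, (1 - P j) := ⟨_, rfl⟩
  obtain ⟨sS, hsS⟩ : ∃ sS, sS = ∑ j, s j := ⟨_, rfl⟩
  have hsr : ∑ j, (r - s j) = R * r - sS := by
    rw [Finset.sum_sub_distrib, Finset.sum_const, Finset.card_univ, Fintype.card_fin,
      nsmul_eq_mul, hsS]
  rw [← hsP] at h3 ha
  rw [hsr]
  have k2 : (N * (1 - η / 2) + sP - η) * Real.log 2 * J' - N * (J' * Real.log 2 +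
      Real.log 11) = a * J' * Real.log 2 - N * Real.log 11 := by
    rw [ha]
    ring
  have k3 : (a * (1 - w) * J - |a|) * Real.log 2 ≤ a * J' * Real.log 2 :=
    mul_le_mul_of_nonneg_right hm hl2.le
  have kp : sP * (1 - w) = R * (1 - x - 4 * η) - sS - R * (η / 16) * (1 - w) := by
    have e1 : ∀ j, (1 - P j) * (1 - w) = (1 - x - 4 * η) - s j - η / 16 * (1 - w) := by
      intro j
      have h4 := hPe j
      have e2 : (1 - P j) * (1 - w) = (1 - w) - (P j - η / 2 / 8) * (1 - w) -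
        η / 16 * (1 - w) := by ring
      rw [e2, h4]
      ring
    rw [hsP, Finset.sum_mul, Finset.sum_congr rfl fun j _ => e1 j, Finset.sum_sub_distrib,
      Finset.sum_sub_distrib, Finset.sum_const, Finset.sum_const, Finset.card_univ,
      Fintype.card_fin, nsmul_eq_mul, nsmul_eq_mul, hsS]
    ring
  have k4 : a * (1 - w) = R * (1 - x - 4 * η) - sS -
      (R * (η / 16) + N * (η / 2) + η) * (1 - w) := by
    have e5 : a * (1 - w) = sP * (1 - w) - (N * (η / 2) + η) * (1 - w) := by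
      rw [ha]
      ring
    rw [e5, kp]
    ring
  have k5 : (R * (η / 16) + N * (η / 2) + η) * (1 - w) ≤ R * (η / 16) + N * (η / 2) + η := by
    have : 0 ≤ R * (η / 16) + N * (η / 2) + η := by positivity
    calc (R * (η / 16) + N * (η / 2) + η) * (1 - w) ≤ (R * (η / 16) + N * (η / 2) + η) * 1 :=
          mul_le_mul_of_nonneg_left (by linarith) this
      _ = _ := mul_one _
  have hNη : 0 ≤ (N : ℝ) * η := by positivity
  have hRη : 0 ≤ (R : ℝ) * η := by positivity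
  have k6 : (R * (1 - x) - sS - (N + 5 * R + 2) * η + η / 2) * (J : ℝ) ≤ a * (1 - w) * J := by
    refine mul_le_mul_of_nonneg_right ?_ hJ0
    rw [k4]
    linarith
  have k7 := mul_le_mul_of_nonneg_right k6 hl2.le
  have k8 : |a| * Real.log 2 ≤ |a| := mul_le_of_le_one_right (abs_nonneg a) hl1
  have e6 : (R * (1 - x) - sS - (N + 5 * R + 2) * η + η / 2) * (J : ℝ) * Real.log 2 =
    (R * r - sS - (N + 5 * R + 2) * η) * Real.log 2 * J + R * ((1 - x - r) * J * Real.log 2) +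
      η / 2 * Real.log 2 * J := by ring
  have e7 : (a * (1 - w) * J - |a|) * Real.log 2 = a * (1 - w) * J * Real.log 2 -
    |a| * Real.log 2 := by ring
  have e8 : R * ((1 - x - r) * J * Real.log 2 + Real.log 7) =
    R * ((1 - x - r) * J * Real.log 2) + R * Real.log 7 := by ring
  linarith

/-- **Fullness of several straight images.** -/
theorem fulR (hF : FZX (N + R)) {S : PCl m} {C₀ : ℝ} (hC₀ : 0 ≤ C₀) (htm : TmC S C₀)
    {N₀ : ℚ → ℚ → ℝ} {al : ℝ} {g₀ : ℝ → ℝ} (hal : 0 < al)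
    (hg₀ : ∀ ε : ℝ, 0 < ε → 0 < g₀ ε) (hM : ActM N₀ al g₀) {φ : Fin N → Fin m}
    (hφ : Function.Injective φ) (i₀ : Fin N) (hB : ActB N₀ S (φ i₀)) {n : Fin R → Fin m}
    {E : Finset (Fin m)} {w : ℝ} {s : Fin R → ℝ} (hw0 : 0 ≤ w) (hw1 : w < 1)
    (hs0 : ∀ j, 0 ≤ s j)
    (hful : ∀ δ : ℝ, 0 < δ → ∃ w₂ u : ℝ, w < w₂ ∧ w₂ ≤ u ∧ u < w + δ ∧
      Ful S (univ.image φ) w₂ u)
    (hno : ∀ j, ∀ μ : ℝ, 0 < μ → s j + μ ≤ 1 → ∃ v₀ : ℝ, w < v₀ ∧ v₀ ≤ 1 ∧ ∀ K,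
      Bas S (fun J F A => ¬ LbR 0 F (lbs φ n E j) (n j) K ⌊v₀ * J⌋₊ ⌊(s j + μ) * J⌋₊ A))
    {x r : ℝ} (hx : 0 ≤ x) (hr : r ≤ 1 - x) {ρ : ℝ} (hρ : 0 < ρ) :
    ∃ e : ℝ, 0 < e ∧ Bas S (fun J F A => ∀ (V : Type) (z : PtT F → V) (z' : LnT F → V)
      (ka : V → Fin R → Fin m → ℝ), (∀ ω, A ω → z (ptr F J ω) = z' (slam F ⌊w * J⌋₊ ω)) →
      (∀ ω, A ω → ∀ j, ∀ l ∈ E,
        |ka (z' (slam F ⌊w * J⌋₊ ω)) j l| ≤ (2 : ℝ) ^ ((x + e) * J)) →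
      (∑ j, (r - s j) - ρ) * Real.log 2 * J ≤ CH (Pool.Agent.H49.Ent.cond F.p A True)
        (fun ω (j : Fin R) => ⌊(2 : ℝ) ^ ⌊r * J⌋₊ *
          imR n E (ka (z' (slam F ⌊w * J⌋₊ ω))) (F.x ω) j⌋)
        (fun ω => (ceI (univ.image φ) (fun _ => J) (F.x ω),
          (z' (slam F ⌊w * J⌋₊ ω), F.W ω)))) := by
  classical
  have hpos : ∀ (τ : ℝ) (J : ℕ) (F : Fam m J) (A : F.Ω → Prop), S.St τ J F A →
      0 < Pe F.p A := fun τ J F A h => (htm (max τ 1) J F A (lt_max_of_lt_right one_pos)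
        (S.mono (le_max_left _ _) h)).1
  have hl2 : 0 < Real.log 2 := Real.log_pos one_lt_two
  have hN0 : (0 : ℝ) ≤ N := Nat.cast_nonneg N
  have hR0 : (0 : ℝ) ≤ R := Nat.cast_nonneg R
  obtain ⟨η, hη⟩ : ∃ η, η = min (ρ / (8 * (N + 5 * R + 2))) (1 / 2) := ⟨_, rfl⟩
  have hη0 : 0 < η := by
    rw [hη]
    exact lt_min (by positivity) (by norm_num)
  have hη2 : η ≤ 1 / 2 := by rw [hη]; exact min_le_right _ _
  have hηρ : (N + 5 * R + 2) * η ≤ ρ / 8 := by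
    have h1 : η ≤ ρ / (8 * (N + 5 * R + 2)) := by rw [hη]; exact min_le_left _ _
    calc ((N : ℝ) + 5 * R + 2) * η ≤ (N + 5 * R + 2) * (ρ / (8 * (N + 5 * R + 2))) :=
          mul_le_mul_of_nonneg_left h1 (by positivity)
      _ = ρ / 8 := by field_simp
  refine ⟨η, hη0, ?_⟩
  have hex : ∀ j, ∃ v₀ : ℝ, w < v₀ ∧ v₀ ≤ 1 ∧ (s j + η ≤ 1 → ∀ K,
      Bas S (fun J F A => ¬ LbR 0 F (lbs φ n E j) (n j) K ⌊v₀ * J⌋₊ ⌊(s j + η) * J⌋₊ A)) := by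
    intro j
    by_cases hj : s j + η ≤ 1
    · obtain ⟨v₀, h1, h2, h3⟩ := hno j η hη0 hj
      exact ⟨v₀, h1, h2, fun _ => h3⟩
    · exact ⟨1, hw1, le_rfl, fun h => absurd h hj⟩
  choose v₀ hv₀ hv1 hno' using hex
  have hw1' : 0 < 1 - w := by linarith
  obtain ⟨w₂, u, hw₂, hwu, hu, hfl⟩ := hful (min (η * (1 - w) / 8) (1 - w))
    (lt_min (by positivity) hw1')
  have hu1 : u < 1 := by
    have := min_le_right (η * (1 - w) / 8) (1 - w)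
    linarith
  have hu2 : 8 * (u - w) ≤ η * (1 - w) := by
    have := min_le_left (η * (1 - w) / 8) (1 - w)
    linarith
  have key := bas_low (S := S) hpos (Δ := fun _ F => SR R F)
    (fun J F d A => VR E w (x + η) J F d A)
    (fun J F d A B h hB => ⟨fun ω hω => h.1 ω (hB ω hω), fun ω hω => h.2 ω (hB ω hω)⟩)
    (fun J F d ω (j : Fin R) => ⌊(2 : ℝ) ^ ⌊r * (J : ℝ)⌋₊ *
      imR n E (d.ka (d.y w ω)) (F.x ω) j⌋)
    (fun J F d ω => (ceI (univ.image φ) (fun _ => J) (F.x ω), (d.y w ω, F.W ω)))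
    (fun J _ _ => (∑ j, (r - s j) - ρ / 2) * Real.log 2 * J)
    (C := (∑ j, (r - s j) - ρ / 2) * Real.log 2)
    (δ := ρ / 2 * Real.log 2) (fun _ _ _ => le_rfl) (by positivity) (by
      intro S' hS' hsub d hd
      obtain ⟨S₁, h1, h2, h3⟩ := ful_sub hF hS'
        (fun τ J F A h => hpos τ J F A (hsub τ J F A h)) hC₀
        (fun τ J F A h1 h2 => htm τ J F A h1 (hsub τ J F A h2)) hal hg₀ hM hφ i₀
        (fun a b h1 h2 h3 h h4 => Bas.sub hsub (hB a b h1 h2 h3 h h4)) (n := n) (E := E)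
        (s := s) (v₀ := v₀) hw0 hw1 hs0 hx hr hη0 hη2 hw₂ hwu hu1
        (fun ρ hρ => Bas.sub hsub (hfl ρ hρ)) hu2 hv₀ hv1
        (fun j hj K => Bas.sub hsub (hno' j hj K)) hd
      refine ⟨S₁, h1, h2, h3.mono 0 fun J _ F A h4 => le_trans ?_ h4⟩
      have e1 : (∑ j, (r - s j) - ρ / 2) * Real.log 2 * J - ρ / 2 * Real.log 2 / 4 * J =
        (∑ j, (r - s j) - ρ / 2 - ρ / 8) * Real.log 2 * J := by ring
      show (∑ j, (r - s j) - ρ / 2) * Real.log 2 * J - ρ / 2 * Real.log 2 / 4 * J ≤ _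
      rw [e1]
      exact mul_le_mul_of_nonneg_right (mul_le_mul_of_nonneg_right (by linarith) hl2.le)
        (Nat.cast_nonneg J))
  have hpB : Bas S (fun _ F A => 0 < Pe F.p A) :=
    ⟨1, one_pos, 0, fun J _ F A hA => hpos 1 J F A hA⟩
  refine (key.and hpB).mono 0 ?_
  rintro J - F A ⟨h1, hA⟩ V z z' ka hz hka
  have hq := isLaw_cond F.isLaw hA
  -- the datum
  obtain ⟨rep, hrep⟩ : ∃ rep : V → Option F.Ω, rep = fun y =>
    if h : ∃ ω, z' (slam F ⌊w * (J : ℝ)⌋₊ ω) = y then some h.choose else none := ⟨_, rfl⟩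
  obtain ⟨kb, hkb⟩ : ∃ kb : Option F.Ω → Fin R → Fin m → ℝ, kb = fun o => match o with
    | none => 0
    | some ω => ka (z' (slam F ⌊w * (J : ℝ)⌋₊ ω)) := ⟨_, rfl⟩
  have hr1 : ∀ ω : F.Ω, ∃ ω' : F.Ω, rep (z' (slam F ⌊w * (J : ℝ)⌋₊ ω)) = some ω' ∧
      z' (slam F ⌊w * (J : ℝ)⌋₊ ω') = z' (slam F ⌊w * (J : ℝ)⌋₊ ω) := by
    intro ω
    have hex : ∃ ω', z' (slam F ⌊w * (J : ℝ)⌋₊ ω') = z' (slam F ⌊w * (J : ℝ)⌋₊ ω) := ⟨ω, rfl⟩
    refine ⟨hex.choose, ?_, hex.choose_spec⟩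
    rw [hrep]
    exact dif_pos hex
  have hk1 : ∀ ω : F.Ω, kb (rep (z' (slam F ⌊w * (J : ℝ)⌋₊ ω))) =
      ka (z' (slam F ⌊w * (J : ℝ)⌋₊ ω)) := by
    intro ω
    obtain ⟨ω', h2, h3⟩ := hr1 ω
    rw [h2, hkb]
    show ka (z' (slam F ⌊w * (J : ℝ)⌋₊ ω')) = _
    rw [h3]
  obtain ⟨d, hd⟩ : ∃ d : SR R F, d = ⟨fun y => rep (z y), fun y => rep (z' y), kb⟩ := ⟨_, rfl⟩
  have hdy : ∀ ω, d.y w ω = rep (z' (slam F ⌊w * (J : ℝ)⌋₊ ω)) := fun ω => by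
    rw [hd]
    rfl
  have hdk : ∀ ω, d.ka (d.y w ω) = ka (z' (slam F ⌊w * (J : ℝ)⌋₊ ω)) := fun ω => by
    rw [hdy, ← hk1 ω, hd]
  have h2 := h1 d ⟨fun ω hω => by
    rw [hdy, ← hz ω hω, hd], fun ω hω => by
    rw [hdk]
    exact hka ω hω⟩
  have h3 : CH (Pool.Agent.H49.Ent.cond F.p A True)
      (fun ω (j : Fin R) => ⌊(2 : ℝ) ^ ⌊r * (J : ℝ)⌋₊ *
        imR n E (d.ka (d.y w ω)) (F.x ω) j⌋)
      (fun ω => (ceI (univ.image φ) (fun _ => J) (F.x ω), (d.y w ω, F.W ω))) ≤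
      CH (Pool.Agent.H49.Ent.cond F.p A True)
      (fun ω (j : Fin R) => ⌊(2 : ℝ) ^ ⌊r * (J : ℝ)⌋₊ *
        imR n E (ka (z' (slam F ⌊w * (J : ℝ)⌋₊ ω))) (F.x ω) j⌋)
      (fun ω => (ceI (univ.image φ) (fun _ => J) (F.x ω),
        (z' (slam F ⌊w * (J : ℝ)⌋₊ ω), F.W ω))) := by
    simp only [hdk]
    refine CH_mono_cond hq.nonneg fun ω ω' _ _ e => ?_
    have e1 := Prod.ext_iff.1 e
    have e2 := Prod.ext_iff.1 e1.2
    refine Prod.ext e1.1 (Prod.ext ?_ e2.2)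
    have e3 : d.y w ω = d.y w ω' := e2.1
    rw [hdy, hdy] at e3
    obtain ⟨ω₁, f1, f2⟩ := hr1 ω
    obtain ⟨ω₂, f3, f4⟩ := hr1 ω'
    rw [f1, f3] at e3
    have e4 := Option.some.inj e3
    show z' (slam F ⌊w * (J : ℝ)⌋₊ ω) = z' (slam F ⌊w * (J : ℝ)⌋₊ ω')
    rw [← f2, ← f4, e4]
  refine le_trans ?_ h3
  have e1 : (∑ j, (r - s j) - ρ) * Real.log 2 * J = (∑ j, (r - s j) - ρ / 2) * Real.log 2 * J -
    ρ / 2 * Real.log 2 * J := by ring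
  rw [e1]
  exact h2

end Pool.FUL17
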