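import Pool.Agent.H17.FUL.Stg
import Pool.Agent.H33.FUL.Lbl

/-!
# Labels of several straight images

`StR.lbr`: a closed label of an image over coordinates of the base and other images is a closed
label of its target over the base, the coordinates of the slopes and the other targets.
-/

set_option autoImplicit false

namespace Pool.FUL17

open Finset Real MvPolynomial
open Pool.Agent.H49.Ent Pool.Agent.H32.Dense Pool.STK Pool.KA Pool.KSAT Pool.K2S Pool.PB Pool.S6C
open Pool.GEN Pool.REX Pool.REX83 Pool.NFT33 Pool.TOP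
open Pool.GRD (LbP)
open Pool.FUL33 (win_le2 win_fl wy win_sub floor_49 st_fac)

variable {m N R J : ℕ}

section sgs

/-- The coordinates of the straight images, as polynomials. -/
noncomputable def sgR (B : ℕ) (φ : Fin N → Fin m) (n : Fin R → Fin m) (E : Finset (Fin m))
    (al : ℝ) (be : Fin R → Fin m → ℝ) (t₀ : ℝ) (x₀ : Fin m → ℝ) :
    Option (Fin (N + R)) → MvPolynomial (Option (Fin m)) ℝ
  | none => C (2 ^ B) * X none - C t₀
  | some i => Fin.addCases (motive := fun _ => MvPolynomial (Option (Fin m)) ℝ)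
      (fun i => C (2 ^ B) * X (some (φ i)) - C (x₀ (φ i)))
      (fun j => C al * (C (2 ^ B) * X (some (n j)) - C (x₀ (n j))) -
        ∑ l ∈ E, C (be j l) * (C (2 ^ B) * X (some l) - C (x₀ l))) i

variable {B : ℕ} {φ : Fin N → Fin m} {n : Fin R → Fin m} {E : Finset (Fin m)} {al : ℝ}
  {be : Fin R → Fin m → ℝ} {t₀ : ℝ} {x₀ : Fin m → ℝ} (b : Option (Fin m) → ℝ)

theorem sgR_none : eval b (sgR B φ n E al be t₀ x₀ none) = 2 ^ B * b none - t₀ := by
  unfold sgR
  rw [map_sub, map_mul, eval_C, eval_C, eval_X]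

theorem sgR_base' (i : Fin N) : sgR B φ n E al be t₀ x₀ (some (Fin.castAdd R i)) =
    C (2 ^ B) * X (some (φ i)) - C (x₀ (φ i)) := by
  unfold sgR
  exact Fin.addCases_left (motive := fun _ => MvPolynomial (Option (Fin m)) ℝ) i

theorem sgR_im' (j : Fin R) : sgR B φ n E al be t₀ x₀ (some (Fin.natAdd N j)) =
    C al * (C (2 ^ B) * X (some (n j)) - C (x₀ (n j))) -
        ∑ l ∈ E, C (be j l) * (C (2 ^ B) * X (some l) - C (x₀ l)) := by
  unfold sgR
  exact Fin.addCases_right (motive := fun _ => MvPolynomial (Option (Fin m)) ℝ) j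

theorem sgR_some (i : Fin (N + R)) : eval b (sgR B φ n E al be t₀ x₀ (some i)) =
    linR φ n E al be (fun l => 2 ^ B * b (some l) - x₀ l) i := by
  refine Fin.addCases (fun i => ?_) (fun j => ?_) i
  · rw [sgR_base', linR_base, map_sub, map_mul, eval_C, eval_C, eval_X]
  · rw [sgR_im', linR_im, map_sub, map_mul, map_sub, map_mul, eval_C, eval_C, eval_X, eval_C,
      map_sum]
    congr 1
    refine Finset.sum_congr rfl fun l _ => ?_
    rw [map_mul, map_sub, map_mul, eval_C, eval_C, eval_X, eval_C]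

theorem deg_sgR (o : Option (Fin (N + R))) :
    (sgR B φ n E al be t₀ x₀ o).totalDegree ≤ 1 := by
  rcases o with _ | i
  · exact deg_lin B none t₀
  · refine Fin.addCases (fun i => ?_) (fun j => ?_) i
    · rw [sgR_base']
      exact deg_lin B (some (φ i)) _
    · rw [sgR_im']
      refine (totalDegree_sub _ _).trans (max_le ?_ ?_)
      · refine (totalDegree_mul _ _).trans ?_
        rw [totalDegree_C, zero_add]
        exact deg_lin B (some (n j)) _
      · refine totalDegree_finsetSum_le fun l _ => ?_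
        refine (totalDegree_mul _ _).trans ?_
        rw [totalDegree_C, zero_add]
        exact deg_lin B (some l) _

end sgs

/-- The coordinates of the labels of the target `n j`. -/
def lbs (φ : Fin N → Fin m) (n : Fin R → Fin m) (E : Finset (Fin m)) (j : Fin R) :
    Finset (Fin m) := E ∪ (univ.image φ ∪ (univ.erase j).image n)

theorem mem_E {φ : Fin N → Fin m} {n : Fin R → Fin m} {E : Finset (Fin m)} {j : Fin R}
    {l : Fin m} (h : l ∈ E) : l ∈ lbs φ n E j := mem_union_left _ h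

theorem mem_φ {φ : Fin N → Fin m} {n : Fin R → Fin m} {E : Finset (Fin m)} {j : Fin R}
    (i : Fin N) : φ i ∈ lbs φ n E j :=
  mem_union_right _ (mem_union_left _ (mem_image_of_mem _ (mem_univ _)))

theorem mem_n {φ : Fin N → Fin m} {n : Fin R → Fin m} {E : Finset (Fin m)} {j j' : Fin R}
    (h : j' ≠ j) : n j' ∈ lbs φ n E j :=
  mem_union_right _ (mem_union_right _ (mem_image_of_mem _ (mem_erase.2 ⟨h, mem_univ _⟩)))

section lb

variable {F : Fam m J} {v : Vz m} {φ : Fin N → Fin m} {n : Fin R → Fin m} {E : Finset (Fin m)}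
  {M : ℕ → ℕ} {ka : ∀ (J : ℕ) (F : Fam m J), v.κ J F → Fin R → Fin m → ℝ} {q : ℕ}
  {A : F.Ω → Prop}

/-- **A label of an image is a label of its target in the family.** -/
theorem StR.lbr (h : StR F v E (ka J F) (M J) q A) {B : F.Ω → Prop} (hB : Sub B A)
    (hdet : ∀ ω ω', B ω → B ω' → ptr F J ω = ptr F J ω' →
      ptr (winI v (nwR v φ n E M ka) F) (J - v.B J) ω =
        ptr (winI v (nwR v φ n E M ka) F) (J - v.B J) ω') (j : Fin R)
    {I' : Finset (Fin (N + R))} (hI' : Fin.natAdd N j ∉ I') {K' w' W P' P₂ : ℕ}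
    (hW : v.B J + w' ≤ W) (hWJ : W ≤ J)
    (hnum : (2 : ℝ) ^ P₂ * 2 ^ M J ≤ 2 ^ (v.B J + P')) {V : Type}
    {z : PtT (winI v (nwR v φ n E M ka) F) → V} {z' : LnT (winI v (nwR v φ n E M ka) F) → V}
    {G : V → MvPolynomial (Option (Fin (N + R))) ℝ}
    (hL : LbP (winI v (nwR v φ n E M ka) F) I' (Fin.natAdd N j) K' (J - v.B J) w' P' A z z' G) :
    LbR 0 F (lbs φ n E j) (n j) (K' + 1) W P₂ B := by
  classical
  obtain ⟨yp, yl, hy⟩ := st_fac hdet hW hWJ (fun ω hω => hL.cls ω (hB ω hω))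
  obtain ⟨σ, hσ⟩ : ∃ σ : (v.win F).ζ → Option (Fin (N + R)) → MvPolynomial (Option (Fin m)) ℝ,
    σ = fun y => sgR (v.B J) φ n E (1 / 2 ^ M J) (fun j l => ka J F y.1 j l / 2 ^ M J)
      (y.2.1.1 : ℝ) (fun i => (y.2.1.2 i : ℝ)) := ⟨_, rfl⟩
  obtain ⟨Gf, hGf⟩ : ∃ Gf : Option (V × (v.win F).ζ) → MvPolynomial (Option (Fin m)) ℝ,
    Gf = fun o => match o with
    | none => 0
    | some u => ∑ l ∈ E, C (ka J F u.2.1 j l) * X (some l) +
      (C (((u.2.2.1.2 (n j) : ℝ) - ∑ l ∈ E, ka J F u.2.1 j l * u.2.2.1.2 l) / 2 ^ v.B J) +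
      C (2 ^ M J / 2 ^ v.B J) * aeval (σ u.2) (G u.1)) := ⟨_, rfl⟩
  have hev : ∀ (u : V × (v.win F).ζ) (b : Option (Fin m) → ℝ), eval b (Gf (some u)) =
      ∑ l ∈ E, ka J F u.2.1 j l * b (some l) +
        (((u.2.2.1.2 (n j) : ℝ) - ∑ l ∈ E, ka J F u.2.1 j l * u.2.2.1.2 l) / 2 ^ v.B J +
        2 ^ M J / 2 ^ v.B J * eval (fun o => eval b (σ u.2 o)) (G u.1)) := by
    intro u b
    rw [hGf]
    show eval b (∑ l ∈ E, C (ka J F u.2.1 j l) * X (some l) +
      (C (((u.2.2.1.2 (n j) : ℝ) - ∑ l ∈ E, ka J F u.2.1 j l * u.2.2.1.2 l) / 2 ^ v.B J) +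
      C (2 ^ M J / 2 ^ v.B J) * aeval (σ u.2) (G u.1))) = _
    rw [map_add, map_add, map_mul, map_sum, eval_C, eval_C, eval_aevalσ]
    congr 1
    refine Finset.sum_congr rfl fun l _ => ?_
    rw [map_mul, eval_C, eval_X]
  refine ⟨Option (V × (v.win F).ζ), yp, yl, Gf, ⟨fun o => ?_, fun o b b' hn hb => ?_,
    fun ω hω => ?_, fun ω hω b hb => ?_⟩⟩
  · rcases o with _ | u
    · rw [hGf]
      show (0 : MvPolynomial (Option (Fin m)) ℝ).totalDegree ≤ _
      rw [totalDegree_zero]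
      exact Nat.zero_le _
    · rw [hGf]
      show (∑ l ∈ E, C (ka J F u.2.1 j l) * X (some l) +
        (C (((u.2.2.1.2 (n j) : ℝ) - ∑ l ∈ E, ka J F u.2.1 j l * u.2.2.1.2 l) / 2 ^ v.B J) +
        C (2 ^ M J / 2 ^ v.B J) * aeval (σ u.2) (G u.1))).totalDegree ≤ _
      refine (totalDegree_add _ _).trans (max_le ?_ ((totalDegree_add _ _).trans
        (max_le ?_ ?_)))
      · refine totalDegree_finsetSum_le fun l _ => ?_
        refine (totalDegree_mul _ _).trans ?_
        rw [totalDegree_C, totalDegree_X]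
        omega
      · rw [totalDegree_C]
        exact Nat.zero_le _
      · refine (totalDegree_mul _ _).trans ?_
        rw [totalDegree_C, zero_add]
        have e1 : (aeval (σ u.2) (G u.1)).totalDegree ≤ 1 * K' := by
          refine totalDegree_aevalσ (fun o => ?_) (hL.deg _)
          rw [hσ]
          exact deg_sgR o
        omega
  · rcases o with _ | u
    · rw [hGf]
      show eval b (0 : MvPolynomial (Option (Fin m)) ℝ) = eval b' 0
      rw [map_zero, map_zero]
    · rw [hev, hev]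
      have e0 : ∑ l ∈ E, ka J F u.2.1 j l * b (some l) =
          ∑ l ∈ E, ka J F u.2.1 j l * b' (some l) :=
        Finset.sum_congr rfl fun l hl => by rw [hb l (mem_E hl)]
      have e1 : eval (fun o => eval b (σ u.2 o)) (G u.1) =
          eval (fun o => eval b' (σ u.2 o)) (G u.1) := by
        refine hL.dep _ _ _ ?_ fun i hi => ?_
        · rw [hσ]
          show eval b (sgR _ _ _ _ _ _ _ _ none) = eval b' (sgR _ _ _ _ _ _ _ _ none)
          rw [sgR_none, sgR_none, hn]
        · rw [hσ]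
          show eval b (sgR _ _ _ _ _ _ _ _ (some i)) = eval b' (sgR _ _ _ _ _ _ _ _ (some i))
          rw [sgR_some, sgR_some]
          revert hi
          refine Fin.addCases (fun i hi => ?_) (fun j' hi => ?_) i
          · rw [linR_base, linR_base, hb (φ i) (mem_φ i)]
          · have hj : j' ≠ j := fun hc => hI' (hc ▸ hi)
            rw [linR_im, linR_im, hb (n j') (mem_n hj)]
            congr 1
            exact Finset.sum_congr rfl fun l hl => by rw [hb l (mem_E hl)]
      rw [e0, e1]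
  · rw [(hy ω hω).1, (hy ω hω).2]
  · have hA := hB ω hω
    have hbb : b = bt F ω := by
      funext o
      have h1 := hb o
      rw [zero_div] at h1
      have h2 := abs_nonpos_iff.1 h1
      linarith
    rw [hbb, (hy ω hω).2, hev]
    show |F.x ω (n j) - (∑ l ∈ E, ka J F (v.y J F ω) j l * F.x ω l +
      (((fl (v.B J) (F.x1 (v.B J) ω) (n j) : ℝ) - ∑ l ∈ E, ka J F (v.y J F ω) j l *
        (fl (v.B J) (F.x1 (v.B J) ω) l : ℝ)) / 2 ^ v.B J + 2 ^ M J / 2 ^ v.B J *
        eval (fun o => eval (bt F ω) (σ ((v.win F).Z ω) o))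
          (G (z' (slam (winI v (nwR v φ n E M ka) F) w' ω)))))| ≤ 1 / 2 ^ P₂
    -- the coordinates
    have e1 : eval (fun o => eval (bt F ω) (σ ((v.win F).Z ω) o))
        (G (z' (slam (winI v (nwR v φ n E M ka) F) w' ω))) =
        eval (bt (winI v (nwR v φ n E M ka) F) ω)
          (G (z' (slam (winI v (nwR v φ n E M ka) F) w' ω))) := by
      congr 1
      congr 1
      funext o
      rcases o with _ | i
      · rw [hσ]
        show eval (bt F ω) (sgR _ _ _ _ _ _ _ _ none) = (v.win F).t ω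
        rw [sgR_none, win_tt]
        rfl
      · rw [hσ]
        show eval (bt F ω) (sgR _ _ _ _ _ _ _ _ (some i)) =
          (winI v (nwR v φ n E M ka) F).x ω i
        rw [sgR_some, h.x hA]
        congr 1
        funext l
        rw [win_x]
        rfl
    rw [e1]
    have h1 := hL.pos ω hA
    rw [h.xl hA] at h1
    obtain ⟨g, hg⟩ : ∃ g, g = eval (bt (winI v (nwR v φ n E M ka) F) ω)
      (G (z' (slam (winI v (nwR v φ n E M ka) F) w' ω))) := ⟨_, rfl⟩
    rw [← hg] at h1 ⊢
    obtain ⟨κ, hκ⟩ : ∃ κ, κ = ka J F (v.y J F ω) j := ⟨_, rfl⟩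
    rw [← hκ] at h1 ⊢
    obtain ⟨c, hc⟩ : ∃ c : Fin m → ℝ, c = fun k => (fl (v.B J) (F.x1 (v.B J) ω) k : ℝ) :=
      ⟨_, rfl⟩
    have hck : ∀ k, (fl (v.B J) (F.x1 (v.B J) ω) k : ℝ) = c k := fun k => by rw [hc]
    simp only [hck]
    have hwx : ∀ k, (v.win F).x ω k = 2 ^ v.B J * F.x ω k - c k := fun k => by
      rw [win_x, hck]
    simp only [hwx] at h1
    have pM : (0 : ℝ) < 2 ^ M J := by positivity
    have pB : (0 : ℝ) < 2 ^ v.B J := by positivity
    have e2 : F.x ω (n j) - (∑ l ∈ E, κ l * F.x ω l + ((c (n j) - ∑ l ∈ E, κ l * c l) /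
        2 ^ v.B J + 2 ^ M J / 2 ^ v.B J * g)) =
        2 ^ M J / 2 ^ v.B J * (1 / 2 ^ M J * (2 ^ v.B J * F.x ω (n j) - c (n j)) -
          ∑ l ∈ E, κ l / 2 ^ M J * (2 ^ v.B J * F.x ω l - c l) - g) := by
      have e4 : ∑ l ∈ E, κ l / 2 ^ M J * (2 ^ v.B J * F.x ω l - c l) =
          (2 ^ v.B J * ∑ l ∈ E, κ l * F.x ω l - ∑ l ∈ E, κ l * c l) / 2 ^ M J := by
        rw [Finset.mul_sum, ← Finset.sum_sub_distrib, Finset.sum_div]
        exact Finset.sum_congr rfl fun l _ => by ring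
      rw [e4]
      field_simp
      ring
    rw [e2, abs_mul, abs_of_pos (by positivity : (0 : ℝ) < 2 ^ M J / 2 ^ v.B J)]
    refine (mul_le_mul_of_nonneg_left h1 (by positivity)).trans ?_
    have e3 : (2 : ℝ) ^ M J / 2 ^ v.B J * (1 / 2 ^ P') = 2 ^ M J / (2 ^ (v.B J + P')) := by
      rw [pow_add]
      field_simp
    rw [e3, div_le_div_iff₀ (by positivity) (by positivity), one_mul, mul_comm]
    exact hnum

end lb

end Pool.FUL17
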