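import Pool.Agent.H17.FUL.Cla
import Pool.Agent.H33.FUL.Ord

/-!
# The greedy order and the activity of several straight images

`order`: if the numbers of the coordinates of the base are smaller than the numbers of the images,
then the images are the last ones of the greedy order. `act_st`: the activity of the straight images.
-/

set_option autoImplicit false

namespace Pool.FUL17

open Finset Real MvPolynomial
open Pool.Agent.H49.Ent Pool.Agent.H32.Dense Pool.STK Pool.KA Pool.KSAT Pool.K2S Pool.PB Pool.S6C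
open Pool.GEN Pool.REX Pool.REX83 Pool.NFT33
open Pool.FUL33 (bgJ wB wJ jw jmul pull bas_abs)

variable {m N R J : ℕ}

/-- **The images are the last ones of the greedy order.** -/
theorem order {L : Finset (Fin (N + R)) → Fin (N + R) → ℝ → ℝ → ℝ}
    {ε : Fin (N + R) → Fin (N + R)} (hε : Function.Bijective ε)
    {w' δ σ : ℝ} {P : Fin R → ℝ} (hg : Vgr L ε w') (hwδ : w' ≤ δ) (hδσ : δ < σ)
    (h1 : ∀ (I : Finset (Fin (N + R))) (i : Fin N) (r : ℝ), (∀ j : Fin R, Fin.natAdd N j ∉ I) →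
      Fin.castAdd R i ∉ I → r ≤ δ → L I (Fin.castAdd R i) w' r ≤ δ)
    (h2 : ∀ (I : Finset (Fin (N + R))) (j : Fin R) (r : ℝ), σ ≤ L I (Fin.natAdd N j) w' r)
    (h3 : ∀ (I : Finset (Fin (N + R))) (j : Fin R) (r : ℝ), Fin.natAdd N j ∉ I →
      L I (Fin.natAdd N j) w' r ≤ P j) :
    N * (1 - δ) + ∑ j, (1 - P j) ≤ ∑ j : Fin (N + R), (1 - vs L ε w' (j + 1)) := by
  classical
  have hnb : ∀ (i : Fin N) (j : Fin R), Fin.castAdd R i ≠ Fin.natAdd N j := by
    intro i j hc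
    have h4 := congrArg Fin.val hc
    rw [Fin.val_castAdd, Fin.val_natAdd] at h4
    have := i.2
    omega
  -- the coordinates of the base
  obtain ⟨Bs, hBs⟩ : ∃ Bs : Finset (Fin (N + R)), Bs = univ.image (Fin.castAdd R) := ⟨_, rfl⟩
  have hBc : Bs.card = N := by
    rw [hBs, Finset.card_image_of_injective _ (Fin.castAdd_injective N R), Finset.card_univ,
      Fintype.card_fin]
  have hBm : ∀ {p : Fin (N + R)}, p ∈ Bs → ∃ i : Fin N, p = Fin.castAdd R i := by
    intro p hp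
    rw [hBs] at hp
    obtain ⟨i, -, hi⟩ := mem_image.1 hp
    exact ⟨i, hi.symm⟩
  have hBi : ∀ i : Fin N, Fin.castAdd R i ∈ Bs := fun i => by
    rw [hBs]
    exact mem_image_of_mem _ (mem_univ _)
  have key : ∀ j : ℕ, j ≤ N → vs L ε w' j ≤ δ ∧ ∀ i : Fin (N + R), (i : ℕ) < j → ε i ∈ Bs := by
    intro j
    induction j with
    | zero => exact fun _ => ⟨hwδ, fun i hi => absurd hi (Nat.not_lt_zero _)⟩
    | succ j ih =>
      intro hj
      obtain ⟨k1, k2⟩ := ih (by omega)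
      obtain ⟨jj, hjj⟩ : ∃ jj : Fin (N + R), (jj : ℕ) = j := ⟨⟨j, by omega⟩, rfl⟩
      have hsub : ∀ p ∈ (Finset.Iio jj).image ε, p ∈ Bs := by
        intro p hp
        obtain ⟨i, hi, rfl⟩ := mem_image.1 hp
        have hi1 : i < jj := mem_Iio.1 hi
        have hi2 : (i : ℕ) < (jj : ℕ) := hi1
        exact k2 i (by omega)
      have hlast : ∀ j' : Fin R, Fin.natAdd N j' ∉ (Finset.Iio jj).image ε := by
        intro j' hc
        obtain ⟨i, hi⟩ := hBm (hsub _ hc)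
        exact hnb i j' hi.symm
      have hcard : ((Finset.Iio jj).image ε).card = j := by
        rw [Finset.card_image_of_injective _ hε.1, Fin.card_Iio, hjj]
      obtain ⟨b, hb, hbn⟩ : ∃ b ∈ Bs, b ∉ (Finset.Iio jj).image ε := by
        refine Finset.exists_mem_notMem_of_card_lt_card ?_
        rw [hcard, hBc]
        omega
      obtain ⟨i, rfl⟩ := hBm hb
      obtain ⟨k, hk⟩ := hε.2 (Fin.castAdd R i)
      have hjk : jj ≤ k := by
        by_contra hc
        exact hbn (hk ▸ mem_image_of_mem _ (mem_Iio.2 (not_le.1 hc)))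
      have h4 : vs L ε w' (jj + 1) ≤ δ := by
        refine (hg jj k hjk).trans ?_
        unfold vn
        rw [hk]
        refine h1 _ i _ hlast hbn ?_
        rw [hjj]
        exact k1
      refine ⟨by rw [hjj] at h4; exact h4, fun l hl => ?_⟩
      rcases Nat.lt_succ_iff_lt_or_eq.1 hl with hl | hl
      · exact k2 l hl
      · have hlj : l = jj := Fin.ext (by omega)
        rw [hlj]
        obtain ⟨a, ha⟩ : ∃ a, a = ε jj := ⟨_, rfl⟩
        rw [← ha]
        revert ha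
        refine Fin.addCases (fun i _ => hBi i) (fun j' ha => ?_) a
        have h5 := vs_succ L ε w' jj
        unfold vn at h5
        rw [← ha] at h5
        have h6 := h2 ((Finset.Iio jj).image ε) j' (vs L ε w' jj)
        linarith
  obtain ⟨g, hgd⟩ : ∃ g : Fin (N + R) → ℝ, g = fun p =>
    Fin.addCases (motive := fun _ => ℝ) (fun _ => 1 - δ) (fun j => 1 - P j) p := ⟨_, rfl⟩
  have hg1 : ∀ i : Fin N, g (Fin.castAdd R i) = 1 - δ := fun i => by
    rw [hgd]
    exact Fin.addCases_left (motive := fun _ => ℝ) i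
  have hg2 : ∀ j : Fin R, g (Fin.natAdd N j) = 1 - P j := fun j => by
    rw [hgd]
    exact Fin.addCases_right (motive := fun _ => ℝ) j
  have hsum : ∑ p, g (ε p) = N * (1 - δ) + ∑ j, (1 - P j) := by
    rw [Function.Bijective.sum_comp hε g, Fin.sum_univ_add]
    congr 1
    · rw [Finset.sum_congr rfl fun i _ => hg1 i, Finset.sum_const, Finset.card_univ,
        Fintype.card_fin, nsmul_eq_mul]
    · exact Finset.sum_congr rfl fun j _ => hg2 j
  rw [← hsum]
  refine Finset.sum_le_sum fun p _ => ?_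
  obtain ⟨a, ha⟩ : ∃ a, a = ε p := ⟨_, rfl⟩
  rw [← ha]
  revert ha
  refine Fin.addCases (fun i ha => ?_) (fun j ha => ?_) a
  · rw [hg1]
    by_cases hpN : (p : ℕ) < N
    · have := (key (p + 1) (by omega)).1
      linarith
    · exfalso
      obtain ⟨S, hS⟩ : ∃ S : Finset (Fin (N + R)), S = univ.filter (fun l : Fin (N + R) => (l : ℕ) < N) :=
        ⟨_, rfl⟩
      have hSc : S.card = N := by
        have e1 : S = univ.image (Fin.castAdd R) := by
          rw [hS]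
          ext l
          rw [mem_filter, mem_image]
          constructor
          · rintro ⟨-, hl⟩
            exact ⟨⟨l, hl⟩, mem_univ _, Fin.ext rfl⟩
          · rintro ⟨i, -, rfl⟩
            exact ⟨mem_univ _, by rw [Fin.val_castAdd]; exact i.2⟩
        rw [e1, ← hBs]
        exact hBc
      have hSsub : S.image ε ⊆ Bs := by
        intro q hq
        obtain ⟨l, hl, rfl⟩ := mem_image.1 hq
        rw [hS] at hl
        exact (key N le_rfl).2 l (mem_filter.1 hl).2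
      have hSe : S.image ε = Bs := by
        refine Finset.eq_of_subset_of_card_le hSsub ?_
        rw [Finset.card_image_of_injective _ hε.1, hSc, hBc]
      have h4 : Fin.castAdd R i ∈ S.image ε := by
        rw [hSe]
        exact hBi i
      obtain ⟨l, hl, he⟩ := mem_image.1 h4
      rw [ha] at he
      have h5 := hε.1 he
      rw [hS] at hl
      have h6 := (mem_filter.1 hl).2
      rw [h5] at h6
      exact hpN h6
  · rw [hg2]
    have h4 : vs L ε w' ((p : ℕ) + 1) ≤ P j := by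
      rw [vs_succ]
      unfold vn
      rw [← ha]
      refine h3 _ _ _ fun hc => ?_
      obtain ⟨i, hi, he⟩ := mem_image.1 hc
      have hi' : i < p := mem_Iio.1 hi
      rw [ha] at he
      have h5 := hε.1 he
      exact absurd hi' (by rw [h5]; exact lt_irrefl _)
    linarith

section ac

variable {S : PCl m} {v : Vz m} {φ : Fin N → Fin m} {n : Fin R → Fin m} {E : Finset (Fin m)}
  {M q : ℕ → ℕ}
  {ka : ∀ (J : ℕ) (F : Fam m J), v.κ J F → Fin R → Fin m → ℝ}

/-- **The activity of the straight images.** -/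
theorem act_st (hpos : PosC S) {al : ℝ} (hal : 0 ≤ al) (i₀ : Fin N)
    (hst : Bas S (fun J F A => StR F v E (ka J F) (M J) (q J) A)) :
    ActB (NZR S (φ i₀) (al + 1) v.b) (WyI S v (nwR v φ n E M ka)) (Fin.castAdd R i₀) := by
  classical
  intro x y hx hxy hy h hh
  refine bas_wyi.2 ?_
  have hb0 := v.b0
  have hb1 := v.b1
  have hc : 0 < 1 - v.b := by linarith
  have hl2 : 0 < Real.log 2 := Real.log_pos one_lt_two
  obtain ⟨c, hcd⟩ : ∃ c, c = NR S (φ i₀) (al + 1) ((1 - v.b) * x) ((1 - v.b) * y) := ⟨_, rfl⟩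
  have hx' : (0 : ℝ) ≤ x := by exact_mod_cast hx
  have hy' : (y : ℝ) ≤ 1 := by exact_mod_cast hy
  have hxy' : (x : ℝ) ≤ y := by exact_mod_cast hxy
  have h1 : VA S (φ i₀) ((1 - v.b) * x) ((1 - v.b) * y) c := by
    rw [hcd]
    exact NR.valid hpos (by linarith) _ _
  obtain ⟨Cn, hCn⟩ : ∃ Cn : ℝ, Cn = m * k99 + ((N + R : ℕ) * k99 + (N + R : ℕ) * k99) +
    (N + R : ℕ) * Real.log 2 * 4 + |c / (1 - v.b) - h| * Real.log 2 := ⟨_, rfl⟩
  have hh' : 0 < h * (1 - v.b) / 2 := by positivity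
  obtain ⟨J₁, hJ₁⟩ := bgJ (a := h * (1 - v.b) / 2 * Real.log 2) (by positivity) Cn
  have hpB : Bas S (fun _ F A => 0 < Pe F.p A) :=
    ⟨1, one_pos, 0, fun J _ F A hA => hpos 1 J F A one_pos hA⟩
  refine (((h1 _ hh').and hst).and hpB).mono J₁ ?_
  rintro J hJ F A ⟨⟨h2, h3⟩, hA⟩
  have hq := isLaw_cond F.isLaw hA
  have h0 := hq.nonneg
  have hJ0 : (0 : ℝ) ≤ J := Nat.cast_nonneg J
  have g1 := hJ₁ J hJ
  obtain ⟨j1, j2⟩ := jw v J
  obtain ⟨a, ha⟩ : ∃ a : ℕ, a = ⌊(1 - v.b) * x * (J : ℝ)⌋₊ := ⟨_, rfl⟩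
  obtain ⟨b, hb⟩ : ∃ b : ℕ, b = ⌊(1 - v.b) * y * (J : ℝ)⌋₊ := ⟨_, rfl⟩
  rw [← ha, ← hb] at h2
  have hab : a ≤ b := by
    rw [ha, hb]
    exact Nat.floor_le_floor (mul_le_mul_of_nonneg_right
      (mul_le_mul_of_nonneg_left hxy' hc.le) hJ0)
  have k1 : CH (Pool.Agent.H49.Ent.cond F.p A True) (fun ω => F.D b ω (φ i₀))
      (fun ω => (F.D a ω, (F.X J ω, F.W ω))) ≤ blk F {φ i₀} A a b := by
    unfold blk
    refine CH_mono_left h0 fun ω ω' _ _ e => ?_
    have e1 := congrFun (Prod.ext_iff.1 e).1 (φ i₀)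
    unfold prjK at e1
    simpa using e1
  have k2 := blk_winI (h3.imA (φ := φ) (n := n) a i₀) hA hab le_rfl
  have k3 : CH (Pool.Agent.H49.Ent.cond F.p A True) (v.y J F)
      (fun ω => (F.D a ω, (F.X J ω, F.W ω))) = 0 := by
    refine CH_eq_zero h0 fun ω ω' hω hω' e => ?_
    have e1 := Prod.ext_iff.1 (Prod.ext_iff.1 e).2
    refine h3.cl ω ω' (of_condp hω) (of_condp hω') ?_
    exact Prod.ext e1.1 (Prod.ext (Prod.ext_iff.1 e1.2).1 (Prod.ext_iff.1 e1.2).2)
  have k4 := CH_nonneg h0 (v.y J F) (fun ω => (F.D b ω, (F.X J ω, F.W ω)))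
  obtain ⟨a', ha'⟩ : ∃ a' : ℕ, a' = ⌊((x : ℚ) : ℝ) * ((J - v.B J : ℕ) : ℝ)⌋₊ := ⟨_, rfl⟩
  obtain ⟨b', hb'⟩ : ∃ b' : ℕ, b' = ⌊((y : ℚ) : ℝ) * ((J - v.B J : ℕ) : ℝ)⌋₊ := ⟨_, rfl⟩
  have near : ∀ z : ℝ, 0 ≤ z → z ≤ 1 → |((⌊(1 - v.b) * z * J⌋₊ : ℕ) : ℝ) -
      (⌊z * ((J - v.B J : ℕ) : ℝ)⌋₊ : ℕ)| ≤ 2 := by
    intro z hz0 hz1
    have a1 : (⌊(1 - v.b) * z * J⌋₊ : ℝ) ≤ (1 - v.b) * z * J := Nat.floor_le (by positivity)
    have a2 : (1 - v.b) * z * J - 1 < (⌊(1 - v.b) * z * J⌋₊ : ℝ) := Nat.sub_one_lt_floor _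
    have a3 : (⌊z * ((J - v.B J : ℕ) : ℝ)⌋₊ : ℝ) ≤ z * ((J - v.B J : ℕ) : ℝ) :=
      Nat.floor_le (by positivity)
    have a4 : z * ((J - v.B J : ℕ) : ℝ) - 1 < (⌊z * ((J - v.B J : ℕ) : ℝ)⌋₊ : ℝ) :=
      Nat.sub_one_lt_floor _
    have a5 : z * ((1 - v.b) * J) ≤ z * ((J - v.B J : ℕ) : ℝ) := mul_le_mul_of_nonneg_left j1 hz0
    have a6 : z * ((J - v.B J : ℕ) : ℝ) ≤ z * ((1 - v.b) * J + 1) :=
      mul_le_mul_of_nonneg_left j2 hz0
    have e1 : z * ((1 - v.b) * J + 1) = (1 - v.b) * z * J + z := by ring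
    have e2 : z * ((1 - v.b) * J) = (1 - v.b) * z * J := by ring
    rw [abs_le]
    constructor <;> linarith
  have k5 := blk_near (F := winI v (nwR v φ n E M ka) F) hA {(Fin.castAdd R i₀)} a a' b b'
  have k6 : |(a : ℝ) - a'| + |(b : ℝ) - b'| ≤ 4 := by
    have n1 := near x hx' (hxy'.trans hy')
    have n2 := near y (hx'.trans hxy') hy'
    rw [← ha, ← ha'] at n1
    rw [← hb, ← hb'] at n2
    linarith
  have k7 : ((N + R : ℕ) : ℝ) * Real.log 2 * (|(a : ℝ) - a'| + |(b : ℝ) - b'|) ≤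
      (N + R : ℕ) * Real.log 2 * 4 := mul_le_mul_of_nonneg_left k6 (by positivity)
  have k8 : blk (winI v (nwR v φ n E M ka) F) {(Fin.castAdd R i₀)} A a' b' ≤
      CH (Pool.Agent.H49.Ent.cond F.p A True)
        (fun ω => (winI v (nwR v φ n E M ka) F).D b' ω (Fin.castAdd R i₀))
        (fun ω => ((winI v (nwR v φ n E M ka) F).D a' ω,
          ((winI v (nwR v φ n E M ka) F).X (J - v.B J) ω,
            (winI v (nwR v φ n E M ka) F).W ω))) := by
    unfold blk
    refine CH_mono_left h0 fun ω ω' _ _ e => ?_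
    have e1 := (Prod.ext_iff.1 e).1
    funext i
    unfold prjK
    by_cases hi : i ∈ ({(Fin.castAdd R i₀)} : Finset (Fin (N + R)))
    · rw [if_pos hi, if_pos hi, mem_singleton.1 hi]
      exact e1
    · rw [if_neg hi, if_neg hi]
  show (NZR S (φ i₀) (al + 1) v.b x y - h) * Real.log 2 * ((J - v.B J : ℕ) : ℝ) ≤
    CH (Pool.Agent.H49.Ent.cond F.p A True)
      (fun ω => (winI v (nwR v φ n E M ka) F).D ⌊((y : ℚ) : ℝ) * ((J - v.B J : ℕ) : ℝ)⌋₊ ω
        (Fin.castAdd R i₀))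
      (fun ω => ((winI v (nwR v φ n E M ka) F).D ⌊((x : ℚ) : ℝ) * ((J - v.B J : ℕ) : ℝ)⌋₊ ω,
        ((winI v (nwR v φ n E M ka) F).X (J - v.B J) ω,
          (winI v (nwR v φ n E M ka) F).W ω)))
  rw [← ha', ← hb']
  have e1 : NZR S (φ i₀) (al + 1) v.b x y = c / (1 - v.b) := by
    rw [hcd]
    rfl
  rw [e1]
  have k9 : (c / (1 - v.b) - h) * Real.log 2 * ((J - v.B J : ℕ) : ℝ) ≤
      (c - h * (1 - v.b)) * Real.log 2 * J + |c / (1 - v.b) - h| * Real.log 2 := by
    obtain ⟨d, hd⟩ : ∃ d, d = c / (1 - v.b) - h := ⟨_, rfl⟩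
    have e2 : c - h * (1 - v.b) = d * (1 - v.b) := by
      rw [hd]
      field_simp
    rw [← hd, e2]
    have m1 := jmul v (-d) J
    rw [abs_neg] at m1
    have m2 : d * ((J - v.B J : ℕ) : ℝ) ≤ d * (1 - v.b) * J + |d| := by linarith
    have m3 := mul_le_mul_of_nonneg_right m2 hl2.le
    have e3 : d * Real.log 2 * ((J - v.B J : ℕ) : ℝ) = d * ((J - v.B J : ℕ) : ℝ) * Real.log 2 := by
      ring
    have e4 : (d * (1 - v.b) * J + |d|) * Real.log 2 = d * (1 - v.b) * Real.log 2 * J +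
      |d| * Real.log 2 := by ring
    linarith
  have k10 : (c - h * (1 - v.b)) * Real.log 2 * J = (c - h * (1 - v.b) / 2) * Real.log 2 * J -
    h * (1 - v.b) / 2 * Real.log 2 * J := by ring
  rw [k3] at k2
  linarith

end ac

end Pool.FUL17
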