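import Pool.Agent.H17.FUL.Thr

/-!
# Two straight images: the greedy order

`base_first`: the coordinates of the base are the first ones of the greedy order. `order2`: two
images, the first one with a smaller number over the base alone. `StR.lbrI`: the label of an image
as a label of its target, only the used coordinates.
-/

set_option autoImplicit false

namespace Pool.FUL17

open Finset Real MvPolynomial
open Pool.Agent.H49.Ent Pool.Agent.H32.Dense Pool.STK Pool.KA Pool.KSAT Pool.K2S Pool.PB Pool.S6C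
open Pool.GEN Pool.REX Pool.REX83 Pool.NFT33 Pool.TOP
open Pool.GRD (LbP)
open Pool.GRW (bas_part)
open Pool.FUL33 (st_fac bgJ wB wJ jw jmul pull bas_abs)

variable {m N R J : ℕ}

theorem base_ne (i : Fin N) (j : Fin R) : Fin.castAdd R i ≠ Fin.natAdd N j := by
  intro hc
  have h4 := congrArg Fin.val hc
  rw [Fin.val_castAdd, Fin.val_natAdd] at h4
  have := i.2
  omega

/-- **The base comes first.** -/
theorem base_first {L : Finset (Fin (N + R)) → Fin (N + R) → ℝ → ℝ → ℝ}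
    {ε : Fin (N + R) → Fin (N + R)} (hε : Function.Bijective ε)
    {w' δ σ : ℝ} (hg : Vgr L ε w') (hwδ : w' ≤ δ) (hδσ : δ < σ)
    (h1 : ∀ (I : Finset (Fin (N + R))) (i : Fin N) (r : ℝ), (∀ j : Fin R, Fin.natAdd N j ∉ I) →
      Fin.castAdd R i ∉ I → r ≤ δ → L I (Fin.castAdd R i) w' r ≤ δ)
    (h2 : ∀ (I : Finset (Fin (N + R))) (j : Fin R) (r : ℝ), σ ≤ L I (Fin.natAdd N j) w' r) :
    ∀ j : ℕ, j ≤ N → vs L ε w' j ≤ δ ∧
      ∀ i : Fin (N + R), (i : ℕ) < j → ∃ a : Fin N, ε i = Fin.castAdd R a := by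
  classical
  obtain ⟨Bs, hBs⟩ : ∃ Bs : Finset (Fin (N + R)), Bs = univ.image (Fin.castAdd R) := ⟨_, rfl⟩
  have hBc : Bs.card = N := by
    rw [hBs, Finset.card_image_of_injective _ (Fin.castAdd_injective N R), Finset.card_univ,
      Fintype.card_fin]
  have hBm : ∀ {p : Fin (N + R)}, p ∈ Bs → ∃ i : Fin N, p = Fin.castAdd R i := by
    intro p hp
    rw [hBs] at hp
    obtain ⟨i, -, hi⟩ := mem_image.1 hp
    exact ⟨i, hi.symm⟩
  intro j
  induction j with
  | zero => exact fun _ => ⟨hwδ, fun i hi => absurd hi (Nat.not_lt_zero _)⟩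
  | succ j ih =>
    intro hj
    obtain ⟨k1, k2⟩ := ih (by omega)
    obtain ⟨jj, hjj⟩ : ∃ jj : Fin (N + R), (jj : ℕ) = j := ⟨⟨j, by omega⟩, rfl⟩
    have hlast : ∀ j' : Fin R, Fin.natAdd N j' ∉ (Finset.Iio jj).image ε := by
      intro j' hc
      obtain ⟨i, hi, he⟩ := mem_image.1 hc
      have hi1 : i < jj := mem_Iio.1 hi
      have hi2 : (i : ℕ) < (jj : ℕ) := hi1
      obtain ⟨a, ha⟩ := k2 i (by omega)
      exact base_ne a j' (ha.symm.trans he)
    have hcard : ((Finset.Iio jj).image ε).card = j := by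
      rw [Finset.card_image_of_injective _ hε.1, Fin.card_Iio, hjj]
    obtain ⟨b, hb, hbn⟩ : ∃ b ∈ Bs, b ∉ (Finset.Iio jj).image ε := by
      refine Finset.exists_mem_notMem_of_card_lt_card ?_
      rw [hcard, hBc]
      omega
    obtain ⟨i, rfl⟩ := hBm hb
    obtain ⟨k, hk⟩ := hε.2 (Fin.castAdd R i)
    have hjk : jj ≤ k := by
      by_contra hc
      exact hbn (hk ▸ mem_image_of_mem _ (mem_Iio.2 (not_le.1 hc)))
    have h4 : vs L ε w' (jj + 1) ≤ δ := by
      refine (hg jj k hjk).trans ?_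
      unfold vn
      rw [hk]
      refine h1 _ i _ hlast hbn ?_
      rw [hjj]
      exact k1
    refine ⟨by rw [hjj] at h4; exact h4, fun l hl => ?_⟩
    rcases Nat.lt_succ_iff_lt_or_eq.1 hl with hl | hl
    · exact k2 l hl
    · have hlj : l = jj := Fin.ext (by omega)
      rw [hlj]
      obtain ⟨a, ha⟩ : ∃ a, a = ε jj := ⟨_, rfl⟩
      rw [← ha]
      revert ha
      refine Fin.addCases (fun i _ => ⟨i, rfl⟩) (fun j' ha => ?_) a
      have h5 := vs_succ L ε w' jj
      unfold vn at h5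
      rw [← ha] at h5
      have h6 := h2 ((Finset.Iio jj).image ε) j' (vs L ε w' jj)
      linarith

/-- **Two images**, the first one with a smaller number over the base. -/
theorem order2 {L : Finset (Fin (N + 2)) → Fin (N + 2) → ℝ → ℝ → ℝ}
    {ε : Fin (N + 2) → Fin (N + 2)} (hε : Function.Bijective ε)
    {w' δ σ P₀ P₁ : ℝ} (hg : Vgr L ε w') (hwδ : w' ≤ δ) (hδσ : δ < σ)
    (h1 : ∀ (I : Finset (Fin (N + 2))) (i : Fin N) (r : ℝ), (∀ j : Fin 2, Fin.natAdd N j ∉ I) →
      Fin.castAdd 2 i ∉ I → r ≤ δ → L I (Fin.castAdd 2 i) w' r ≤ δ)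
    (h2 : ∀ (I : Finset (Fin (N + 2))) (j : Fin 2) (r : ℝ), σ ≤ L I (Fin.natAdd N j) w' r)
    (h3 : ∀ (I : Finset (Fin (N + 2))) (r : ℝ), (∀ j : Fin 2, Fin.natAdd N j ∉ I) →
      L I (Fin.natAdd N 0) w' r ≤ P₀)
    (h4 : ∀ (I : Finset (Fin (N + 2))) (j : Fin 2) (r : ℝ), Fin.natAdd N j ∉ I →
      L I (Fin.natAdd N j) w' r ≤ P₁) :
    N * (1 - δ) + ((1 - P₀) + (1 - P₁)) ≤ ∑ j : Fin (N + 2), (1 - vs L ε w' (j + 1)) := by
  classical
  have key := base_first hε hg hwδ hδσ h1 h2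
  -- the places of the images
  have himg : ∀ j : Fin 2, ∀ k : Fin (N + 2), ε k = Fin.natAdd N j → N ≤ (k : ℕ) := by
    intro j k hk
    by_contra hc
    obtain ⟨a, ha⟩ := (key N le_rfl).2 k (not_le.1 hc)
    exact base_ne a j (ha.symm.trans hk)
  obtain ⟨pN, hpN⟩ : ∃ pN : Fin (N + 2), (pN : ℕ) = N := ⟨⟨N, by omega⟩, rfl⟩
  obtain ⟨pM, hpM⟩ : ∃ pM : Fin (N + 2), (pM : ℕ) = N + 1 := ⟨⟨N + 1, by omega⟩, rfl⟩
  have hno : ∀ j : Fin 2, Fin.natAdd N j ∉ (Finset.Iio pN).image ε := by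
    intro j hc
    obtain ⟨i, hi, he⟩ := mem_image.1 hc
    have hi1 : i < pN := mem_Iio.1 hi
    have hi2 : (i : ℕ) < (pN : ℕ) := hi1
    have := himg j i he
    omega
  have v1 : vs L ε w' (N + 1) ≤ P₀ := by
    obtain ⟨k, hk⟩ := hε.2 (Fin.natAdd N 0)
    have hk' := himg 0 k hk
    have hjk : pN ≤ k := by
      rw [Fin.le_def]
      omega
    have h5 := hg pN k hjk
    unfold vn at h5
    rw [hk, hpN] at h5
    exact h5.trans (h3 _ _ hno)
  have v2 : vs L ε w' (N + 1 + 1) ≤ P₁ := by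
    have h5 := vs_succ L ε w' pM
    unfold vn at h5
    rw [hpM] at h5
    rw [h5]
    obtain ⟨a, ha⟩ : ∃ a, a = ε pM := ⟨_, rfl⟩
    have haI : a ∉ (Finset.Iio pM).image ε := by
      rw [ha]
      intro hc
      obtain ⟨i, hi, he⟩ := mem_image.1 hc
      have hi' : i < pM := mem_Iio.1 hi
      rw [hε.1 he] at hi'
      exact lt_irrefl _ hi'
    rw [← ha]
    revert ha haI
    refine Fin.addCases (fun i ha _ => ?_) (fun j _ haI => h4 _ j _ haI) a
    -- the last one is not in the base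
    exfalso
    obtain ⟨S, hS⟩ : ∃ S : Finset (Fin (N + 2)), S = univ.filter
      (fun l : Fin (N + 2) => (l : ℕ) < N) := ⟨_, rfl⟩
    have hSc : S.card = N := by
      have e1 : S = univ.image (Fin.castAdd 2 : Fin N → Fin (N + 2)) := by
        rw [hS]
        ext l
        rw [mem_filter, mem_image]
        constructor
        · rintro ⟨-, hl⟩
          exact ⟨⟨l, hl⟩, mem_univ _, Fin.ext rfl⟩
        · rintro ⟨i, -, rfl⟩
          exact ⟨mem_univ _, by rw [Fin.val_castAdd]; exact i.2⟩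
      rw [e1, Finset.card_image_of_injective _ (Fin.castAdd_injective N 2), Finset.card_univ,
        Fintype.card_fin]
    have hSsub : S.image ε ⊆ univ.image (Fin.castAdd 2 : Fin N → Fin (N + 2)) := by
      intro q hq
      obtain ⟨l, hl, rfl⟩ := mem_image.1 hq
      rw [hS] at hl
      obtain ⟨a, ha⟩ := (key N le_rfl).2 l (mem_filter.1 hl).2
      rw [ha]
      exact mem_image_of_mem _ (mem_univ _)
    have hSe : S.image ε = univ.image (Fin.castAdd 2 : Fin N → Fin (N + 2)) := by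
      refine Finset.eq_of_subset_of_card_le hSsub ?_
      rw [Finset.card_image_of_injective _ hε.1, hSc,
        Finset.card_image_of_injective _ (Fin.castAdd_injective N 2), Finset.card_univ,
        Fintype.card_fin]
    have h7 : Fin.castAdd 2 i ∈ S.image ε := by
      rw [hSe]
      exact mem_image_of_mem _ (mem_univ _)
    obtain ⟨l, hl, he⟩ := mem_image.1 h7
    rw [ha] at he
    have h8 := hε.1 he
    rw [hS] at hl
    have h9 := (mem_filter.1 hl).2
    rw [h8, hpM] at h9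
    omega
  rw [Fin.sum_univ_castSucc, Fin.sum_univ_castSucc]
  have s1 : (N : ℝ) * (1 - δ) ≤ ∑ i : Fin N,
      (1 - vs L ε w' (((i.castSucc.castSucc : Fin (N + 2)) : ℕ) + 1)) := by
    have e1 : (N : ℝ) * (1 - δ) = ∑ _i : Fin N, (1 - δ) := by
      rw [Finset.sum_const, Finset.card_univ, Fintype.card_fin, nsmul_eq_mul]
    rw [e1]
    refine Finset.sum_le_sum fun i _ => ?_
    have h5 := (key (i + 1) (by omega)).1
    have e2 : ((i.castSucc.castSucc : Fin (N + 2)) : ℕ) = i := rfl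
    rw [e2]
    linarith
  have e3 : (((Fin.last N).castSucc : Fin (N + 2)) : ℕ) = N := rfl
  have e4 : ((Fin.last (N + 1) : Fin (N + 2)) : ℕ) = N + 1 := rfl
  rw [e3, e4]
  linarith

/-- The coordinates of a label with the coordinates `I'`. -/
def lbsI (φ : Fin N → Fin m) (n : Fin R → Fin m) (E : Finset (Fin m))
    (I' : Finset (Fin (N + R))) : Finset (Fin m) :=
  E ∪ (univ.image φ ∪ (univ.filter (fun j : Fin R => Fin.natAdd N j ∈ I')).image n)

section lb

variable {F : Fam m J} {v : Vz m} {φ : Fin N → Fin m} {n : Fin R → Fin m} {E : Finset (Fin m)}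
  {M : ℕ → ℕ} {ka : ∀ (J : ℕ) (F : Fam m J), v.κ J F → Fin R → Fin m → ℝ} {q : ℕ}
  {A : F.Ω → Prop}

/-- **A label of an image is a label of its target in the family**, only the used coordinates. -/
theorem StR.lbrI (h : StR F v E (ka J F) (M J) q A) {B : F.Ω → Prop} (hB : Sub B A)
    (hdet : ∀ ω ω', B ω → B ω' → ptr F J ω = ptr F J ω' →
      ptr (winI v (nwR v φ n E M ka) F) (J - v.B J) ω =
        ptr (winI v (nwR v φ n E M ka) F) (J - v.B J) ω') (j : Fin R)
    {I' : Finset (Fin (N + R))} {K' w' W P' P₂ : ℕ}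
    (hW : v.B J + w' ≤ W) (hWJ : W ≤ J)
    (hnum : (2 : ℝ) ^ P₂ * 2 ^ M J ≤ 2 ^ (v.B J + P')) {V : Type}
    {z : PtT (winI v (nwR v φ n E M ka) F) → V} {z' : LnT (winI v (nwR v φ n E M ka) F) → V}
    {G : V → MvPolynomial (Option (Fin (N + R))) ℝ}
    (hL : LbP (winI v (nwR v φ n E M ka) F) I' (Fin.natAdd N j) K' (J - v.B J) w' P' A z z' G) :
    LbR 0 F (lbsI φ n E I') (n j) (K' + 1) W P₂ B := by
  classical
  obtain ⟨yp, yl, hy⟩ := st_fac hdet hW hWJ (fun ω hω => hL.cls ω (hB ω hω))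
  obtain ⟨σ, hσ⟩ : ∃ σ : (v.win F).ζ → Option (Fin (N + R)) → MvPolynomial (Option (Fin m)) ℝ,
    σ = fun y => sgR (v.B J) φ n E (1 / 2 ^ M J) (fun j l => ka J F y.1 j l / 2 ^ M J)
      (y.2.1.1 : ℝ) (fun i => (y.2.1.2 i : ℝ)) := ⟨_, rfl⟩
  obtain ⟨Gf, hGf⟩ : ∃ Gf : Option (V × (v.win F).ζ) → MvPolynomial (Option (Fin m)) ℝ,
    Gf = fun o => match o with
    | none => 0
    | some u => ∑ l ∈ E, C (ka J F u.2.1 j l) * X (some l) +
      (C (((u.2.2.1.2 (n j) : ℝ) - ∑ l ∈ E, ka J F u.2.1 j l * u.2.2.1.2 l) / 2 ^ v.B J) +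
      C (2 ^ M J / 2 ^ v.B J) * aeval (σ u.2) (G u.1)) := ⟨_, rfl⟩
  have hev : ∀ (u : V × (v.win F).ζ) (b : Option (Fin m) → ℝ), eval b (Gf (some u)) =
      ∑ l ∈ E, ka J F u.2.1 j l * b (some l) +
        (((u.2.2.1.2 (n j) : ℝ) - ∑ l ∈ E, ka J F u.2.1 j l * u.2.2.1.2 l) / 2 ^ v.B J +
        2 ^ M J / 2 ^ v.B J * eval (fun o => eval b (σ u.2 o)) (G u.1)) := by
    intro u b
    rw [hGf]
    show eval b (∑ l ∈ E, C (ka J F u.2.1 j l) * X (some l) +
      (C (((u.2.2.1.2 (n j) : ℝ) - ∑ l ∈ E, ka J F u.2.1 j l * u.2.2.1.2 l) / 2 ^ v.B J) +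
      C (2 ^ M J / 2 ^ v.B J) * aeval (σ u.2) (G u.1))) = _
    rw [map_add, map_add, map_mul, map_sum, eval_C, eval_C, eval_aevalσ]
    congr 1
    refine Finset.sum_congr rfl fun l _ => ?_
    rw [map_mul, eval_C, eval_X]
  refine ⟨Option (V × (v.win F).ζ), yp, yl, Gf, ⟨fun o => ?_, fun o b b' hn hb => ?_,
    fun ω hω => ?_, fun ω hω b hb => ?_⟩⟩
  · rcases o with _ | u
    · rw [hGf]
      show (0 : MvPolynomial (Option (Fin m)) ℝ).totalDegree ≤ _
      rw [totalDegree_zero]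
      exact Nat.zero_le _
    · rw [hGf]
      show (∑ l ∈ E, C (ka J F u.2.1 j l) * X (some l) +
        (C (((u.2.2.1.2 (n j) : ℝ) - ∑ l ∈ E, ka J F u.2.1 j l * u.2.2.1.2 l) / 2 ^ v.B J) +
        C (2 ^ M J / 2 ^ v.B J) * aeval (σ u.2) (G u.1))).totalDegree ≤ _
      refine (totalDegree_add _ _).trans (max_le ?_ ((totalDegree_add _ _).trans
        (max_le ?_ ?_)))
      · refine totalDegree_finsetSum_le fun l _ => ?_
        refine (totalDegree_mul _ _).trans ?_
        rw [totalDegree_C, totalDegree_X]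
        omega
      · rw [totalDegree_C]
        exact Nat.zero_le _
      · refine (totalDegree_mul _ _).trans ?_
        rw [totalDegree_C, zero_add]
        have e1 : (aeval (σ u.2) (G u.1)).totalDegree ≤ 1 * K' := by
          refine totalDegree_aevalσ (fun o => ?_) (hL.deg _)
          rw [hσ]
          exact deg_sgR o
        omega
  · rcases o with _ | u
    · rw [hGf]
      show eval b (0 : MvPolynomial (Option (Fin m)) ℝ) = eval b' 0
      rw [map_zero, map_zero]
    · rw [hev, hev]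
      have e0 : ∑ l ∈ E, ka J F u.2.1 j l * b (some l) =
          ∑ l ∈ E, ka J F u.2.1 j l * b' (some l) :=
        Finset.sum_congr rfl fun l hl => by rw [hb l (mem_union_left _ hl)]
      have e1 : eval (fun o => eval b (σ u.2 o)) (G u.1) =
          eval (fun o => eval b' (σ u.2 o)) (G u.1) := by
        refine hL.dep _ _ _ ?_ fun i hi => ?_
        · rw [hσ]
          show eval b (sgR _ _ _ _ _ _ _ _ none) = eval b' (sgR _ _ _ _ _ _ _ _ none)
          rw [sgR_none, sgR_none, hn]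
        · rw [hσ]
          show eval b (sgR _ _ _ _ _ _ _ _ (some i)) = eval b' (sgR _ _ _ _ _ _ _ _ (some i))
          rw [sgR_some, sgR_some]
          revert hi
          refine Fin.addCases (fun i hi => ?_) (fun j' hi => ?_) i
          · rw [linR_base, linR_base, hb (φ i) (mem_union_right _ (mem_union_left _
              (mem_image_of_mem _ (mem_univ _))))]
          · rw [linR_im, linR_im, hb (n j') (mem_union_right _ (mem_union_right _
              (mem_image_of_mem _ (mem_filter.2 ⟨mem_univ _, hi⟩))))]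
            congr 1
            exact Finset.sum_congr rfl fun l hl => by rw [hb l (mem_union_left _ hl)]
      rw [e0, e1]
  · rw [(hy ω hω).1, (hy ω hω).2]
  · have hA := hB ω hω
    have hbb : b = bt F ω := by
      funext o
      have h1 := hb o
      rw [zero_div] at h1
      have h2 := abs_nonpos_iff.1 h1
      linarith
    rw [hbb, (hy ω hω).2, hev]
    show |F.x ω (n j) - (∑ l ∈ E, ka J F (v.y J F ω) j l * F.x ω l +
      (((fl (v.B J) (F.x1 (v.B J) ω) (n j) : ℝ) - ∑ l ∈ E, ka J F (v.y J F ω) j l *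
        (fl (v.B J) (F.x1 (v.B J) ω) l : ℝ)) / 2 ^ v.B J + 2 ^ M J / 2 ^ v.B J *
        eval (fun o => eval (bt F ω) (σ ((v.win F).Z ω) o))
          (G (z' (slam (winI v (nwR v φ n E M ka) F) w' ω)))))| ≤ 1 / 2 ^ P₂
    -- the coordinates
    have e1 : eval (fun o => eval (bt F ω) (σ ((v.win F).Z ω) o))
        (G (z' (slam (winI v (nwR v φ n E M ka) F) w' ω))) =
        eval (bt (winI v (nwR v φ n E M ka) F) ω)
          (G (z' (slam (winI v (nwR v φ n E M ka) F) w' ω))) := by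
      congr 1
      congr 1
      funext o
      rcases o with _ | i
      · rw [hσ]
        show eval (bt F ω) (sgR _ _ _ _ _ _ _ _ none) = (v.win F).t ω
        rw [sgR_none, win_tt]
        rfl
      · rw [hσ]
        show eval (bt F ω) (sgR _ _ _ _ _ _ _ _ (some i)) =
          (winI v (nwR v φ n E M ka) F).x ω i
        rw [sgR_some, h.x hA]
        congr 1
        funext l
        rw [win_x]
        rfl
    rw [e1]
    have h1 := hL.pos ω hA
    rw [h.xl hA] at h1
    obtain ⟨g, hg⟩ : ∃ g, g = eval (bt (winI v (nwR v φ n E M ka) F) ω)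
      (G (z' (slam (winI v (nwR v φ n E M ka) F) w' ω))) := ⟨_, rfl⟩
    rw [← hg] at h1 ⊢
    obtain ⟨κ, hκ⟩ : ∃ κ, κ = ka J F (v.y J F ω) j := ⟨_, rfl⟩
    rw [← hκ] at h1 ⊢
    obtain ⟨c, hc⟩ : ∃ c : Fin m → ℝ, c = fun k => (fl (v.B J) (F.x1 (v.B J) ω) k : ℝ) :=
      ⟨_, rfl⟩
    have hck : ∀ k, (fl (v.B J) (F.x1 (v.B J) ω) k : ℝ) = c k := fun k => by rw [hc]
    simp only [hck]
    have hwx : ∀ k, (v.win F).x ω k = 2 ^ v.B J * F.x ω k - c k := fun k => by
      rw [win_x, hck]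
    simp only [hwx] at h1
    have pM : (0 : ℝ) < 2 ^ M J := by positivity
    have pB : (0 : ℝ) < 2 ^ v.B J := by positivity
    have e2 : F.x ω (n j) - (∑ l ∈ E, κ l * F.x ω l + ((c (n j) - ∑ l ∈ E, κ l * c l) /
        2 ^ v.B J + 2 ^ M J / 2 ^ v.B J * g)) =
        2 ^ M J / 2 ^ v.B J * (1 / 2 ^ M J * (2 ^ v.B J * F.x ω (n j) - c (n j)) -
          ∑ l ∈ E, κ l / 2 ^ M J * (2 ^ v.B J * F.x ω l - c l) - g) := by
      have e4 : ∑ l ∈ E, κ l / 2 ^ M J * (2 ^ v.B J * F.x ω l - c l) =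
          (2 ^ v.B J * ∑ l ∈ E, κ l * F.x ω l - ∑ l ∈ E, κ l * c l) / 2 ^ M J := by
        rw [Finset.mul_sum, ← Finset.sum_sub_distrib, Finset.sum_div]
        exact Finset.sum_congr rfl fun l _ => by ring
      rw [e4]
      field_simp
      ring
    rw [e2, abs_mul, abs_of_pos (by positivity : (0 : ℝ) < 2 ^ M J / 2 ^ v.B J)]
    refine (mul_le_mul_of_nonneg_left h1 (by positivity)).trans ?_
    have e3 : (2 : ℝ) ^ M J / 2 ^ v.B J * (1 / 2 ^ P') = 2 ^ M J / (2 ^ (v.B J + P')) := by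
      rw [pow_add]
      field_simp
    rw [e3, div_le_div_iff₀ (by positivity) (by positivity), one_mul, mul_comm]
    exact hnum

end lb

end Pool.FUL17
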