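import Pool.Agent.H17.FUL.Shr1

/-!
# Fullness of a straight image over a base with a straight image

`ful_shr`: the base is `x (φ i)`, exact, and the image `h = x c₂ - ∑ l ∈ E, k l * x l`, exact, which
is known up to `c` digits from the other base coordinates and the code; the target is the image
`x n₁ - ∑ l ∈ E, κ l * x l`.
-/

set_option autoImplicit false

namespace Pool.FUL17

open Finset Real MvPolynomial
open Pool.Agent.H49.Ent Pool.Agent.H32.Dense Pool.STK Pool.KA Pool.KSAT Pool.K2S Pool.PB Pool.S6C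
open Pool.GEN Pool.REX Pool.REX83 Pool.NFT33 Pool.TOP
open Pool.UNJ (ceI)
open Pool.EXW (abs_floor_sub)
open Pool.LBT (ThrOf)
open Pool.FUL33 (bgJ ch_dg)

variable {m N J : ℕ}

/-- The straight image. -/
noncomputable def im1 (E : Finset (Fin m)) (n : Fin m) (κ : Fin m → ℝ) (x : Fin m → ℝ) : ℝ :=
  x n - ∑ l ∈ E, κ l * x l

/-- The entropy of digits of a number known up to `a`. -/
theorem ch_known {Ω : Type} [Fintype Ω] {μ : Ω → ℝ} (hμ : IsLaw μ) {S : Type*} (x : Ω → ℝ)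
    (C : Ω → S) {M : ℕ} {a : ℝ} (ha : 0 ≤ a) (h : ∀ ω ω', 0 < μ ω → 0 < μ ω' → C ω = C ω' →
      |x ω - x ω'| ≤ (2 : ℝ) ^ (a - M)) :
    CH μ (fun ω => ⌊(2 : ℝ) ^ M * x ω⌋) C ≤ a * Real.log 2 + Real.log 5 := by
  have h1 := ch_dg hμ (fun ω => (2 : ℝ) ^ M * x ω) C (L := (2 : ℝ) ^ a) fun ω ω' hω hω' e => by
    rw [← mul_sub, abs_mul, abs_of_pos (by positivity : (0 : ℝ) < 2 ^ M)]
    have h2 := mul_le_mul_of_nonneg_left (h ω ω' hω hω' e) (by positivity : (0 : ℝ) ≤ 2 ^ M)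
    refine h2.trans (le_of_eq ?_)
    rw [← Real.rpow_natCast, ← Real.rpow_add (by norm_num)]
    congr 1
    ring
  refine h1.trans ?_
  have h2 : (1 : ℝ) ≤ (2 : ℝ) ^ a := Real.one_le_rpow (by norm_num) ha
  have h3 : 2 * ((2 : ℝ) ^ a + 1) + 1 ≤ 5 * (2 : ℝ) ^ a := by linarith
  refine (Real.log_le_log (by positivity) h3).trans (le_of_eq ?_)
  rw [Real.log_mul (by norm_num) (by positivity), Real.log_rpow (by norm_num)]
  ring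

/-- **Fullness of a straight image over a base with a straight image.** -/
theorem ful_shr (hF : FZX (N + 2)) {S : PCl m} {C₀ : ℝ} (hC₀ : 0 ≤ C₀) (htm : TmC S C₀)
    {N₀ : ℚ → ℚ → ℝ} {al : ℝ} {g₀ : ℝ → ℝ} (hal : 0 < al)
    (hg₀ : ∀ ε : ℝ, 0 < ε → 0 < g₀ ε) (hM : ActM N₀ al g₀) {φ : Fin N → Fin m}
    (hφ : Function.Injective φ) (i₀ : Fin N) (hB : ActB N₀ S (φ i₀)) {c₂ n₁ : Fin m}
    {E : Finset (Fin m)} {w c s : ℝ} (hw0 : 0 ≤ w) (hw1 : w < 1) (hc0 : 0 ≤ c) (hc1 : c ≤ 1)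
    (hs0 : 0 ≤ s)
    (hful : ∀ δ : ℝ, 0 < δ → ∃ w₂ u : ℝ, w < w₂ ∧ w₂ ≤ u ∧ u < w + δ ∧
      Ful S (univ.image φ) w₂ u)
    (hno2 : ∀ μ : ℝ, 0 < μ → c + μ ≤ 1 → ∃ v₀ : ℝ, w < v₀ ∧ v₀ ≤ 1 ∧ ∀ K,
      Bas S (fun J F A => ¬ LbR 0 F (E ∪ univ.image φ) c₂ K ⌊v₀ * J⌋₊ ⌊(c + μ) * J⌋₊ A))
    (hno2' : ∀ μ : ℝ, 0 < μ → s + μ ≤ 1 → ∃ v₀ : ℝ, w < v₀ ∧ v₀ ≤ 1 ∧ ∀ K,
      Bas S (fun J F A => ¬ LbR 0 F (E ∪ (univ.image φ ∪ {n₁})) c₂ K ⌊v₀ * J⌋₊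
        ⌊(s + μ) * J⌋₊ A))
    (hnoN : ∀ μ : ℝ, 0 < μ → s + μ ≤ 1 → ∃ v₀ : ℝ, w < v₀ ∧ v₀ ≤ 1 ∧ ∀ K,
      Bas S (fun J F A => ¬ LbR 0 F (E ∪ (univ.image φ ∪ {c₂})) n₁ K ⌊v₀ * J⌋₊
        ⌊(s + μ) * J⌋₊ A))
    {r : ℝ} (hr : r ≤ 1) {ρ : ℝ} (hρ : 0 < ρ) :
    ∃ e : ℝ, 0 < e ∧ Bas S (fun J F A => ∀ (V : Type) (z : PtT F → V) (z' : LnT F → V)
      (k κ : V → Fin m → ℝ), (∀ ω, A ω → z (ptr F J ω) = z' (slam F ⌊w * J⌋₊ ω)) →
      (∀ ω, A ω → ∀ l ∈ E, |k (z' (slam F ⌊w * J⌋₊ ω)) l| ≤ (2 : ℝ) ^ (e * J)) →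
      (∀ ω, A ω → ∀ l ∈ E, |κ (z' (slam F ⌊w * J⌋₊ ω)) l| ≤ (2 : ℝ) ^ (e * J)) →
      (∀ ω ω', A ω → A ω' → ceI (univ.image φ) (fun _ => J) (F.x ω) =
          ceI (univ.image φ) (fun _ => J) (F.x ω') →
        z' (slam F ⌊w * J⌋₊ ω) = z' (slam F ⌊w * J⌋₊ ω') → F.W ω = F.W ω' →
        |im1 E c₂ (k (z' (slam F ⌊w * J⌋₊ ω))) (F.x ω) -
          im1 E c₂ (k (z' (slam F ⌊w * J⌋₊ ω'))) (F.x ω')| ≤ (2 : ℝ) ^ (-((c - e) * J))) →
      (r - s - ρ) * Real.log 2 * J ≤ CH (Pool.Agent.H49.Ent.cond F.p A True)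
        (fun ω => ⌊(2 : ℝ) ^ ⌊r * J⌋₊ *
          im1 E n₁ (κ (z' (slam F ⌊w * J⌋₊ ω))) (F.x ω)⌋)
        (fun ω => (⌊(2 : ℝ) ^ J * im1 E c₂ (k (z' (slam F ⌊w * J⌋₊ ω))) (F.x ω)⌋,
          (ceI (univ.image φ) (fun _ => J) (F.x ω),
          (z' (slam F ⌊w * J⌋₊ ω), F.W ω))))) := by
  classical
  have hl2 : 0 < Real.log 2 := Real.log_pos one_lt_two
  have hlbs : ∀ j : Fin 2, (![c₂, n₁] : Fin 2 → Fin m) j = c₂ ∧
      lbs φ ![c₂, n₁] E j ⊆ E ∪ (univ.image φ ∪ {n₁}) ∨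
      (![c₂, n₁] : Fin 2 → Fin m) j = n₁ ∧
      lbs φ ![c₂, n₁] E j ⊆ E ∪ (univ.image φ ∪ {c₂}) := by
    intro j
    have key : ∀ (j : Fin 2) (y : Fin m), (∀ j' : Fin 2, j' ≠ j →
        (![c₂, n₁] : Fin 2 → Fin m) j' = y) →
        lbs φ ![c₂, n₁] E j ⊆ E ∪ (univ.image φ ∪ {y}) := by
      intro j y hy l hl
      unfold lbs at hl
      rcases mem_union.1 hl with h | h
      · exact mem_union_left _ h
      · refine mem_union_right _ ?_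
        rcases mem_union.1 h with h | h
        · exact mem_union_left _ h
        · obtain ⟨j', hj', rfl⟩ := mem_image.1 h
          exact mem_union_right _ (mem_singleton.2 (hy j' (mem_erase.1 hj').1))
    fin_cases j
    · refine Or.inl ⟨rfl, key 0 n₁ fun j' hj' => ?_⟩
      fin_cases j'
      · exact absurd rfl hj'
      · rfl
    · refine Or.inr ⟨rfl, key 1 c₂ fun j' hj' => ?_⟩
      fin_cases j'
      · rfl
      · exact absurd rfl hj'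
  obtain ⟨e₁, he₁, hb⟩ := fulR2 hF hC₀ htm hal hg₀ hM hφ i₀ hB (n := ![c₂, n₁]) (E := E)
    (s := ![c, s]) hw0 hw1 (fun j => by
      fin_cases j
      · exact hc0
      · exact hs0) hful hno2 (fun μ hμ hμ1 => by
      obtain ⟨a, ha, ha1, h1⟩ := hno2' μ hμ hμ1
      obtain ⟨b, hb, hb1, h2⟩ := hnoN μ hμ hμ1
      refine ⟨min a b, lt_min ha hb, (min_le_left _ _).trans ha1, fun j K => ?_⟩
      rcases hlbs j with ⟨e1, e2⟩ | ⟨e1, e2⟩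
      · refine (h1 K).mono 0 fun J _ F A g1 g2 => g1 ?_
        rw [e1] at g2
        refine lbr_win ?_ ?_ (lbr_sub e2 g2)
        · exact Nat.floor_le_floor (mul_le_mul_of_nonneg_right (min_le_left _ _)
            (Nat.cast_nonneg J))
        · exact Nat.floor_le_of_le (mul_le_of_le_one_left (Nat.cast_nonneg J) ha1)
      · refine (h2 K).mono 0 fun J _ F A g1 g2 => g1 ?_
        rw [e1] at g2
        refine lbr_win ?_ ?_ (lbr_sub e2 g2)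
        · exact Nat.floor_le_floor (mul_le_mul_of_nonneg_right (min_le_right _ _)
            (Nat.cast_nonneg J))
        · exact Nat.floor_le_of_le (mul_le_of_le_one_left (Nat.cast_nonneg J) hb1))
    (x := 0) (r := 1) le_rfl (by norm_num) (ρ := ρ / 2) (by positivity)
  obtain ⟨e, he⟩ : ∃ e, e = min e₁ (ρ / 4) := ⟨_, rfl⟩
  have he0 : 0 < e := by
    rw [he]
    exact lt_min he₁ (by positivity)
  have hee : e ≤ e₁ := by rw [he]; exact min_le_left _ _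
  have heρ : e ≤ ρ / 4 := by rw [he]; exact min_le_right _ _
  obtain ⟨J₁, hJ₁⟩ := bgJ (a := ρ / 4 * Real.log 2) (by positivity) (2 * Real.log 5 + Real.log 2)
  have hpB : Bas S (fun _ F A => 0 < Pe F.p A) := ⟨1, one_pos, 0, fun J _ F A hA =>
    (htm 1 J F A one_pos hA).1⟩
  refine ⟨e, he0, (hb.and hpB).mono J₁ ?_⟩
  rintro J hJ F A ⟨h1, hA⟩ V z z' k κ hz hk hκ hh
  have g1 := hJ₁ J hJ
  have hJ0 : (0 : ℝ) ≤ J := Nat.cast_nonneg J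
  have hq := isLaw_cond F.isLaw hA
  obtain ⟨μ, hμ⟩ : ∃ μ, μ = Pool.Agent.H49.Ent.cond F.p A True := ⟨_, rfl⟩
  have hμA : ∀ ω, 0 < μ ω → A ω := fun ω hω => by
    rw [hμ] at hω
    exact of_condp hω
  have hpow : (2 : ℝ) ^ (e * J) ≤ (2 : ℝ) ^ ((0 + e₁) * J) :=
    Real.rpow_le_rpow_of_exponent_le (by norm_num) (mul_le_mul_of_nonneg_right (by linarith) hJ0)
  have h2 := h1 V z z' (fun y => ![k y, κ y]) hz (fun ω hω j l hl => by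
    fin_cases j
    · exact (hk ω hω l hl).trans hpow
    · exact (hκ ω hω l hl).trans hpow)
  rw [Fin.sum_univ_two, one_mul, Nat.floor_natCast, ← hμ] at h2
  rw [← hμ] at hq ⊢
  have h0 := hq.nonneg
  obtain ⟨y, hy⟩ : ∃ y : F.Ω → V, y = fun ω => z' (slam F ⌊w * (J : ℝ)⌋₊ ω) := ⟨_, rfl⟩
  have hyω : ∀ ω, z' (slam F ⌊w * (J : ℝ)⌋₊ ω) = y ω := fun ω => by rw [hy]
  simp only [hyω] at h2 hh ⊢
  obtain ⟨Hh, hHh⟩ : ∃ Hh : F.Ω → ℤ, Hh = fun ω =>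
    ⌊(2 : ℝ) ^ J * im1 E c₂ (k (y ω)) (F.x ω)⌋ := ⟨_, rfl⟩
  obtain ⟨U, hU⟩ : ∃ U : F.Ω → ℤ, U = fun ω =>
    ⌊(2 : ℝ) ^ J * im1 E n₁ (κ (y ω)) (F.x ω)⌋ := ⟨_, rfl⟩
  obtain ⟨U', hU'⟩ : ∃ U' : F.Ω → ℤ, U' = fun ω =>
    ⌊(2 : ℝ) ^ ⌊r * (J : ℝ)⌋₊ * im1 E n₁ (κ (y ω)) (F.x ω)⌋ := ⟨_, rfl⟩
  obtain ⟨C, hC⟩ : ∃ C : F.Ω → _, C = fun ω =>
    (ceI (univ.image φ) (fun _ => J) (F.x ω), (y ω, F.W ω)) := ⟨_, rfl⟩
  have h3 : ((1 - c) + (1 - s) - ρ / 2) * Real.log 2 * J ≤ CH μ (fun ω => (U ω, Hh ω)) C := by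
    refine (le_of_eq ?_).trans (h2.trans ?_)
    · rfl
    · rw [hC]
      refine CH_mono_left h0 fun ω ω' _ _ e => ?_
      have e1 := Prod.ext_iff.1 (Prod.ext_iff.1 e).1
      funext j
      fin_cases j
      · have e2 : Hh ω = Hh ω' := e1.2
        rw [hHh] at e2
        exact e2
      · have e2 : U ω = U ω' := e1.1
        rw [hU] at e2
        exact e2
  rw [CH_chain h0 U Hh C] at h3
  have h4 : CH μ Hh C ≤ (1 - c + e) * J * Real.log 2 + Real.log 5 := by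
    rw [hHh]
    refine ch_known hq (fun ω => im1 E c₂ (k (y ω)) (F.x ω)) C
      (mul_nonneg (by linarith) hJ0) fun ω ω' hω hω' e1 => ?_
    rw [hC] at e1
    have e2 := Prod.ext_iff.1 e1
    have e3 := Prod.ext_iff.1 e2.2
    refine (hh ω ω' (hμA ω hω) (hμA ω' hω') e2.1 e3.1 e3.2).trans (le_of_eq ?_)
    congr 1
    ring
  have h5 := CH_le_add h0 U U' (fun ω => (Hh ω, C ω))
  have h6 : CH μ U (fun ω => (U' ω, (Hh ω, C ω))) ≤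
      ((1 - r) * J + 1) * Real.log 2 + Real.log 5 := by
    rw [hU]
    refine ch_known hq (fun ω => im1 E n₁ (κ (y ω)) (F.x ω)) _
      (add_nonneg (mul_nonneg (by linarith) hJ0) one_pos.le) fun ω ω' _ _ e1 => ?_
    have e2 := (Prod.ext_iff.1 e1).1
    rw [hU'] at e2
    have e3 := (Int.abs_sub_lt_one_of_floor_eq_floor e2).le
    rw [← mul_sub, abs_mul, abs_of_pos (by positivity : (0 : ℝ) < 2 ^ ⌊r * (J : ℝ)⌋₊)] at e3
    have e4 : |im1 E n₁ (κ (y ω)) (F.x ω) - im1 E n₁ (κ (y ω')) (F.x ω')| ≤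
        1 / 2 ^ ⌊r * (J : ℝ)⌋₊ := by
      rw [le_div_iff₀ (by positivity), mul_comm]
      exact e3
    refine e4.trans ?_
    rw [one_div, ← Real.rpow_natCast, ← Real.rpow_neg (by norm_num)]
    refine Real.rpow_le_rpow_of_exponent_le (by norm_num) ?_
    have := Nat.lt_floor_add_one (r * (J : ℝ))
    linarith
  rw [← hU']
  have h7 : CH μ U' (fun ω => (⌊(2 : ℝ) ^ J * im1 E c₂ (k (y ω)) (F.x ω)⌋,
      (ceI (univ.image φ) (fun _ => J) (F.x ω), (y ω, F.W ω)))) =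
      CH μ U' (fun ω => (Hh ω, C ω)) := by
    rw [hHh, hC]
  rw [h7]
  have h8 : e * J * Real.log 2 ≤ ρ / 4 * J * Real.log 2 :=
    mul_le_mul_of_nonneg_right (mul_le_mul_of_nonneg_right heρ hJ0) hl2.le
  have e1 : ((1 - c) + (1 - s) - ρ / 2) * Real.log 2 * J =
    (1 - c + e) * J * Real.log 2 + (1 - r) * J * Real.log 2 + (r - s - ρ) * Real.log 2 * J +
      ρ / 2 * J * Real.log 2 - e * J * Real.log 2 := by ring
  have e2 : ((1 - r) * J + 1) * Real.log 2 = (1 - r) * J * Real.log 2 + Real.log 2 := by ring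
  linarith

end Pool.FUL17
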