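import Pool.Agent.H17.FUL.Ord2

/-!
# Two straight images of a class

`core2`: as `core`, for two images; the first one has a smaller number over the base alone.
`ful_sub_of`: from the entropy of the images in the window to the family.
-/

set_option autoImplicit false

namespace Pool.FUL17

open Finset Real MvPolynomial
open Pool.Agent.H49.Ent Pool.Agent.H32.Dense Pool.STK Pool.KA Pool.KSAT Pool.K2S Pool.PB Pool.S6C
open Pool.GEN Pool.REX Pool.REX83 Pool.NFT33 Pool.TOP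
open Pool.UNJ (ceI)
open Pool.GRD (LbP)
open Pool.GRW (bas_part)
open Pool.FUL33 (st_fac bgJ wB wJ jw jmul pull bas_abs)

variable {m N R J : ℕ}

/-- A label over a smaller set is a label over a larger set. -/
theorem lbr_sub {Rr : ℝ} {F : Fam m J} {I I' : Finset (Fin m)} {k : Fin m} {K w P : ℕ}
    {A : F.Ω → Prop} (hI : I ⊆ I') (h : LbR Rr F I k K w P A) : LbR Rr F I' k K w P A := by
  obtain ⟨V, z, z', G, h⟩ := h
  exact ⟨V, z, z', G, h.deg, fun v b b' h1 h2 => h.dep v b b' h1 fun i hi => h2 i (hI hi),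
    h.cls, h.pos⟩

theorem lbsI_none {φ : Fin N → Fin m} {n : Fin R → Fin m} {E : Finset (Fin m)}
    {I : Finset (Fin (N + R))} (hI : ∀ j : Fin R, Fin.natAdd N j ∉ I) :
    lbsI φ n E I ⊆ E ∪ univ.image φ := by
  intro l hl
  unfold lbsI at hl
  rcases mem_union.1 hl with h | h
  · exact mem_union_left _ h
  · rcases mem_union.1 h with h | h
    · exact mem_union_right _ h
    · obtain ⟨j, hj, -⟩ := mem_image.1 h
      exact absurd (mem_filter.1 hj).2 (hI j)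

section cl

variable {S : PCl m} {v : Vz m} {φ : Fin N → Fin m} {n : Fin R → Fin m} {E : Finset (Fin m)}
  {M q : ℕ → ℕ}
  {ka : ∀ (J : ℕ) (F : Fam m J), v.κ J F → Fin R → Fin m → ℝ} {T : PCl (N + R)}
  {L : Finset (Fin (N + R)) → Fin (N + R) → ℝ → ℝ → ℝ}

/-- **The numbers of the images.** -/
theorem im_leI (hS : (S.sl (slI v (nwR v φ n E M ka) T)).Ne) (hL : LamW T L)
    (hst : Bas S (fun J F A => StR F v E (ka J F) (M J) (q J) A)) (j : Fin R)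
    {v₀ Q m₀ C w' w'' e P r : ℝ} {I : Finset (Fin (N + R))}
    (hno : ∀ K, Bas S (fun J F A => ¬ LbR 0 F (lbsI φ n E I) (n j) K ⌊v₀ * J⌋₊ ⌊Q * J⌋₊ A))
    (hv₀ : v.b + w'' * (1 - v.b) < v₀) (hv1 : v₀ ≤ 1) (hw' : w' < w'') (hw0 : 0 < w'')
    (hw1 : w'' ≤ 1) (hM : ∀ J : ℕ, (M J : ℝ) ≤ m₀ * J + C) (hQ0 : 0 ≤ Q) (he : 0 < e)
    (hP : Q + m₀ < v.b + (P - e) * (1 - v.b)) : L I (Fin.natAdd N j) w' r ≤ P := by
  by_contra hcon
  push Not at hcon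
  obtain ⟨l, hl⟩ : ∃ l, l = L I (Fin.natAdd N j) w' r := ⟨_, rfl⟩
  rw [← hl] at hcon
  obtain ⟨K, hK⟩ := hL.att I (Fin.natAdd N j) w' w'' r e hw0 hw1 hw' he
  rw [← hl] at hK
  have h2 := pull (S := S) (v := v) (f := nwR v φ n E M ka) hK
  have hsub : ∀ (τ : ℝ) (J : ℕ) (F : Fam m J) (A : F.Ω → Prop),
    (S.sl (slI v (nwR v φ n E M ka) T)).St τ J F A → S.St τ J F A := fun _ _ _ _ h => h.1
  have h3 := Bas.sub hsub hst
  have h4 := Bas.sub hsub (bas_part (hno (K + 1)) (c := 99 ^ m * 99 ^ (N + R)) (by positivity))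
  have hb0 := v.b0
  have hb1 := v.b1
  obtain ⟨J₁, hJ₁⟩ := bgJ (a := v₀ - (v.b + w'' * (1 - v.b))) (by linarith) w''
  obtain ⟨J₂, hJ₂⟩ := bgJ (a := v.b + (P - e) * (1 - v.b) - (Q + m₀)) (by linarith)
    (C + 2 + |l - e|)
  refine bas_abs hS ((h2.and h3).and h4) ⟨max J₁ J₂, fun J hJ F A h5 => ?_⟩
  obtain ⟨⟨h6, h7⟩, h8⟩ := h5
  have hJ0 : (0 : ℝ) ≤ J := Nat.cast_nonneg J
  obtain ⟨V, z, z', G, hlb⟩ := h6
  obtain ⟨B, hB, hPB, hdet⟩ := h7.part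
  have g1 := hJ₁ J ((le_max_left _ _).trans hJ)
  have g2 := hJ₂ J ((le_max_right _ _).trans hJ)
  obtain ⟨j1, j2⟩ := jw v J
  obtain ⟨b1, b2⟩ := wB v J
  refine h8 B hB hPB (h7.lbrI (n := n) (φ := φ) hB hdet j (w' := ⌊w'' * ((J - v.B J : ℕ) : ℝ)⌋₊) ?_ ?_ ?_
    (LbP.of hlb))
  · refine Nat.le_floor ?_
    have h9 : (⌊w'' * ((J - v.B J : ℕ) : ℝ)⌋₊ : ℝ) ≤ w'' * ((J - v.B J : ℕ) : ℝ) :=
      Nat.floor_le (mul_nonneg hw0.le (Nat.cast_nonneg _))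
    have h10 : w'' * ((J - v.B J : ℕ) : ℝ) ≤ w'' * ((1 - v.b) * J + 1) :=
      mul_le_mul_of_nonneg_left j2 hw0.le
    have e1 : (v₀ - (v.b + w'' * (1 - v.b))) * (J : ℝ) =
      v₀ * J - v.b * J - w'' * ((1 - v.b) * J) := by ring
    have e2 : w'' * ((1 - v.b) * J + 1) = w'' * ((1 - v.b) * J) + w'' := by ring
    push_cast
    linarith
  · refine Nat.floor_le_of_le ?_
    calc v₀ * (J : ℝ) ≤ 1 * J := mul_le_mul_of_nonneg_right hv1 hJ0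
      _ = J := one_mul _
  · rw [← pow_add]
    refine pow_le_pow_right₀ (by norm_num) ?_
    have h9 : (⌊Q * (J : ℝ)⌋₊ : ℝ) ≤ Q * J := Nat.floor_le (mul_nonneg hQ0 hJ0)
    have h10 := Nat.lt_floor_add_one ((l - e) * ((J - v.B J : ℕ) : ℝ))
    have h11 := jmul v (l - e) J
    have h12 : (P - e) * (1 - v.b) * J ≤ (l - e) * (1 - v.b) * J := by
      refine mul_le_mul_of_nonneg_right ?_ hJ0
      exact mul_le_mul_of_nonneg_right (by linarith) (by linarith)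
    have h13 := hM J
    have e1 : (v.b + (P - e) * (1 - v.b) - (Q + m₀)) * (J : ℝ) =
      v.b * J + (P - e) * (1 - v.b) * J - Q * J - m₀ * J := by ring
    have h14 : ((⌊Q * (J : ℝ)⌋₊ + M J : ℕ) : ℝ) ≤
        ((v.B J + ⌊(l - e) * ((J - v.B J : ℕ) : ℝ)⌋₊ : ℕ) : ℝ) := by
      push_cast
      linarith
    exact_mod_cast h14

end cl

/-- **The entropy of the digits of the straight images**, in a subclass. -/
theorem core2 (hF : FZX (N + 2)) {S : PCl m} (hS : S.Ne)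
    (hpos : ∀ (τ : ℝ) (J : ℕ) (F : Fam m J) (A : F.Ω → Prop), S.St τ J F A → 0 < Pe F.p A)
    {C₀ : ℝ} (hC₀ : 0 ≤ C₀) (htm : TmC S C₀) {N₀ : ℚ → ℚ → ℝ} {al : ℝ} {g₀ : ℝ → ℝ} (hal : 0 < al)
    (hg₀ : ∀ ε : ℝ, 0 < ε → 0 < g₀ ε) (hM : ActM N₀ al g₀) {v : Vz m} {φ : Fin N → Fin m}
    (hφ : Function.Injective φ) (i₀ : Fin N) (hB : ActB N₀ S (φ i₀)) {n : Fin 2 → Fin m}
    {E : Finset (Fin m)} {M q : ℕ → ℕ}
    {ka : ∀ (J : ℕ) (F : Fam m J), v.κ J F → Fin 2 → Fin m → ℝ}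
    (hst : Bas S (fun J F A => StR F v E (ka J F) (M J) (q J) A))
    {w₂ u m₀ C σ δ ρ : ℝ} {v₀ Q₀ Q₁ : ℝ} {P : Fin 2 → ℝ} (hw₂ : v.b < w₂) (hwu : w₂ ≤ u) (hu1 : u < 1)
    (hful : Ful S (univ.image φ) w₂ u) (huw : 4 * (u - v.b) ≤ δ * (1 - v.b)) (hδ0 : 0 < δ)
    (hδ2 : δ ≤ 1 / 2) (hδσ : δ < σ) (hσ1 : σ ≤ 1)
    (hq : ∀ J, ⌊σ * ((J - v.B J : ℕ) : ℝ)⌋₊ ≤ q J) (hv₀ : v.b < v₀) (hv1 : v₀ ≤ 1)
    (hm₀ : ∀ J : ℕ, (M J : ℝ) ≤ m₀ * J + C)
    (hP0 : 1 ≤ P 0 ∨ (0 ≤ Q₀ ∧ Q₀ + m₀ < v.b + (P 0 - δ / 8) * (1 - v.b) ∧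
      ∀ K, Bas S (fun J F A =>
        ¬ LbR 0 F (E ∪ univ.image φ) (n 0) K ⌊v₀ * J⌋₊ ⌊Q₀ * J⌋₊ A)))
    (hP1 : 1 ≤ P 1 ∨ (0 ≤ Q₁ ∧ Q₁ + m₀ < v.b + (P 1 - δ / 8) * (1 - v.b) ∧
      ∀ j, ∀ K, Bas S (fun J F A =>
        ¬ LbR 0 F (lbs φ n E j) (n j) K ⌊v₀ * J⌋₊ ⌊Q₁ * J⌋₊ A))) (hρ : 0 < ρ) :
    ∃ S₁ : PCl m, S₁.Ne ∧ (∀ (τ : ℝ) (J : ℕ) (F : Fam m J) (A : F.Ω → Prop),
      S₁.St τ J F A → S.St τ J F A) ∧ Bas S₁ (fun J F A => ∃ ε : Fin (N + 2) → Fin (N + 2),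
      ((N * (1 - δ) + ∑ j, (1 - P j)) - ρ) * Real.log 2 * ((J - v.B J : ℕ) : ℝ) ≤
        CH (Pool.Agent.H49.Ent.cond F.p A True)
          (fun ω (j : Fin (N + 2)) => (winI v (nwR v φ n E M ka) F).X (J - v.B J) ω (ε j))
          (fun ω => ((), (winI v (nwR v φ n E M ka) F).W ω))) := by
  classical
  have hb0 := v.b0
  have hb1 := v.b1
  have hc : 0 < 1 - v.b := by linarith
  have hposC : PosC S := fun τ J F A _ h => hpos τ J F A h
  have hposB : Bas S (fun _ F A => 0 < Pe F.p A) :=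
    ⟨1, one_pos, 0, fun J _ F A hA => hpos 1 J F A hA⟩
  obtain ⟨T, L, hT, hTs, hL⟩ := lamw (WyI S v (nwR v φ n E M ka)) (wyi_ne hS)
  have hS₁ : (S.sl (slI v (nwR v φ n E M ka) T)).Ne := slI_ne v (nwR v φ n E M ka) hT hTs
  have hTpos : ∀ (τ : ℝ) (J : ℕ) (F : Fam (N + 2) J) (A : F.Ω → Prop), T.St τ J F A →
      0 < Pe F.p A := fun τ J F A h => wyi_pos hpos τ J F A (hTs τ J F A h)
  have hTposB : Bas T (fun _ F A => 0 < Pe F.p A) :=
    ⟨1, one_pos, 0, fun J _ F A hA => hTpos 1 J F A hA⟩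
  have hC' : 0 ≤ C₀ * (1 / (1 - v.b)) := by positivity
  have htm' : TmC T (C₀ * (1 / (1 - v.b))) := fun τ J F A h1 h2 =>
    wyi_tmC hC₀ htm τ J F A h1 (hTs τ J F A h2)
  have hact0 := act_st (φ := φ) (n := n) hposC hal.le i₀ hst
  have hact : ActB (NZR S (φ i₀) (al + 1) v.b) T (Fin.castAdd 2 i₀) := fun x y h1 h2 h3 h h4 =>
    Bas.sub hTs (hact0 x y h1 h2 h3 h h4)
  have hMr := hM.real hposC hal.le hB hb0 hb1
  have hg' : ∀ ε : ℝ, 0 < ε → 0 < (fun ε : ℝ => min (g₀ (ε / 2)) 1) ε := fun ε hε =>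
    lt_min (hg₀ _ (half_pos hε)) one_pos
  obtain ⟨D, hDc, hD⟩ := wv_cover hL (φ := fun i : Fin (N + 2) => i) (κ := Fin.castAdd 2 i₀)
    (fun w h0 h1 => hL.act hT hal (hMr.q hg') hact hTposB h0 h1)
  obtain ⟨w'', hw''⟩ : ∃ w'', w'' = min (min ((w₂ - v.b) / 2) ((v₀ - v.b) / 2)) δ := ⟨_, rfl⟩
  have a0 : 0 < w'' := by
    rw [hw'']
    exact lt_min (lt_min (by linarith) (by linarith)) hδ0
  have a1 : w'' ≤ (w₂ - v.b) / 2 := by
    rw [hw'']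
    exact (min_le_left _ _).trans (min_le_left _ _)
  have a2 : w'' ≤ (v₀ - v.b) / 2 := by
    rw [hw'']
    exact (min_le_left _ _).trans (min_le_right _ _)
  have a3 : w'' ≤ δ := by
    rw [hw'']
    exact min_le_right _ _
  have a4 : w'' * (1 - v.b) ≤ w'' := by
    calc w'' * (1 - v.b) ≤ w'' * 1 := mul_le_mul_of_nonneg_left (by linarith) a0.le
      _ = w'' := mul_one _
  obtain ⟨w', hw'D, hw'0, hw'1⟩ := (hDc.dense_compl ℝ).exists_between a0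
  obtain ⟨σp, hWv, hσ0⟩ := hD w' hw'0 (by linarith) hw'D
  obtain ⟨-, -, hg, hct⟩ := hWv
  have hεb : Function.Bijective ((fun i : Fin (N + 2) => i) ∘ σp) := σp.bijective
  have hord := order2 hεb hg (δ := δ) (σ := σ) (P₀ := P 0) (P₁ := P 1) (by linarith) hδσ
    (fun I i r hI hi hr => base_le (n := n) (E := E) (M := M) (ka := ka) hS₁ hL hposB hst hφ
      (w₂ := w₂) (u := u) (w'' := w'') (e := δ / 8) (by linarith) hwu hu1 hful hw'1 a0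
      (by linarith) (by linarith) (by linarith) (by linarith) huw (by linarith) hI hi)
    (fun I j r => im_ge (φ := φ) (n := n) (E := E) (M := M) (ka := ka) hS₁ hL hst hσ1 hq j I w' r)
    (fun I r hI => by
      rcases hP0 with h1 | ⟨h1, h2, h3⟩
      · exact (hL.le1 _ _ _ _).trans h1
      · exact im_leI (φ := φ) (n := n) (E := E) (M := M) (ka := ka) hS₁ hL hst 0 (v₀ := v₀)
          (Q := Q₀) (m₀ := m₀) (C := C) (w'' := w'') (e := δ / 8) (fun K => (h3 K).mono 0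
            fun J _ F A g1 g2 => g1 (lbr_sub (lbsI_none hI) g2))
          (by linarith) hv1 hw'1 a0 (by linarith) hm₀ h1 (by linarith) h2)
    (fun I j r hI => by
      rcases hP1 with h1 | ⟨h1, h2, h3⟩
      · exact (hL.le1 _ _ _ _).trans h1
      · exact im_le (φ := φ) (n := n) (E := E) (M := M) (ka := ka) hS₁ hL hst j (v₀ := v₀)
          (Q := Q₁) (m₀ := m₀) (C := C) (w'' := w'') (e := δ / 8) (h3 j)
          (by linarith) hv1 hw'1 a0 (by linarith) hm₀ h1 (by linarith) h2 hI)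
  have hex := vst_exa hF hT hC' htm' hL hal hg' hMr hTposB hεb.1 (fun j hj => by
    have h1 : ((fun i : Fin (N + 2) => i) ∘ σp) j = Fin.castAdd 2 i₀ := hσ0 j hj
    rw [h1]
    exact hact) hw'0 (by linarith) hg hct hρ
  refine ⟨_, hS₁, fun _ _ _ _ h => h.1, (pull (S := S) (v := v)
    (f := nwR v φ n E M ka) hex).mono 0 fun J _ F A h => ?_⟩
  refine ⟨(fun i : Fin (N + 2) => i) ∘ σp, le_trans ?_
    (h Unit (fun _ => ()) (fun _ => ()) fun _ _ => rfl)⟩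
  rw [Fin.sum_univ_two]
  refine mul_le_mul_of_nonneg_right (mul_le_mul_of_nonneg_right (by linarith)
    (Real.log_pos one_lt_two).le) (Nat.cast_nonneg _)

/-- **From the entropy of the images in the window to the family.** -/
theorem ful_sub_of {S : PCl m}
    (hpos : ∀ (τ : ℝ) (J : ℕ) (F : Fam m J) (A : F.Ω → Prop), S.St τ J F A → 0 < Pe F.p A)
    {φ : Fin N → Fin m} {n : Fin R → Fin m}
    {E : Finset (Fin m)} {w x r η : ℝ} {s : Fin R → ℝ} (hw0 : 0 ≤ w) (hw1 : w < 1)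
    (hx : 0 ≤ x) (hr : r ≤ 1 - x)
    (hη : 0 < η) {d : ∀ (J : ℕ) (F : Fam m J), SR R F}
    (hd : ∀ (τ : ℝ) (J : ℕ) (F : Fam m J) (A : F.Ω → Prop), S.St τ J F A →
      VR E w (x + η) J F (d J F) A)
    (hcore : ∀ (M q : ℕ → ℕ) (P : Fin R → ℝ),
      (M = fun J : ℕ => ⌈(x + η + η) * (J : ℝ)⌉₊ + (m + 1)) →
      (q = fun J : ℕ => ⌊η * (J : ℝ)⌋₊) →
      (P = fun j => (s j + x + 4 * η - w) / (1 - w) + η / 2 / 8) →
      Bas S (fun J F A => StR F (vzR w hw0 hw1 d) E (d J F).ka (M J) (q J) A) →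
      ∃ S₁ : PCl m, S₁.Ne ∧ (∀ (τ : ℝ) (J : ℕ) (F : Fam m J) (A : F.Ω → Prop),
      S₁.St τ J F A → S.St τ J F A) ∧ Bas S₁ (fun J F A => ∃ ε : Fin (N + R) → Fin (N + R),
      ((N * (1 - η / 2) + ∑ j, (1 - P j)) - η) *
        Real.log 2 * ((J - (vzR w hw0 hw1 d).B J : ℕ) : ℝ) ≤
        CH (Pool.Agent.H49.Ent.cond F.p A True)
          (fun ω (j : Fin (N + R)) => (winI (vzR w hw0 hw1 d) (nwR (vzR w hw0 hw1 d) φ n E
            M (fun J F => (d J F).ka)) F).X (J - (vzR w hw0 hw1 d).B J) ω (ε j))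
          (fun ω => ((), (winI (vzR w hw0 hw1 d) (nwR (vzR w hw0 hw1 d) φ n E
            M (fun J F => (d J F).ka)) F).W ω)))) :
    ∃ S₁ : PCl m, S₁.Ne ∧ (∀ (τ : ℝ) (J : ℕ) (F : Fam m J) (A : F.Ω → Prop),
      S₁.St τ J F A → S.St τ J F A) ∧ Bas S₁ (fun J F A =>
        (∑ j, (r - s j) - (N + 5 * R + 2) * η) * Real.log 2 * J ≤
        CH (Pool.Agent.H49.Ent.cond F.p A True)
          (fun ω (j : Fin R) => ⌊(2 : ℝ) ^ ⌊r * J⌋₊ *
            imR n E ((d J F).ka ((d J F).y w ω)) (F.x ω) j⌋)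
          (fun ω => (ceI (univ.image φ) (fun _ => J) (F.x ω), ((d J F).y w ω, F.W ω)))) := by
  classical
  obtain ⟨v, hv⟩ : ∃ v : Vz m, v = vzR w hw0 hw1 d := ⟨_, rfl⟩
  have hvb : v.b = w := by rw [hv]; rfl
  obtain ⟨c, hc⟩ : ∃ c, c = x + η := ⟨_, rfl⟩
  have hc0 : 0 ≤ c := by rw [hc]; linarith
  obtain ⟨M, hMd⟩ : ∃ M : ℕ → ℕ, M = fun J : ℕ => ⌈(c + η) * (J : ℝ)⌉₊ + (m + 1) :=
    ⟨_, rfl⟩
  obtain ⟨q, hqd⟩ : ∃ q : ℕ → ℕ, q = fun J : ℕ => ⌊η * (J : ℝ)⌋₊ := ⟨_, rfl⟩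
  subst hv
  have hst : Bas S (fun J F A => StR F (vzR w hw0 hw1 d) E (d J F).ka (M J) (q J) A) := by
    refine ⟨1, one_pos, 0, fun J _ F A hA => ?_⟩
    rw [hMd, hqd]
    refine vr_st hw0 hw1 hc0 hη.le ?_
    rw [hc]
    exact hd 1 J F A hA
  have hw1' : 0 < 1 - w := by linarith
  obtain ⟨P, hP⟩ : ∃ P : Fin R → ℝ, P = fun j =>
    (s j + x + 4 * η - w) / (1 - w) + η / 2 / 8 := ⟨_, rfl⟩
  have hPe : ∀ j, (P j - η / 2 / 8) * (1 - w) = s j + x + 4 * η - w := fun j => by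
    rw [hP]
    field_simp
    ring
  have hMd' : M = fun J : ℕ => ⌈(x + η + η) * (J : ℝ)⌉₊ + (m + 1) := by rw [hMd, hc]
  obtain ⟨S₁, hS₁, hsub, hb⟩ := hcore M q P hMd' hqd hP hst
  refine ⟨S₁, hS₁, hsub, ?_⟩
  have hpB : Bas S₁ (fun _ F A => 0 < Pe F.p A) :=
    ⟨1, one_pos, 0, fun J _ F A hA => hpos 1 J F A (hsub 1 J F A hA)⟩
  have hl2 : 0 < Real.log 2 := Real.log_pos one_lt_two
  have hl1 : Real.log 2 ≤ 1 := by
    have := Real.log_two_lt_d9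
    linarith
  obtain ⟨a, ha⟩ : ∃ a : ℝ, a = ∑ j, (1 - P j) - N * (η / 2) - η := ⟨_, rfl⟩
  obtain ⟨Cn, hCn⟩ : ∃ Cn : ℝ, Cn = |a| + N * Real.log 11 + R * Real.log 7 := ⟨_, rfl⟩
  obtain ⟨J₁, hJ₁⟩ := bgJ (a := η / 2 * Real.log 2) (by positivity) Cn
  refine ((hb.and (Bas.sub hsub hst)).and hpB).mono J₁ ?_
  rintro J hJ F A ⟨⟨⟨ε, h1⟩, h2⟩, hA⟩
  have g1 := hJ₁ J hJ
  have hJ0 : (0 : ℝ) ≤ J := Nat.cast_nonneg J
  have hR0 : (0 : ℝ) ≤ R := Nat.cast_nonneg R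
  have hq := isLaw_cond F.isLaw hA
  obtain ⟨X, hX⟩ : ∃ X, X = CH (Pool.Agent.H49.Ent.cond F.p A True)
    (fun ω (j : Fin R) => ⌊(2 : ℝ) ^ ⌊r * (J : ℝ)⌋₊ *
      imR n E ((d J F).ka ((d J F).y w ω)) (F.x ω) j⌋)
    (fun ω => (ceI (univ.image φ) (fun _ => J) (F.x ω), ((d J F).y w ω, F.W ω))) := ⟨_, rfl⟩
  have h3 : (N * (1 - η / 2) + ∑ j, (1 - P j) - η) * Real.log 2 *
      ((J - (vzR w hw0 hw1 d).B J : ℕ) : ℝ) ≤
      N * (((J - (vzR w hw0 hw1 d).B J : ℕ) : ℝ) * Real.log 2 + Real.log 11) +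
      R * Real.log (2 * (2 ^ J / (2 ^ M J * 2 ^ ⌊r * (J : ℝ)⌋₊) + 1) + 1) + X := by
    rw [hX]
    have h4 := StR.ext (v := vzR w hw0 hw1 d) (φ := φ) (n := n) (E := E) (M := M) (q := q J)
      (ka := fun J F => (d J F).ka) h2 hA (S := Unit) (fun _ => ()) h1 ⌊r * (J : ℝ)⌋₊
    have h5 : CH (Pool.Agent.H49.Ent.cond F.p A True)
        (fun ω (j : Fin R) => ⌊(2 : ℝ) ^ ⌊r * (J : ℝ)⌋₊ *
          imR n E ((d J F).ka ((vzR w hw0 hw1 d).y J F ω)) (F.x ω) j⌋)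
        (fun ω => (ceI (univ.image φ) (fun _ => J) (F.x ω), ((vzR w hw0 hw1 d).y J F ω,
          F.W ω))) = CH (Pool.Agent.H49.Ent.cond F.p A True)
        (fun ω (j : Fin R) => ⌊(2 : ℝ) ^ ⌊r * (J : ℝ)⌋₊ *
          imR n E ((d J F).ka ((d J F).y w ω)) (F.x ω) j⌋)
        (fun ω => (ceI (univ.image φ) (fun _ => J) (F.x ω), ((d J F).y w ω, F.W ω))) := rfl
    rw [← h5]
    exact h4
  rw [← hX]
  -- the rounding
  have k1 : R * Real.log (2 * (2 ^ J / (2 ^ M J * 2 ^ ⌊r * (J : ℝ)⌋₊) + 1) + 1) ≤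
      R * ((1 - x - r) * J * Real.log 2 + Real.log 7) := by
    refine mul_le_mul_of_nonneg_left ?_ hR0
    have hR := Nat.lt_floor_add_one (r * (J : ℝ))
    have hMJ : x * (J : ℝ) ≤ M J := by
      rw [hMd]
      have h4 := Nat.le_ceil ((c + η) * (J : ℝ))
      have h5 : x * (J : ℝ) ≤ (c + η) * J := mul_le_mul_of_nonneg_right (by linarith) hJ0
      have h6 : (0 : ℝ) ≤ m := Nat.cast_nonneg m
      push_cast
      linarith
    have h1' : (1 : ℝ) ≤ (2 : ℝ) ^ ((1 - x - r) * J) :=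
      Real.one_le_rpow (by norm_num) (mul_nonneg (by linarith) hJ0)
    have h4 : (2 : ℝ) ^ J / (2 ^ M J * 2 ^ ⌊r * (J : ℝ)⌋₊) ≤ 2 * (2 : ℝ) ^ ((1 - x - r) * J) := by
      have e3 : (2 : ℝ) ^ J / (2 ^ M J * 2 ^ ⌊r * (J : ℝ)⌋₊) =
          (2 : ℝ) ^ ((J : ℝ) - ((M J : ℝ) + (⌊r * (J : ℝ)⌋₊ : ℝ))) := by
        rw [Real.rpow_sub (by norm_num), Real.rpow_add (by norm_num), Real.rpow_natCast,
          Real.rpow_natCast, Real.rpow_natCast]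
      have e4 : 2 * (2 : ℝ) ^ ((1 - x - r) * J) = (2 : ℝ) ^ (1 + (1 - x - r) * J) := by
        rw [Real.rpow_add (by norm_num), Real.rpow_one]
      rw [e3, e4]
      refine Real.rpow_le_rpow_of_exponent_le (by norm_num) ?_
      have : (1 - x - r) * (J : ℝ) = J - x * J - r * J := by ring
      linarith
    have h5 : 2 * (2 ^ J / (2 ^ M J * 2 ^ ⌊r * (J : ℝ)⌋₊) + 1) + 1 ≤
        7 * (2 : ℝ) ^ ((1 - x - r) * J) := by linarith
    refine (Real.log_le_log (by positivity) h5).trans (le_of_eq ?_)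
    rw [Real.log_mul (by norm_num) (by positivity), Real.log_rpow (by norm_num)]
    ring
  obtain ⟨J', hJ'⟩ : ∃ J' : ℝ, J' = ((J - (vzR w hw0 hw1 d).B J : ℕ) : ℝ) := ⟨_, rfl⟩
  have hm := jmul (vzR w hw0 hw1 d) a J
  rw [hvb] at hm
  rw [← hJ'] at h3 hm
  obtain ⟨sP, hsP⟩ : ∃ sP, sP = ∑ j, (1 - P j) := ⟨_, rfl⟩
  obtain ⟨sS, hsS⟩ : ∃ sS, sS = ∑ j, s j := ⟨_, rfl⟩
  have hsr : ∑ j, (r - s j) = R * r - sS := by
    rw [Finset.sum_sub_distrib, Finset.sum_const, Finset.card_univ, Fintype.card_fin,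
      nsmul_eq_mul, hsS]
  rw [← hsP] at h3 ha
  rw [hsr]
  have k2 : (N * (1 - η / 2) + sP - η) * Real.log 2 * J' - N * (J' * Real.log 2 +
      Real.log 11) = a * J' * Real.log 2 - N * Real.log 11 := by
    rw [ha]
    ring
  have k3 : (a * (1 - w) * J - |a|) * Real.log 2 ≤ a * J' * Real.log 2 :=
    mul_le_mul_of_nonneg_right hm hl2.le
  have kp : sP * (1 - w) = R * (1 - x - 4 * η) - sS - R * (η / 16) * (1 - w) := by
    have e1 : ∀ j, (1 - P j) * (1 - w) = (1 - x - 4 * η) - s j - η / 16 * (1 - w) := by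
      intro j
      have h4 := hPe j
      have e2 : (1 - P j) * (1 - w) = (1 - w) - (P j - η / 2 / 8) * (1 - w) -
        η / 16 * (1 - w) := by ring
      rw [e2, h4]
      ring
    rw [hsP, Finset.sum_mul, Finset.sum_congr rfl fun j _ => e1 j, Finset.sum_sub_distrib,
      Finset.sum_sub_distrib, Finset.sum_const, Finset.sum_const, Finset.card_univ,
      Fintype.card_fin, nsmul_eq_mul, nsmul_eq_mul, hsS]
    ring
  have k4 : a * (1 - w) = R * (1 - x - 4 * η) - sS -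
      (R * (η / 16) + N * (η / 2) + η) * (1 - w) := by
    have e5 : a * (1 - w) = sP * (1 - w) - (N * (η / 2) + η) * (1 - w) := by
      rw [ha]
      ring
    rw [e5, kp]
    ring
  have k5 : (R * (η / 16) + N * (η / 2) + η) * (1 - w) ≤ R * (η / 16) + N * (η / 2) + η := by
    have : 0 ≤ R * (η / 16) + N * (η / 2) + η := by positivity
    calc (R * (η / 16) + N * (η / 2) + η) * (1 - w) ≤ (R * (η / 16) + N * (η / 2) + η) * 1 :=
          mul_le_mul_of_nonneg_left (by linarith) this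
      _ = _ := mul_one _
  have hNη : 0 ≤ (N : ℝ) * η := by positivity
  have hRη : 0 ≤ (R : ℝ) * η := by positivity
  have k6 : (R * (1 - x) - sS - (N + 5 * R + 2) * η + η / 2) * (J : ℝ) ≤ a * (1 - w) * J := by
    refine mul_le_mul_of_nonneg_right ?_ hJ0
    rw [k4]
    linarith
  have k7 := mul_le_mul_of_nonneg_right k6 hl2.le
  have k8 : |a| * Real.log 2 ≤ |a| := mul_le_of_le_one_right (abs_nonneg a) hl1
  have e6 : (R * (1 - x) - sS - (N + 5 * R + 2) * η + η / 2) * (J : ℝ) * Real.log 2 =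
    (R * r - sS - (N + 5 * R + 2) * η) * Real.log 2 * J + R * ((1 - x - r) * J * Real.log 2) +
      η / 2 * Real.log 2 * J := by ring
  have e7 : (a * (1 - w) * J - |a|) * Real.log 2 = a * (1 - w) * J * Real.log 2 -
    |a| * Real.log 2 := by ring
  have e8 : R * ((1 - x - r) * J * Real.log 2 + Real.log 7) =
    R * ((1 - x - r) * J * Real.log 2) + R * Real.log 7 := by ring
  linarith

end Pool.FUL17
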