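import Pool.Agent.H17.FUL.Shr0

/-!
# Fullness of two straight images with different numbers

`fulR2`: as `fulR` for two images; the first one has the number `s₀` over the base (without the
second target), both have the number `s₁` over everything.
-/

set_option autoImplicit false

namespace Pool.FUL17

open Finset Real MvPolynomial
open Pool.Agent.H49.Ent Pool.Agent.H32.Dense Pool.STK Pool.KA Pool.KSAT Pool.K2S Pool.PB Pool.S6C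
open Pool.GEN Pool.REX Pool.REX83 Pool.NFT33 Pool.TOP
open Pool.UNJ (ceI)
open Pool.OWN72 (bas_low)
open Pool.FUL33 (bgJ wB wJ jw jmul pull bas_abs)

variable {m N R J : ℕ}

/-- A label in a larger window is a label in a smaller window. -/
theorem lbr_win {Rr : ℝ} {F : Fam m J} {I : Finset (Fin m)} {k : Fin m} {K w w' P : ℕ}
    {A : F.Ω → Prop} (hw : w ≤ w') (hw' : w' ≤ J) (h : LbR Rr F I k K w P A) :
    LbR Rr F I k K w' P A := by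
  obtain ⟨V, z, z', G, h⟩ := h
  have e : ∀ ω, z' (slam F w ω) = (fun s : LnT F => z' (s.1, s.2.1, s.2.2 / 2 ^ (w' - w)))
      (slam F w' ω) := fun ω => by rw [slam_coarse F hw hw' ω]
  refine ⟨V, z, fun s => z' (s.1, s.2.1, s.2.2 / 2 ^ (w' - w)), G, h.deg, h.dep,
    fun ω hω => (h.cls ω hω).trans (e ω), fun ω hω b hb => ?_⟩
  have h1 := h.pos ω hω b hb
  rw [e ω] at h1
  exact h1

/-- **Fullness of two straight images**, for the data of a class. -/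
theorem ful_sub2 (hF : FZX (N + 2)) {S : PCl m} (hS : S.Ne)
    (hpos : ∀ (τ : ℝ) (J : ℕ) (F : Fam m J) (A : F.Ω → Prop), S.St τ J F A → 0 < Pe F.p A)
    {C₀ : ℝ} (hC₀ : 0 ≤ C₀) (htm : TmC S C₀) {N₀ : ℚ → ℚ → ℝ} {al : ℝ} {g₀ : ℝ → ℝ} (hal : 0 < al)
    (hg₀ : ∀ ε : ℝ, 0 < ε → 0 < g₀ ε) (hM : ActM N₀ al g₀) {φ : Fin N → Fin m}
    (hφ : Function.Injective φ) (i₀ : Fin N) (hB : ActB N₀ S (φ i₀)) {n : Fin 2 → Fin m}
    {E : Finset (Fin m)} {w x r η : ℝ} {s : Fin 2 → ℝ} {v₀ : ℝ} (hw0 : 0 ≤ w) (hw1 : w < 1)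
    (hs0 : ∀ j, 0 ≤ s j) (hx : 0 ≤ x) (hr : r ≤ 1 - x)
    (hη : 0 < η) (hη2 : η ≤ 1 / 2) {w₂ u : ℝ} (hw₂ : w < w₂) (hwu : w₂ ≤ u) (hu1 : u < 1)
    (hful : Ful S (univ.image φ) w₂ u) (huw : 8 * (u - w) ≤ η * (1 - w))
    (hv₀ : w < v₀) (hv1 : v₀ ≤ 1)
    (hno0 : s 0 + η ≤ 1 → ∀ K, Bas S (fun J F A =>
      ¬ LbR 0 F (E ∪ univ.image φ) (n 0) K ⌊v₀ * J⌋₊ ⌊(s 0 + η) * J⌋₊ A))
    (hno1 : s 1 + η ≤ 1 → ∀ j, ∀ K, Bas S (fun J F A =>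
      ¬ LbR 0 F (lbs φ n E j) (n j) K ⌊v₀ * J⌋₊ ⌊(s 1 + η) * J⌋₊ A))
    {d : ∀ (J : ℕ) (F : Fam m J), SR 2 F}
    (hd : ∀ (τ : ℝ) (J : ℕ) (F : Fam m J) (A : F.Ω → Prop), S.St τ J F A →
      VR E w (x + η) J F (d J F) A) :
    ∃ S₁ : PCl m, S₁.Ne ∧ (∀ (τ : ℝ) (J : ℕ) (F : Fam m J) (A : F.Ω → Prop),
      S₁.St τ J F A → S.St τ J F A) ∧ Bas S₁ (fun J F A =>
        (∑ j, (r - s j) - (N + 5 * (2 : ℕ) + 2) * η) * Real.log 2 * J ≤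
        CH (Pool.Agent.H49.Ent.cond F.p A True)
          (fun ω (j : Fin 2) => ⌊(2 : ℝ) ^ ⌊r * J⌋₊ *
            imR n E ((d J F).ka ((d J F).y w ω)) (F.x ω) j⌋)
          (fun ω => (ceI (univ.image φ) (fun _ => J) (F.x ω), ((d J F).y w ω, F.W ω)))) := by
  have hw1' : 0 < 1 - w := by linarith
  refine ful_sub_of (N := N) (R := 2) (S := S) (φ := φ) (n := n) (E := E) (s := s) hpos hw0 hw1
    hx hr hη hd ?_
  intro M q P hMd hqd hP hst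
  have hnum : ∀ j, s j + η + (x + η + η) < w + (P j - η / 2 / 8) * (1 - w) := by
    intro j
    have e1 : (P j - η / 2 / 8) * (1 - w) = s j + x + 4 * η - w := by
      rw [hP]
      field_simp
      ring
    rw [e1]
    linarith
  have hbig : ∀ j, 1 < s j + η → 1 ≤ P j := by
    intro j hs
    have e1 : 1 ≤ (s j + x + 4 * η - w) / (1 - w) := by
      rw [le_div_iff₀ hw1']
      linarith
    rw [hP]
    show 1 ≤ (s j + x + 4 * η - w) / (1 - w) + η / 2 / 8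
    linarith
  exact core2 hF hS hpos hC₀ htm hal hg₀ hM (v := vzR w hw0 hw1 d) hφ i₀ hB (n := n) (E := E)
    (ka := fun J F => (d J F).ka) (M := M) (q := q) hst (w₂ := w₂) (u := u)
    (m₀ := x + η + η) (C := m + 2) (σ := η) (δ := η / 2) (ρ := η) (v₀ := v₀)
    (Q₀ := s 0 + η) (Q₁ := s 1 + η) (P := P) hw₂ hwu hu1 hful
    (show 4 * (u - w) ≤ η / 2 * (1 - w) by linarith) (by linarith) (by linarith)
    (by linarith) (by linarith) (fun J => by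
      rw [hqd]
      refine Nat.floor_le_floor (mul_le_mul_of_nonneg_left ?_ hη.le)
      exact_mod_cast Nat.sub_le _ _) hv₀ hv1 (fun J => by
      rw [hMd]
      have h1 := Nat.ceil_lt_add_one (mul_nonneg (show (0 : ℝ) ≤ x + η + η by linarith)
        (Nat.cast_nonneg J))
      push_cast
      linarith) (by
      by_cases hj : s 0 + η ≤ 1
      · exact Or.inr ⟨by linarith [hs0 0], hnum 0, hno0 hj⟩
      · exact Or.inl (hbig 0 (not_le.1 hj))) (by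
      by_cases hj : s 1 + η ≤ 1
      · exact Or.inr ⟨by linarith [hs0 1], hnum 1, hno1 hj⟩
      · exact Or.inl (hbig 1 (not_le.1 hj))) hη

/-- **Fullness of two straight images**, the first one with a smaller number over the base. -/
theorem fulR2 (hF : FZX (N + 2)) {S : PCl m} {C₀ : ℝ} (hC₀ : 0 ≤ C₀) (htm : TmC S C₀)
    {N₀ : ℚ → ℚ → ℝ} {al : ℝ} {g₀ : ℝ → ℝ} (hal : 0 < al)
    (hg₀ : ∀ ε : ℝ, 0 < ε → 0 < g₀ ε) (hM : ActM N₀ al g₀) {φ : Fin N → Fin m}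
    (hφ : Function.Injective φ) (i₀ : Fin N) (hB : ActB N₀ S (φ i₀)) {n : Fin 2 → Fin m}
    {E : Finset (Fin m)} {w : ℝ} {s : Fin 2 → ℝ} (hw0 : 0 ≤ w) (hw1 : w < 1)
    (hs0 : ∀ j, 0 ≤ s j)
    (hful : ∀ δ : ℝ, 0 < δ → ∃ w₂ u : ℝ, w < w₂ ∧ w₂ ≤ u ∧ u < w + δ ∧
      Ful S (univ.image φ) w₂ u)
    (hno0 : ∀ μ : ℝ, 0 < μ → s 0 + μ ≤ 1 → ∃ v₀ : ℝ, w < v₀ ∧ v₀ ≤ 1 ∧ ∀ K,
      Bas S (fun J F A => ¬ LbR 0 F (E ∪ univ.image φ) (n 0) K ⌊v₀ * J⌋₊ ⌊(s 0 + μ) * J⌋₊ A))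
    (hno1 : ∀ μ : ℝ, 0 < μ → s 1 + μ ≤ 1 → ∃ v₀ : ℝ, w < v₀ ∧ v₀ ≤ 1 ∧ ∀ j, ∀ K,
      Bas S (fun J F A => ¬ LbR 0 F (lbs φ n E j) (n j) K ⌊v₀ * J⌋₊ ⌊(s 1 + μ) * J⌋₊ A))
    {x r : ℝ} (hx : 0 ≤ x) (hr : r ≤ 1 - x) {ρ : ℝ} (hρ : 0 < ρ) :
    ∃ e : ℝ, 0 < e ∧ Bas S (fun J F A => ∀ (V : Type) (z : PtT F → V) (z' : LnT F → V)
      (ka : V → Fin 2 → Fin m → ℝ), (∀ ω, A ω → z (ptr F J ω) = z' (slam F ⌊w * J⌋₊ ω)) →
      (∀ ω, A ω → ∀ j, ∀ l ∈ E,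
        |ka (z' (slam F ⌊w * J⌋₊ ω)) j l| ≤ (2 : ℝ) ^ ((x + e) * J)) →
      (∑ j, (r - s j) - ρ) * Real.log 2 * J ≤ CH (Pool.Agent.H49.Ent.cond F.p A True)
        (fun ω (j : Fin 2) => ⌊(2 : ℝ) ^ ⌊r * J⌋₊ *
          imR n E (ka (z' (slam F ⌊w * J⌋₊ ω))) (F.x ω) j⌋)
        (fun ω => (ceI (univ.image φ) (fun _ => J) (F.x ω),
          (z' (slam F ⌊w * J⌋₊ ω), F.W ω)))) := by
  classical
  have hpos : ∀ (τ : ℝ) (J : ℕ) (F : Fam m J) (A : F.Ω → Prop), S.St τ J F A →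
      0 < Pe F.p A := fun τ J F A h => (htm (max τ 1) J F A (lt_max_of_lt_right one_pos)
        (S.mono (le_max_left _ _) h)).1
  have hl2 : 0 < Real.log 2 := Real.log_pos one_lt_two
  have hN0 : (0 : ℝ) ≤ N := Nat.cast_nonneg N
  have hR0 : (0 : ℝ) ≤ (2 : ℕ) := Nat.cast_nonneg 2
  obtain ⟨η, hη⟩ : ∃ η, η = min (ρ / (8 * (N + 5 * (2 : ℕ) + 2))) (1 / 2) := ⟨_, rfl⟩
  have hη0 : 0 < η := by
    rw [hη]
    exact lt_min (by positivity) (by norm_num)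
  have hη2 : η ≤ 1 / 2 := by rw [hη]; exact min_le_right _ _
  have hηρ : (N + 5 * (2 : ℕ) + 2) * η ≤ ρ / 8 := by
    have h1 : η ≤ ρ / (8 * (N + 5 * (2 : ℕ) + 2)) := by rw [hη]; exact min_le_left _ _
    calc ((N : ℝ) + 5 * (2 : ℕ) + 2) * η ≤ (N + 5 * (2 : ℕ) + 2) * (ρ / (8 * (N + 5 * (2 : ℕ) + 2))) :=
          mul_le_mul_of_nonneg_left h1 (by positivity)
      _ = ρ / 8 := by field_simp
  refine ⟨η, hη0, ?_⟩
  obtain ⟨v₀, hv₀, hv1, hno'⟩ : ∃ v₀ : ℝ, w < v₀ ∧ v₀ ≤ 1 ∧ ((s 0 + η ≤ 1 → ∀ K,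
      Bas S (fun J F A => ¬ LbR 0 F (E ∪ univ.image φ) (n 0) K ⌊v₀ * J⌋₊ ⌊(s 0 + η) * J⌋₊ A)) ∧
      (s 1 + η ≤ 1 → ∀ j, ∀ K, Bas S (fun J F A =>
        ¬ LbR 0 F (lbs φ n E j) (n j) K ⌊v₀ * J⌋₊ ⌊(s 1 + η) * J⌋₊ A))) := by
    obtain ⟨a, ha, ha1, hb⟩ : ∃ v₀ : ℝ, w < v₀ ∧ v₀ ≤ 1 ∧ (s 0 + η ≤ 1 → ∀ K,
        Bas S (fun J F A =>
          ¬ LbR 0 F (E ∪ univ.image φ) (n 0) K ⌊v₀ * J⌋₊ ⌊(s 0 + η) * J⌋₊ A)) := by
      by_cases hj : s 0 + η ≤ 1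
      · obtain ⟨v₀, h1, h2, h3⟩ := hno0 η hη0 hj
        exact ⟨v₀, h1, h2, fun _ => h3⟩
      · exact ⟨1, hw1, le_rfl, fun h => absurd h hj⟩
    obtain ⟨b, hb', hb1, hc⟩ : ∃ v₀ : ℝ, w < v₀ ∧ v₀ ≤ 1 ∧ (s 1 + η ≤ 1 → ∀ j, ∀ K,
        Bas S (fun J F A =>
          ¬ LbR 0 F (lbs φ n E j) (n j) K ⌊v₀ * J⌋₊ ⌊(s 1 + η) * J⌋₊ A)) := by
      by_cases hj : s 1 + η ≤ 1
      · obtain ⟨v₀, h1, h2, h3⟩ := hno1 η hη0 hj
        exact ⟨v₀, h1, h2, fun _ => h3⟩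
      · exact ⟨1, hw1, le_rfl, fun h => absurd h hj⟩
    refine ⟨min a b, lt_min ha hb', (min_le_left _ _).trans ha1,
      fun h K => ((hb h K).mono 0 fun J _ F A g1 g2 => g1 (lbr_win ?_ ?_ g2)),
      fun h j K => ((hc h j K).mono 0 fun J _ F A g1 g2 => g1 (lbr_win ?_ ?_ g2))⟩
    · exact Nat.floor_le_floor (mul_le_mul_of_nonneg_right (min_le_left _ _)
        (Nat.cast_nonneg J))
    · exact Nat.floor_le_of_le (mul_le_of_le_one_left (Nat.cast_nonneg J) ha1)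
    · exact Nat.floor_le_floor (mul_le_mul_of_nonneg_right (min_le_right _ _)
        (Nat.cast_nonneg J))
    · exact Nat.floor_le_of_le (mul_le_of_le_one_left (Nat.cast_nonneg J) hb1)
  have hw1' : 0 < 1 - w := by linarith
  obtain ⟨w₂, u, hw₂, hwu, hu, hfl⟩ := hful (min (η * (1 - w) / 8) (1 - w))
    (lt_min (by positivity) hw1')
  have hu1 : u < 1 := by
    have := min_le_right (η * (1 - w) / 8) (1 - w)
    linarith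
  have hu2 : 8 * (u - w) ≤ η * (1 - w) := by
    have := min_le_left (η * (1 - w) / 8) (1 - w)
    linarith
  have key := bas_low (S := S) hpos (Δ := fun _ F => SR 2 F)
    (fun J F d A => VR E w (x + η) J F d A)
    (fun J F d A B h hB => ⟨fun ω hω => h.1 ω (hB ω hω), fun ω hω => h.2 ω (hB ω hω)⟩)
    (fun J F d ω (j : Fin 2) => ⌊(2 : ℝ) ^ ⌊r * (J : ℝ)⌋₊ *
      imR n E (d.ka (d.y w ω)) (F.x ω) j⌋)
    (fun J F d ω => (ceI (univ.image φ) (fun _ => J) (F.x ω), (d.y w ω, F.W ω)))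
    (fun J _ _ => (∑ j, (r - s j) - ρ / 2) * Real.log 2 * J)
    (C := (∑ j, (r - s j) - ρ / 2) * Real.log 2)
    (δ := ρ / 2 * Real.log 2) (fun _ _ _ => le_rfl) (by positivity) (by
      intro S' hS' hsub d hd
      obtain ⟨S₁, h1, h2, h3⟩ := ful_sub2 hF hS'
        (fun τ J F A h => hpos τ J F A (hsub τ J F A h)) hC₀
        (fun τ J F A h1 h2 => htm τ J F A h1 (hsub τ J F A h2)) hal hg₀ hM hφ i₀
        (fun a b h1 h2 h3 h h4 => Bas.sub hsub (hB a b h1 h2 h3 h h4)) (n := n) (E := E)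
        (s := s) (v₀ := v₀) hw0 hw1 hs0 hx hr hη0 hη2 hw₂ hwu hu1
        (fun ρ hρ => Bas.sub hsub (hfl ρ hρ)) hu2 hv₀ hv1
        (fun hj K => Bas.sub hsub (hno'.1 hj K)) (fun hj j K => Bas.sub hsub (hno'.2 hj j K)) hd
      refine ⟨S₁, h1, h2, h3.mono 0 fun J _ F A h4 => le_trans ?_ h4⟩
      have e1 : (∑ j, (r - s j) - ρ / 2) * Real.log 2 * J - ρ / 2 * Real.log 2 / 4 * J =
        (∑ j, (r - s j) - ρ / 2 - ρ / 8) * Real.log 2 * J := by ring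
      show (∑ j, (r - s j) - ρ / 2) * Real.log 2 * J - ρ / 2 * Real.log 2 / 4 * J ≤ _
      rw [e1]
      exact mul_le_mul_of_nonneg_right (mul_le_mul_of_nonneg_right (by linarith) hl2.le)
        (Nat.cast_nonneg J))
  have hpB : Bas S (fun _ F A => 0 < Pe F.p A) :=
    ⟨1, one_pos, 0, fun J _ F A hA => hpos 1 J F A hA⟩
  refine (key.and hpB).mono 0 ?_
  rintro J - F A ⟨h1, hA⟩ V z z' ka hz hka
  have hq := isLaw_cond F.isLaw hA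
  -- the datum
  obtain ⟨rep, hrep⟩ : ∃ rep : V → Option F.Ω, rep = fun y =>
    if h : ∃ ω, z' (slam F ⌊w * (J : ℝ)⌋₊ ω) = y then some h.choose else none := ⟨_, rfl⟩
  obtain ⟨kb, hkb⟩ : ∃ kb : Option F.Ω → Fin 2 → Fin m → ℝ, kb = fun o => match o with
    | none => 0
    | some ω => ka (z' (slam F ⌊w * (J : ℝ)⌋₊ ω)) := ⟨_, rfl⟩
  have hr1 : ∀ ω : F.Ω, ∃ ω' : F.Ω, rep (z' (slam F ⌊w * (J : ℝ)⌋₊ ω)) = some ω' ∧
      z' (slam F ⌊w * (J : ℝ)⌋₊ ω') = z' (slam F ⌊w * (J : ℝ)⌋₊ ω) := by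
    intro ω
    have hex : ∃ ω', z' (slam F ⌊w * (J : ℝ)⌋₊ ω') = z' (slam F ⌊w * (J : ℝ)⌋₊ ω) := ⟨ω, rfl⟩
    refine ⟨hex.choose, ?_, hex.choose_spec⟩
    rw [hrep]
    exact dif_pos hex
  have hk1 : ∀ ω : F.Ω, kb (rep (z' (slam F ⌊w * (J : ℝ)⌋₊ ω))) =
      ka (z' (slam F ⌊w * (J : ℝ)⌋₊ ω)) := by
    intro ω
    obtain ⟨ω', h2, h3⟩ := hr1 ω
    rw [h2, hkb]
    show ka (z' (slam F ⌊w * (J : ℝ)⌋₊ ω')) = _
    rw [h3]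
  obtain ⟨d, hd⟩ : ∃ d : SR 2 F, d = ⟨fun y => rep (z y), fun y => rep (z' y), kb⟩ := ⟨_, rfl⟩
  have hdy : ∀ ω, d.y w ω = rep (z' (slam F ⌊w * (J : ℝ)⌋₊ ω)) := fun ω => by
    rw [hd]
    rfl
  have hdk : ∀ ω, d.ka (d.y w ω) = ka (z' (slam F ⌊w * (J : ℝ)⌋₊ ω)) := fun ω => by
    rw [hdy, ← hk1 ω, hd]
  have h2 := h1 d ⟨fun ω hω => by
    rw [hdy, ← hz ω hω, hd], fun ω hω => by
    rw [hdk]
    exact hka ω hω⟩
  have h3 : CH (Pool.Agent.H49.Ent.cond F.p A True)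
      (fun ω (j : Fin 2) => ⌊(2 : ℝ) ^ ⌊r * (J : ℝ)⌋₊ *
        imR n E (d.ka (d.y w ω)) (F.x ω) j⌋)
      (fun ω => (ceI (univ.image φ) (fun _ => J) (F.x ω), (d.y w ω, F.W ω))) ≤
      CH (Pool.Agent.H49.Ent.cond F.p A True)
      (fun ω (j : Fin 2) => ⌊(2 : ℝ) ^ ⌊r * (J : ℝ)⌋₊ *
        imR n E (ka (z' (slam F ⌊w * (J : ℝ)⌋₊ ω))) (F.x ω) j⌋)
      (fun ω => (ceI (univ.image φ) (fun _ => J) (F.x ω),
        (z' (slam F ⌊w * (J : ℝ)⌋₊ ω), F.W ω))) := by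
    simp only [hdk]
    refine CH_mono_cond hq.nonneg fun ω ω' _ _ e => ?_
    have e1 := Prod.ext_iff.1 e
    have e2 := Prod.ext_iff.1 e1.2
    refine Prod.ext e1.1 (Prod.ext ?_ e2.2)
    have e3 : d.y w ω = d.y w ω' := e2.1
    rw [hdy, hdy] at e3
    obtain ⟨ω₁, f1, f2⟩ := hr1 ω
    obtain ⟨ω₂, f3, f4⟩ := hr1 ω'
    rw [f1, f3] at e3
    have e4 := Option.some.inj e3
    show z' (slam F ⌊w * (J : ℝ)⌋₊ ω) = z' (slam F ⌊w * (J : ℝ)⌋₊ ω')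
    rw [← f2, ← f4, e4]
  refine le_trans ?_ h3
  have e1 : (∑ j, (r - s j) - ρ) * Real.log 2 * J = (∑ j, (r - s j) - ρ / 2) * Real.log 2 * J -
    ρ / 2 * Real.log 2 * J := by ring
  rw [e1]
  exact h2

end Pool.FUL17
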