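import Pool.Agent.H33.FUL.Stg

/-!
# Several straight images of the windows of a family

`nwR v φ n E M ka`: the new lines of the windows are the lines of the coordinates `φ i` and the
lines of `(x (n j) - ∑ l ∈ E, κ j l x l) / 2 ^ M`, where the slopes `κ` are functions of the visible
variable. `StR.imA`: the digits of the new lines; `StR.part`: on a large part of the event the point
determines the point of the window with new lines.
-/

set_option autoImplicit false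

namespace Pool.FUL17

open Finset Real
open Pool.Agent.H49.Ent Pool.Agent.H32.Dense Pool.STK Pool.KA Pool.KSAT Pool.K2S Pool.PB Pool.S6C
open Pool.GEN Pool.REX Pool.REX83 Pool.NFT33
open Pool.FUL33 (win_le2 win_fl wy win_sub floor_49)

variable {m N R J : ℕ}

/-- The straight coordinates. -/
noncomputable def linR (φ : Fin N → Fin m) (n : Fin R → Fin m) (E : Finset (Fin m)) (al : ℝ)
    (be : Fin R → Fin m → ℝ) (x : Fin m → ℝ) : Fin (N + R) → ℝ :=
  Fin.addCases (motive := fun _ => ℝ) (fun i => x (φ i))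
    (fun j => al * x (n j) - ∑ l ∈ E, be j l * x l)

section lin

variable (φ : Fin N → Fin m) (n : Fin R → Fin m) (E : Finset (Fin m)) (al : ℝ)
  (be : Fin R → Fin m → ℝ) (x : Fin m → ℝ)

theorem linR_base (i : Fin N) : linR φ n E al be x (Fin.castAdd R i) = x (φ i) := by
  unfold linR
  exact Fin.addCases_left (motive := fun _ => ℝ) i

theorem linR_im (j : Fin R) :
    linR φ n E al be x (Fin.natAdd N j) = al * x (n j) - ∑ l ∈ E, be j l * x l := by
  unfold linR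
  exact Fin.addCases_right (motive := fun _ => ℝ) j

end lin

/-- **The new lines of the straight images.** -/
noncomputable def nwR (v : Vz m) (φ : Fin N → Fin m) (n : Fin R → Fin m) (E : Finset (Fin m))
    (M : ℕ → ℕ) (ka : ∀ (J : ℕ) (F : Fam m J), v.κ J F → Fin R → Fin m → ℝ) : Nw v (N + R) :=
  fun J F s =>
  (linR φ n E (1 / 2 ^ M J) (fun j l => ka J F s.2.1 j l / 2 ^ M J) s.1.1,
    linR φ n E (1 / 2 ^ M J) (fun j l => ka J F s.2.1 j l / 2 ^ M J) s.1.2)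

/-- The slopes are small on the event, and the visible variable is visible at the point. -/
structure StR (F : Fam m J) (v : Vz m) (E : Finset (Fin m)) (ka : v.κ J F → Fin R → Fin m → ℝ)
    (M q : ℕ) (A : F.Ω → Prop) : Prop where
  kb : ∀ ω, A ω → ∀ j, 2 ^ (q + 1) * (1 + ∑ l ∈ E, |ka (v.y J F ω) j l|) ≤ (2 : ℝ) ^ M
  cl : ∀ ω ω', A ω → A ω' → ptr F J ω = ptr F J ω' → v.y J F ω = v.y J F ω'

section st

variable {F : Fam m J} {v : Vz m} {φ : Fin N → Fin m} {n : Fin R → Fin m} {E : Finset (Fin m)}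
  {M : ℕ → ℕ} {ka : ∀ (J : ℕ) (F : Fam m J), v.κ J F → Fin R → Fin m → ℝ} {q : ℕ}
  {A : F.Ω → Prop}

theorem StR.sub {B : F.Ω → Prop} (h : StR F v E (ka J F) (M J) q A) (hB : Sub B A) :
    StR F v E (ka J F) (M J) q B :=
  ⟨fun ω hω => h.kb ω (hB ω hω), fun ω ω' h1 h2 => h.cl ω ω' (hB ω h1) (hB ω' h2)⟩

theorem nwR_fst (ω : F.Ω) (i : Fin (N + R)) :
    (nwR v φ n E M ka J F ((v.win F).l ω, (v.win F).Z ω)).1 i =
      linR φ n E (1 / 2 ^ M J) (fun j l => ka J F (v.y J F ω) j l / 2 ^ M J)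
        ((v.win F).u ω) i := rfl

theorem nwR_snd (ω : F.Ω) (i : Fin (N + R)) :
    (nwR v φ n E M ka J F ((v.win F).l ω, (v.win F).Z ω)).2 i =
      linR φ n E (1 / 2 ^ M J) (fun j l => ka J F (v.y J F ω) j l / 2 ^ M J) (F.d ω) i := rfl

/-- The size of the images. -/
theorem StR.small (h : StR F v E (ka J F) (M J) q A) {ω : F.Ω} (hω : A ω) (j : Fin R) {a c : ℝ}
    {b : Fin m → ℝ} (ha : |a| ≤ c) (hb : ∀ l, |b l| ≤ c) :
    |1 / 2 ^ M J * a - ∑ l ∈ E, ka J F (v.y J F ω) j l / 2 ^ M J * b l| ≤ c / 2 ^ (q + 1) := by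
  obtain ⟨κ, hκ⟩ : ∃ κ, κ = ka J F (v.y J F ω) j := ⟨_, rfl⟩
  have h1 := h.kb ω hω j
  rw [← hκ] at h1 ⊢
  have pM : (0 : ℝ) < 2 ^ M J := by positivity
  have pq : (0 : ℝ) < 2 ^ (q + 1) := by positivity
  have hc : 0 ≤ c := (abs_nonneg a).trans ha
  have e1 : 1 / 2 ^ M J * a - ∑ l ∈ E, κ l / 2 ^ M J * b l = (a - ∑ l ∈ E, κ l * b l) / 2 ^ M J := by
    rw [sub_div, Finset.sum_div]
    congr 1
    · ring
    · exact Finset.sum_congr rfl fun l _ => by ring
  have h2 : |a - ∑ l ∈ E, κ l * b l| ≤ c * (1 + ∑ l ∈ E, |κ l|) := by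
    have h3 : |∑ l ∈ E, κ l * b l| ≤ (∑ l ∈ E, |κ l|) * c := by
      rw [Finset.sum_mul]
      refine (Finset.abs_sum_le_sum_abs _ _).trans (Finset.sum_le_sum fun l _ => ?_)
      rw [abs_mul]
      exact mul_le_mul_of_nonneg_left (hb l) (abs_nonneg _)
    have h4 := abs_sub a (∑ l ∈ E, κ l * b l)
    have h5 : c * (1 + ∑ l ∈ E, |κ l|) = c + (∑ l ∈ E, |κ l|) * c := by ring
    rw [h5]
    linarith
  rw [e1, abs_div, abs_of_pos pM, div_le_div_iff₀ pM pq]
  have h6 : |a - ∑ l ∈ E, κ l * b l| * 2 ^ (q + 1) ≤ c * (1 + ∑ l ∈ E, |κ l|) * 2 ^ (q + 1) :=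
    mul_le_mul_of_nonneg_right h2 pq.le
  have h7 : c * (2 ^ (q + 1) * (1 + ∑ l ∈ E, |κ l|)) ≤ c * 2 ^ M J :=
    mul_le_mul_of_nonneg_left h1 hc
  have h8 : c * (1 + ∑ l ∈ E, |κ l|) * 2 ^ (q + 1) = c * (2 ^ (q + 1) * (1 + ∑ l ∈ E, |κ l|)) := by
    ring
  linarith

/-- The velocities of the new lines are not cut. -/
theorem StR.le1 (h : StR F v E (ka J F) (M J) q A) {ω : F.Ω} (hω : A ω) (i : Fin (N + R)) :
    |(nwR v φ n E M ka J F ((v.win F).l ω, (v.win F).Z ω)).2 i| ≤ 1 := by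
  rw [nwR_snd]
  refine Fin.addCases (fun i => ?_) (fun j => ?_) i
  · rw [linR_base]
    exact F.dir ω (φ i)
  · rw [linR_im]
    refine (h.small hω j (F.dir ω (n j)) (fun l => F.dir ω l)).trans ?_
    rw [div_le_one (by positivity)]
    exact one_le_pow₀ (by norm_num)

theorem StR.d (h : StR F v E (ka J F) (M J) q A) {ω : F.Ω} (hω : A ω) (i : Fin (N + R)) :
    (winI v (nwR v φ n E M ka) F).d ω i =
      linR φ n E (1 / 2 ^ M J) (fun j l => ka J F (v.y J F ω) j l / 2 ^ M J) (F.d ω) i := by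
  have h1 := img_d (v.win F) (nwR v φ n E M ka J F) (h.le1 (φ := φ) (n := n) hω i)
  rw [nwR_snd] at h1
  exact h1

theorem StR.db (h : StR F v E (ka J F) (M J) q A) {ω : F.Ω} (hω : A ω) (i : Fin N) :
    (winI v (nwR v φ n E M ka) F).d ω (Fin.castAdd R i) = F.d ω (φ i) := by
  rw [h.d hω, linR_base]

theorem StR.x (h : StR F v E (ka J F) (M J) q A) {ω : F.Ω} (hω : A ω) (i : Fin (N + R)) :
    (winI v (nwR v φ n E M ka) F).x ω i =
      linR φ n E (1 / 2 ^ M J) (fun j l => ka J F (v.y J F ω) j l / 2 ^ M J)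
        ((v.win F).x ω) i := by
  have h1 := img_x (v.win F) (nwR v φ n E M ka J F) (h.le1 (φ := φ) (n := n) hω i)
  have h2 : (winI v (nwR v φ n E M ka) F).x ω i =
      (img (v.win F) (nwR v φ n E M ka J F)).x ω i := rfl
  rw [h2, h1, nwR_fst, nwR_snd]
  have hx : ∀ l, (v.win F).x ω l = (v.win F).u ω l + (v.win F).t ω * F.d ω l := fun l => rfl
  refine Fin.addCases (fun i => ?_) (fun j => ?_) i
  · rw [linR_base, linR_base, linR_base, hx]
  · rw [linR_im, linR_im, linR_im, hx]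
    have e1 : ∑ l ∈ E, ka J F (v.y J F ω) j l / 2 ^ M J * (v.win F).x ω l =
        ∑ l ∈ E, ka J F (v.y J F ω) j l / 2 ^ M J * (v.win F).u ω l +
          (v.win F).t ω * ∑ l ∈ E, ka J F (v.y J F ω) j l / 2 ^ M J * F.d ω l := by
      rw [Finset.mul_sum, ← Finset.sum_add_distrib]
      refine Finset.sum_congr rfl fun l _ => ?_
      rw [hx]
      ring
    rw [e1]
    ring

theorem StR.xb (h : StR F v E (ka J F) (M J) q A) {ω : F.Ω} (hω : A ω) (i : Fin N) :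
    (winI v (nwR v φ n E M ka) F).x ω (Fin.castAdd R i) = (v.win F).x ω (φ i) := by
  rw [h.x hω, linR_base]

theorem StR.xl (h : StR F v E (ka J F) (M J) q A) {ω : F.Ω} (hω : A ω) (j : Fin R) :
    (winI v (nwR v φ n E M ka) F).x ω (Fin.natAdd N j) = 1 / 2 ^ M J * (v.win F).x ω (n j) -
      ∑ l ∈ E, ka J F (v.y J F ω) j l / 2 ^ M J * (v.win F).x ω l := by
  rw [h.x hω, linR_im]

theorem StR.xl_le (h : StR F v E (ka J F) (M J) q A) {ω : F.Ω} (hω : A ω) (j : Fin R) :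
    |(winI v (nwR v φ n E M ka) F).x ω (Fin.natAdd N j)| ≤ 1 / 2 ^ q := by
  rw [h.xl hω]
  refine (h.small hω j (win_le2 ω (n j)) (fun l => win_le2 ω l)).trans (le_of_eq ?_)
  rw [pow_succ]
  field_simp

theorem StR.dl_le (h : StR F v E (ka J F) (M J) q A) {ω : F.Ω} (hω : A ω) (j : Fin R) :
    |(winI v (nwR v φ n E M ka) F).d ω (Fin.natAdd N j)| ≤ 1 / 2 ^ (q + 1) := by
  rw [h.d hω, linR_im]
  exact h.small hω j (F.dir ω (n j)) (fun l => F.dir ω l)

/-- Two samples with the same point: the points of the windows with new lines. -/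
theorem StR.nX (h : StR F v E (ka J F) (M J) q A) {ω ω' : F.Ω} (hω : A ω) (hω' : A ω')
    (hZ : (v.win F).Z ω = (v.win F).Z ω') (hX : F.X J ω = F.X J ω') (i : Fin (N + R)) :
    |(winI v (nwR v φ n E M ka) F).X (J - v.B J) ω i -
      (winI v (nwR v φ n E M ka) F).X (J - v.B J) ω' i| ≤ 49 := by
  have hx : ∀ l, |2 ^ (J - v.B J) * ((v.win F).x ω l - (v.win F).x ω' l)| ≤ 1 := by
    intro l
    rw [win_sub hZ]
    have hk : ⌊(2 : ℝ) ^ J * F.x ω l⌋ = ⌊(2 : ℝ) ^ J * F.x ω' l⌋ := congrFun hX l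
    exact (Int.abs_sub_lt_one_of_floor_eq_floor hk).le
  have hy : v.y J F ω = v.y J F ω' := wy hZ
  refine floor_49 ?_
  rw [← mul_sub]
  refine Fin.addCases (fun i => ?_) (fun j => ?_) i
  · rw [h.xb hω, h.xb hω']
    exact hx (φ i)
  · rw [h.xl hω, h.xl hω', ← hy]
    have e1 : (2 : ℝ) ^ (J - v.B J) * (1 / 2 ^ M J * (v.win F).x ω (n j) -
        ∑ l ∈ E, ka J F (v.y J F ω) j l / 2 ^ M J * (v.win F).x ω l -
        (1 / 2 ^ M J * (v.win F).x ω' (n j) -
        ∑ l ∈ E, ka J F (v.y J F ω) j l / 2 ^ M J * (v.win F).x ω' l)) =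
        1 / 2 ^ M J * (2 ^ (J - v.B J) * ((v.win F).x ω (n j) - (v.win F).x ω' (n j))) -
        ∑ l ∈ E, ka J F (v.y J F ω) j l / 2 ^ M J *
          (2 ^ (J - v.B J) * ((v.win F).x ω l - (v.win F).x ω' l)) := by
      have e2 : ∑ l ∈ E, ka J F (v.y J F ω) j l / 2 ^ M J *
          (2 ^ (J - v.B J) * ((v.win F).x ω l - (v.win F).x ω' l)) = 2 ^ (J - v.B J) *
          (∑ l ∈ E, ka J F (v.y J F ω) j l / 2 ^ M J * (v.win F).x ω l -
            ∑ l ∈ E, ka J F (v.y J F ω) j l / 2 ^ M J * (v.win F).x ω' l) := by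
        rw [← Finset.sum_sub_distrib, Finset.mul_sum]
        exact Finset.sum_congr rfl fun l _ => by ring
      rw [e2]
      ring
    rw [e1]
    refine (h.small hω j (hx (n j)) (fun l => hx l)).trans ?_
    rw [div_le_one (by positivity)]
    exact one_le_pow₀ (by norm_num)

/-- Two samples with the same digits of the velocities. -/
theorem StR.nD (h : StR F v E (ka J F) (M J) q A) {ω ω' : F.Ω} (hω : A ω) (hω' : A ω') {l : ℕ}
    (hy : v.y J F ω = v.y J F ω') (hD : F.D l ω = F.D l ω') (i : Fin (N + R)) :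
    |(winI v (nwR v φ n E M ka) F).D l ω i - (winI v (nwR v φ n E M ka) F).D l ω' i| ≤ 49 := by
  have hx : ∀ j, |2 ^ l * (F.d ω j - F.d ω' j)| ≤ 1 := by
    intro j
    rw [mul_sub]
    have hk : ⌊(2 : ℝ) ^ l * F.d ω j⌋ = ⌊(2 : ℝ) ^ l * F.d ω' j⌋ := congrFun hD j
    exact (Int.abs_sub_lt_one_of_floor_eq_floor hk).le
  refine floor_49 ?_
  rw [← mul_sub]
  refine Fin.addCases (fun i => ?_) (fun j => ?_) i
  · rw [h.db hω, h.db hω']
    exact hx (φ i)
  · rw [h.d hω, h.d hω', linR_im, linR_im, ← hy]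
    have e1 : (2 : ℝ) ^ l * (1 / 2 ^ M J * F.d ω (n j) -
        ∑ k ∈ E, ka J F (v.y J F ω) j k / 2 ^ M J * F.d ω k - (1 / 2 ^ M J * F.d ω' (n j) -
        ∑ k ∈ E, ka J F (v.y J F ω) j k / 2 ^ M J * F.d ω' k)) =
        1 / 2 ^ M J * (2 ^ l * (F.d ω (n j) - F.d ω' (n j))) -
        ∑ k ∈ E, ka J F (v.y J F ω) j k / 2 ^ M J * (2 ^ l * (F.d ω k - F.d ω' k)) := by
      have e2 : ∑ k ∈ E, ka J F (v.y J F ω) j k / 2 ^ M J * (2 ^ l * (F.d ω k - F.d ω' k)) =
          2 ^ l * (∑ k ∈ E, ka J F (v.y J F ω) j k / 2 ^ M J * F.d ω k -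
            ∑ k ∈ E, ka J F (v.y J F ω) j k / 2 ^ M J * F.d ω' k) := by
        rw [← Finset.sum_sub_distrib, Finset.mul_sum]
        exact Finset.sum_congr rfl fun k _ => by ring
      rw [e2]
      ring
    rw [e1]
    refine (h.small hω j (hx (n j)) (fun k => hx k)).trans ?_
    rw [div_le_one (by positivity)]
    exact one_le_pow₀ (by norm_num)

/-- **The digits of the new lines.** -/
theorem StR.imA (h : StR F v E (ka J F) (M J) q A) (k₁ : ℕ) (i₀ : Fin N) :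
    ImA F v (nwR v φ n E M ka) (φ i₀) (Fin.castAdd R i₀) k₁ A :=
  ⟨fun _ hω => h.db hω i₀, fun _ _ hω hω' hZ _ hX i => h.nX hω hω' hZ hX i,
    fun _ _ hω hω' hZ _ _ _ _ hD i => h.nD hω hω' (wy hZ) hD i⟩

/-- **A large part of the event**, on which the point determines the point of the window with new
lines. -/
theorem StR.part (h : StR F v E (ka J F) (M J) q A) :
    ∃ B : F.Ω → Prop, Sub B A ∧ Pe F.p A ≤ (99 ^ m * 99 ^ (N + R) : ℝ) * Pe F.p B ∧
      ∀ ω ω', B ω → B ω' → ptr F J ω = ptr F J ω' →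
        ptr (winI v (nwR v φ n E M ka) F) (J - v.B J) ω =
          ptr (winI v (nwR v φ n E M ka) F) (J - v.B J) ω' := by
  have hB := (v.floor_le J).1
  have h99 : ((2 : ℝ) * (49 : ℕ) + 1) = 99 := by norm_num
  -- the cells
  obtain ⟨B₁, b1, b2, φ₁, b3⟩ := Pool.S6K.exact_label F.isLaw 49 (ptr F J)
    (fun ω => fl (v.B J) (F.x1 (v.B J) ω)) A (fun ω ω' _ _ hp i => by
      have h1 := Prod.ext_iff.mp hp
      have h2 := Prod.ext_iff.mp h1.2
      exact_mod_cast x1_near F hB h1.1 h2.1 i)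
  have hZ : ∀ ω ω', B₁ ω → B₁ ω' → ptr F J ω = ptr F J ω' →
      (v.win F).Z ω = (v.win F).Z ω' := by
    intro ω ω' hω hω' hp
    have h1 := Prod.ext_iff.mp hp
    have h2 := Prod.ext_iff.mp h1.2
    have hT : F.T ω = F.T ω' := h2.1
    have hx : fl (v.B J) (F.x1 (v.B J) ω) = fl (v.B J) (F.x1 (v.B J) ω') := by
      rw [b3 ω hω, b3 ω' hω', hp]
    refine Prod.ext (h.cl ω ω' (b1 ω hω) (b1 ω' hω') hp) ?_
    show F.c (v.B J) ω = F.c (v.B J) ω'
    unfold Fam.c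
    have c1 : F.T1 (v.B J) ω = F.T1 (v.B J) ω' := by
      unfold Fam.T1
      rw [hT]
    have hZ' : F.Z ω = F.Z ω' := h2.2
    rw [c1, hx, hZ']
  -- the points
  obtain ⟨B₂, b4, b5, φ₂, b6⟩ := Pool.S6K.exact_label F.isLaw 49
    (ptr F J) (fun ω => (winI v (nwR v φ n E M ka) F).X (J - v.B J) ω) B₁
    (fun ω ω' hω hω' hp i => by
      have h1 := Prod.ext_iff.mp hp
      exact_mod_cast h.nX (b1 ω hω) (b1 ω' hω') (hZ ω ω' hω hω' hp) h1.1 i)
  rw [h99] at b2 b5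
  refine ⟨B₂, fun ω hω => b1 ω (b4 ω hω), ?_, fun ω ω' hω hω' hp => ?_⟩
  · have p0 : (0 : ℝ) ≤ 99 ^ m := by positivity
    calc Pe F.p A ≤ 99 ^ m * Pe F.p B₁ := b2
      _ ≤ 99 ^ m * (99 ^ (N + R) * Pe F.p B₂) := mul_le_mul_of_nonneg_left b5 p0
      _ = _ := by ring
  · have h1 := Prod.ext_iff.mp hp
    have h2 := Prod.ext_iff.mp h1.2
    have hT : F.T ω = F.T ω' := h2.1
    have hZ' := hZ ω ω' (b4 ω hω) (b4 ω' hω') hp
    have hX : (winI v (nwR v φ n E M ka) F).X (J - v.B J) ω =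
        (winI v (nwR v φ n E M ka) F).X (J - v.B J) ω' := by
      rw [b6 ω hω, b6 ω' hω', hp]
    refine Prod.ext hX (Prod.ext ?_ hZ')
    show F.T ω % 2 ^ (J - v.B J) = F.T ω' % 2 ^ (J - v.B J)
    rw [hT]

end st

end Pool.FUL17
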