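import Pool.Agent.H17.FUL.Fin
import Pool.Agent.H33.FUL.Thr

/-!
# Fullness of several straight images, from the thresholds of the targets

`fulR_thr`: the base `φ`, the targets `n j` with the thresholds `P j`, the coordinates `E` of the
slopes. `ful_lam`: one image `x n - ∑ l ∈ E, κ l * x l`. `ful_pair`: two images
`x n₁ - κ₁ * x k`, `x n₂ - κ₂ * x k` with slopes in the same coordinate.
-/

set_option autoImplicit false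

namespace Pool.FUL17

open Finset Real MvPolynomial
open Pool.Agent.H49.Ent Pool.Agent.H32.Dense Pool.STK Pool.KA Pool.KSAT Pool.K2S Pool.PB Pool.S6C
open Pool.GEN Pool.TOP Pool.ONE
open Pool.UNJ (ceI)
open Pool.LBT (ThrOf)

variable {m N R J : ℕ}

theorem not_mem_lbs {φ : Fin N → Fin m} {n : Fin R → Fin m} (hn : Function.Injective n)
    {E : Finset (Fin m)} (hnE : ∀ j, n j ∉ E) (hnφ : ∀ i j, φ i ≠ n j) (j : Fin R) :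
    n j ∉ lbs φ n E j := by
  unfold lbs
  rw [mem_union, mem_union, mem_image, mem_image]
  rintro (h | ⟨i, -, h⟩ | ⟨j', hj', h⟩)
  · exact hnE j h
  · exact hnφ i j h
  · exact (mem_erase.1 hj').1 (hn h)

/-- **Fullness of several straight images**, from the thresholds of the targets. -/
theorem fulR_thr (hF : FZX (N + R)) {S : PCl m} {C₀ : ℝ} (hC₀ : 0 ≤ C₀) (htm : TmC S C₀)
    {N₀ : ℚ → ℚ → ℝ} {al : ℝ} {g₀ : ℝ → ℝ} (hal : 0 < al)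
    (hg₀ : ∀ ε : ℝ, 0 < ε → 0 < g₀ ε) (hM : ActM N₀ al g₀) {φ : Fin N → Fin m}
    (hφ : Function.Injective φ) (i₀ : Fin N) (hB : ActB N₀ S (φ i₀)) {n : Fin R → Fin m}
    (hn : Function.Injective n) {E : Finset (Fin m)} (hnE : ∀ j, n j ∉ E)
    (hnφ : ∀ i j, φ i ≠ n j) {w : ℝ} {s : Fin R → ℝ} (hw0 : 0 ≤ w) (hw1 : w < 1)
    (hs0 : ∀ j, 0 ≤ s j)
    (hful : ∀ δ : ℝ, 0 < δ → ∃ w₂ u : ℝ, w < w₂ ∧ w₂ ≤ u ∧ u < w + δ ∧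
      Ful S (univ.image φ) w₂ u)
    {P : Fin R → ℝ → ℝ → ℝ} (hT : ∀ j, ThrOf (tgs (n j)) S (fun _ => P j))
    (hP : ∀ j, ∀ μ : ℝ, 0 < μ → ∃ a : ℝ, w < a ∧ a ≤ 1 ∧ P j a a < s j + μ)
    {x r : ℝ} (hx : 0 ≤ x) (hr : r ≤ 1 - x) {ρ : ℝ} (hρ : 0 < ρ) :
    ∃ e : ℝ, 0 < e ∧ Bas S (fun J F A => ∀ (V : Type) (z : PtT F → V) (z' : LnT F → V)
      (ka : V → Fin R → Fin m → ℝ), (∀ ω, A ω → z (ptr F J ω) = z' (slam F ⌊w * J⌋₊ ω)) →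
      (∀ ω, A ω → ∀ j, ∀ l ∈ E,
        |ka (z' (slam F ⌊w * J⌋₊ ω)) j l| ≤ (2 : ℝ) ^ ((x + e) * J)) →
      (∑ j, (r - s j) - ρ) * Real.log 2 * J ≤ CH (Pool.Agent.H49.Ent.cond F.p A True)
        (fun ω (j : Fin R) => ⌊(2 : ℝ) ^ ⌊r * J⌋₊ *
          imR n E (ka (z' (slam F ⌊w * J⌋₊ ω))) (F.x ω) j⌋)
        (fun ω => (ceI (univ.image φ) (fun _ => J) (F.x ω),
          (z' (slam F ⌊w * J⌋₊ ω), F.W ω)))) := by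
  refine fulR hF hC₀ htm hal hg₀ hM hφ i₀ hB (E := E) (s := s) hw0 hw1 hs0 hful
    (fun j μ hμ hμ1 => ?_) hx hr hρ
  obtain ⟨a, ha, ha1, haP⟩ := hP j μ hμ
  exact ⟨(w + a) / 2, by linarith, by linarith, fun K =>
    lbr_no (hT j) le_rfl (not_mem_lbs hn hnE hnφ j) (by linarith) (by linarith) ha1 haP hμ1 K⟩

/-- **One image of several coordinates.** -/
theorem ful_lam (hF : FZX (N + 1)) {S : PCl m} {C₀ : ℝ} (hC₀ : 0 ≤ C₀) (htm : TmC S C₀)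
    {N₀ : ℚ → ℚ → ℝ} {al : ℝ} {g₀ : ℝ → ℝ} (hal : 0 < al)
    (hg₀ : ∀ ε : ℝ, 0 < ε → 0 < g₀ ε) (hM : ActM N₀ al g₀) {φ : Fin N → Fin m}
    (hφ : Function.Injective φ) (i₀ : Fin N) (hB : ActB N₀ S (φ i₀)) {n : Fin m}
    {E : Finset (Fin m)} (hnE : n ∉ E) (hnφ : ∀ i, φ i ≠ n) {w s : ℝ} (hw0 : 0 ≤ w)
    (hw1 : w < 1) (hs0 : 0 ≤ s)
    (hful : ∀ δ : ℝ, 0 < δ → ∃ w₂ u : ℝ, w < w₂ ∧ w₂ ≤ u ∧ u < w + δ ∧
      Ful S (univ.image φ) w₂ u)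
    {P : ℝ → ℝ → ℝ} (hT : ThrOf (tgs n) S (fun _ => P))
    (hP : ∀ μ : ℝ, 0 < μ → ∃ a : ℝ, w < a ∧ a ≤ 1 ∧ P a a < s + μ)
    {x r : ℝ} (hx : 0 ≤ x) (hr : r ≤ 1 - x) {ρ : ℝ} (hρ : 0 < ρ) :
    ∃ e : ℝ, 0 < e ∧ Bas S (fun J F A => ∀ (V : Type) (z : PtT F → V) (z' : LnT F → V)
      (ka : V → Fin m → ℝ), (∀ ω, A ω → z (ptr F J ω) = z' (slam F ⌊w * J⌋₊ ω)) →
      (∀ ω, A ω → ∀ l ∈ E, |ka (z' (slam F ⌊w * J⌋₊ ω)) l| ≤ (2 : ℝ) ^ ((x + e) * J)) →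
      (r - s - ρ) * Real.log 2 * J ≤ CH (Pool.Agent.H49.Ent.cond F.p A True)
        (fun ω => ⌊(2 : ℝ) ^ ⌊r * J⌋₊ *
          (F.x ω n - ∑ l ∈ E, ka (z' (slam F ⌊w * J⌋₊ ω)) l * F.x ω l)⌋)
        (fun ω => (ceI (univ.image φ) (fun _ => J) (F.x ω),
          (z' (slam F ⌊w * J⌋₊ ω), F.W ω)))) := by
  obtain ⟨e, he, h⟩ := fulR_thr (R := 1) hF hC₀ htm hal hg₀ hM hφ i₀ hB (n := fun _ => n)
    (fun _ _ _ => Subsingleton.elim _ _) (E := E) (fun _ => hnE) (fun i _ => hnφ i)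
    (s := fun _ => s) hw0 hw1 (fun _ => hs0) hful (P := fun _ => P) (fun _ => hT) (fun _ => hP)
    hx hr hρ
  have hpB : Bas S (fun _ F A => 0 < Pe F.p A) := ⟨1, one_pos, 0, fun J _ F A hA =>
    (htm 1 J F A one_pos hA).1⟩
  refine ⟨e, he, (h.and hpB).mono 0 ?_⟩
  rintro J - F A ⟨h1, hA⟩ V z z' ka hz hka
  have h2 := h1 V z z' (fun y _ l => ka y l) hz (fun ω hω _ l hl => hka ω hω l hl)
  rw [Fin.sum_univ_one] at h2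
  refine h2.trans (CH_mono_left (isLaw_cond F.isLaw hA).nonneg fun ω ω' _ _ e => ?_)
  exact funext fun _ => (Prod.ext_iff.1 e).1

/-- **Two images with slopes in the same coordinate.** -/
theorem ful_pair (hF : FZX (N + 2)) {S : PCl m} {C₀ : ℝ} (hC₀ : 0 ≤ C₀) (htm : TmC S C₀)
    {N₀ : ℚ → ℚ → ℝ} {al : ℝ} {g₀ : ℝ → ℝ} (hal : 0 < al)
    (hg₀ : ∀ ε : ℝ, 0 < ε → 0 < g₀ ε) (hM : ActM N₀ al g₀) {φ : Fin N → Fin m}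
    (hφ : Function.Injective φ) (i₀ : Fin N) (hB : ActB N₀ S (φ i₀)) {k n₁ n₂ : Fin m}
    (h12 : n₁ ≠ n₂) (hk1 : n₁ ≠ k) (hk2 : n₂ ≠ k) (hφ1 : ∀ i, φ i ≠ n₁) (hφ2 : ∀ i, φ i ≠ n₂)
    {w s₁ s₂ : ℝ} (hw0 : 0 ≤ w) (hw1 : w < 1) (hs1 : 0 ≤ s₁) (hs2 : 0 ≤ s₂)
    (hful : ∀ δ : ℝ, 0 < δ → ∃ w₂ u : ℝ, w < w₂ ∧ w₂ ≤ u ∧ u < w + δ ∧
      Ful S (univ.image φ) w₂ u)
    {P₁ P₂ : ℝ → ℝ → ℝ} (hT1 : ThrOf (tgs n₁) S (fun _ => P₁))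
    (hT2 : ThrOf (tgs n₂) S (fun _ => P₂))
    (hP1 : ∀ μ : ℝ, 0 < μ → ∃ a : ℝ, w < a ∧ a ≤ 1 ∧ P₁ a a < s₁ + μ)
    (hP2 : ∀ μ : ℝ, 0 < μ → ∃ a : ℝ, w < a ∧ a ≤ 1 ∧ P₂ a a < s₂ + μ)
    {x r : ℝ} (hx : 0 ≤ x) (hr : r ≤ 1 - x) {ρ : ℝ} (hρ : 0 < ρ) :
    ∃ e : ℝ, 0 < e ∧ Bas S (fun J F A => ∀ (V : Type) (z : PtT F → V) (z' : LnT F → V)
      (κ₁ κ₂ : V → ℝ), (∀ ω, A ω → z (ptr F J ω) = z' (slam F ⌊w * J⌋₊ ω)) →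
      (∀ ω, A ω → |κ₁ (z' (slam F ⌊w * J⌋₊ ω))| ≤ (2 : ℝ) ^ ((x + e) * J)) →
      (∀ ω, A ω → |κ₂ (z' (slam F ⌊w * J⌋₊ ω))| ≤ (2 : ℝ) ^ ((x + e) * J)) →
      ((r - s₁) + (r - s₂) - ρ) * Real.log 2 * J ≤ CH (Pool.Agent.H49.Ent.cond F.p A True)
        (fun ω => (⌊(2 : ℝ) ^ ⌊r * J⌋₊ *
            (F.x ω n₁ - κ₁ (z' (slam F ⌊w * J⌋₊ ω)) * F.x ω k)⌋,
          ⌊(2 : ℝ) ^ ⌊r * J⌋₊ *
            (F.x ω n₂ - κ₂ (z' (slam F ⌊w * J⌋₊ ω)) * F.x ω k)⌋))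
        (fun ω => (ceI (univ.image φ) (fun _ => J) (F.x ω),
          (z' (slam F ⌊w * J⌋₊ ω), F.W ω)))) := by
  have hn : ∀ j : Fin 2, (![n₁, n₂] : Fin 2 → Fin m) j = n₁ ∨
      (![n₁, n₂] : Fin 2 → Fin m) j = n₂ := by
    intro j
    fin_cases j
    · exact Or.inl rfl
    · exact Or.inr rfl
  obtain ⟨e, he, h⟩ := fulR_thr (R := 2) hF hC₀ htm hal hg₀ hM hφ i₀ hB (n := ![n₁, n₂])
    (by
      intro i j hij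
      fin_cases i <;> fin_cases j
      · rfl
      · exact absurd hij h12
      · exact absurd hij.symm h12
      · rfl) (E := {k}) (fun j => by
      rw [mem_singleton]
      rcases hn j with h | h <;> rw [h]
      · exact hk1
      · exact hk2) (fun i j => by
      rcases hn j with h | h <;> rw [h]
      · exact hφ1 i
      · exact hφ2 i)
    (s := ![s₁, s₂]) hw0 hw1 (fun j => by
      fin_cases j
      · exact hs1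
      · exact hs2) hful (P := ![P₁, P₂]) (fun j => by
      fin_cases j
      · exact hT1
      · exact hT2) (fun j => by
      fin_cases j
      · exact hP1
      · exact hP2)
    hx hr hρ
  have hpB : Bas S (fun _ F A => 0 < Pe F.p A) := ⟨1, one_pos, 0, fun J _ F A hA =>
    (htm 1 J F A one_pos hA).1⟩
  refine ⟨e, he, (h.and hpB).mono 0 ?_⟩
  rintro J - F A ⟨h1, hA⟩ V z z' κ₁ κ₂ hz hκ₁ hκ₂
  have h2 := h1 V z z' (fun y j _ => ![κ₁ y, κ₂ y] j) hz (fun ω hω j l _ => by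
    fin_cases j
    · exact hκ₁ ω hω
    · exact hκ₂ ω hω)
  rw [Fin.sum_univ_two] at h2
  refine h2.trans (CH_mono_left (isLaw_cond F.isLaw hA).nonneg fun ω ω' _ _ e => ?_)
  have e1 := Prod.ext_iff.1 (Prod.ext_iff.1 e).1
  have e3 : ∀ ω : F.Ω, ∀ j : Fin 2, imR (![n₁, n₂] : Fin 2 → Fin m) {k}
      (fun j _ => ![κ₁ (z' (slam F ⌊w * (J : ℝ)⌋₊ ω)), κ₂ (z' (slam F ⌊w * (J : ℝ)⌋₊ ω))] j)
      (F.x ω) j = F.x ω ((![n₁, n₂] : Fin 2 → Fin m) j) -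
        ![κ₁ (z' (slam F ⌊w * (J : ℝ)⌋₊ ω)), κ₂ (z' (slam F ⌊w * (J : ℝ)⌋₊ ω))] j * F.x ω k := by
    intro ω j
    unfold imR
    rw [sum_singleton]
  funext j
  simp only [e3]
  fin_cases j
  · exact e1.1
  · exact e1.2

end Pool.FUL17
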